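import Mathlib

set_option autoImplicit false

/-!
Combinatorial-analytic data of generalized exchanges of four intervals with the permutation of
Keane, and their induction on the last interval (followed by a reflection).
-/

namespace Pool.Agent.H814R3

/-- Conjugation by `x ↦ -x`. -/
def flip (f : ℝ ≃o ℝ) : ℝ ≃o ℝ where
  toFun x := - f (-x)
  invFun x := - f.symm (-x)
  left_inv x := by simp
  right_inv x := by simp
  map_rel_iff' := by
    intro a b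
    simp

@[simp] lemma flip_apply (f : ℝ ≃o ℝ) (x : ℝ) : flip f x = - f (-x) := rfl

@[simp] lemma flip_symm_apply (f : ℝ ≃o ℝ) (x : ℝ) : (flip f).symm x = - f.symm (-x) := rfl

/-- Bi-Lipschitz bounds for increasing maps. -/
def BL (l h : ℝ) (f : ℝ ≃o ℝ) : Prop :=
  ∀ x y : ℝ, x ≤ y → l * (y - x) ≤ f y - f x ∧ f y - f x ≤ h * (y - x)

lemma BL.one : BL 1 1 (1 : ℝ ≃o ℝ) := by
  intro x y _
  simp

lemma BL.mul {l h l' h' : ℝ} {f g : ℝ ≃o ℝ} (hl : 0 ≤ l) (hh : 0 ≤ h) (hf : BL l h f)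
    (hg : BL l' h' g) : BL (l * l') (h * h') (f * g) := by
  intro x y hxy
  have h1 := hg x y hxy
  have h2 := hf (g x) (g y) (g.monotone hxy)
  have e1 : (f * g) x = f (g x) := rfl
  have e2 : (f * g) y = f (g y) := rfl
  rw [e1, e2]
  constructor
  · calc l * l' * (y - x) = l * (l' * (y - x)) := by ring
      _ ≤ l * (g y - g x) := mul_le_mul_of_nonneg_left h1.1 hl
      _ ≤ _ := h2.1
  · calc f (g y) - f (g x) ≤ h * (g y - g x) := h2.2
      _ ≤ h * (h' * (y - x)) := mul_le_mul_of_nonneg_left h1.2 hh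
      _ = _ := by ring

lemma BL.pow {l h : ℝ} {f : ℝ ≃o ℝ} (hl : 0 ≤ l) (hh : 0 ≤ h) (hf : BL l h f) (n : ℕ) :
    BL (l ^ n) (h ^ n) (f ^ n) := by
  induction n with
  | zero => simpa using BL.one
  | succ n ih =>
    rw [pow_succ, pow_succ, pow_succ]
    exact BL.mul (pow_nonneg hl n) (pow_nonneg hh n) ih hf

lemma BL.flip {l h : ℝ} {f : ℝ ≃o ℝ} (hf : BL l h f) : BL l h (flip f) := by
  intro x y hxy
  have := hf (-y) (-x) (by linarith)
  simp only [flip_apply]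
  constructor <;> linarith [this.1, this.2]

/-- Data: the partition points `c 0 ≤ … ≤ c 4` and the four branches. -/
structure Datum where
  c : Fin 5 → ℝ
  f : Fin 4 → (ℝ ≃o ℝ)

namespace Datum

/-- The matching conditions: the images of the four intervals are adjacent in the order
`3, 1, 0, 2`. -/
structure Match (D : Datum) : Prop where
  m30 : D.f 3 (D.c 3) = D.c 0
  m31 : D.f 3 (D.c 4) = D.f 1 (D.c 1)
  m10 : D.f 1 (D.c 2) = D.f 0 (D.c 0)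
  m02 : D.f 0 (D.c 1) = D.f 2 (D.c 2)
  m24 : D.f 2 (D.c 3) = D.c 4

/-- Order of the partition points, possibly degenerate. -/
structure Ord (D : Datum) : Prop where
  h0 : D.c 0 ≤ D.c 1
  h1 : D.c 1 ≤ D.c 2
  h2 : D.c 2 ≤ D.c 3
  h3 : D.c 3 ≤ D.c 4
  h : D.c 0 < D.c 4

/-- Strict order of the partition points. -/
structure SOrd (D : Datum) : Prop where
  h0 : D.c 0 < D.c 1
  h1 : D.c 1 < D.c 2
  h2 : D.c 2 < D.c 3
  h3 : D.c 3 < D.c 4

/-- Length of the interval `i`. -/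
def len (D : Datum) (i : Fin 4) : ℝ := D.c i.succ - D.c i.castSucc

/-- The branches of the induced map. -/
def renF (M N : ℕ) (D : Datum) : Fin 4 → (ℝ ≃o ℝ) :=
  ![flip (D.f 2 ^ (N+1) * D.f 1 ^ M * D.f 3), flip (D.f 2 ^ (N+1) * D.f 1 ^ (M+1) * D.f 3),
    flip (D.f 2 ^ N * D.f 0 * D.f 3), flip (D.f 2 ^ (N+1) * D.f 0 * D.f 3)]

/-- Induction on the last interval followed by the reflection `x ↦ -x`. -/
def ren (M N : ℕ) (D : Datum) : Datum where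
  c := ![-D.c 4, -(D.f 3).symm ((D.f 1 ^ M).symm (D.c 2)), -(D.f 3).symm (D.c 1),
    -(D.f 3).symm ((D.f 0).symm ((D.f 2 ^ N).symm (D.c 3))), -D.c 3]
  f := renF M N D

section
variable (M N : ℕ) (D : Datum)

@[simp] lemma ren_c0 : (ren M N D).c 0 = -D.c 4 := rfl
@[simp] lemma ren_c1 : (ren M N D).c 1 = -(D.f 3).symm ((D.f 1 ^ M).symm (D.c 2)) := rfl
@[simp] lemma ren_c2 : (ren M N D).c 2 = -(D.f 3).symm (D.c 1) := rfl
@[simp] lemma ren_c3 :
    (ren M N D).c 3 = -(D.f 3).symm ((D.f 0).symm ((D.f 2 ^ N).symm (D.c 3))) := rfl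
@[simp] lemma ren_c4 : (ren M N D).c 4 = -D.c 3 := rfl
@[simp] lemma ren_f0 : (ren M N D).f 0 = flip (D.f 2 ^ (N+1) * D.f 1 ^ M * D.f 3) := rfl
@[simp] lemma ren_f1 : (ren M N D).f 1 = flip (D.f 2 ^ (N+1) * D.f 1 ^ (M+1) * D.f 3) := rfl
@[simp] lemma ren_f2 : (ren M N D).f 2 = flip (D.f 2 ^ N * D.f 0 * D.f 3) := rfl
@[simp] lemma ren_f3 : (ren M N D).f 3 = flip (D.f 2 ^ (N+1) * D.f 0 * D.f 3) := rfl

end

lemma mul_app (f g : ℝ ≃o ℝ) (x : ℝ) : (f * g) x = f (g x) := rfl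

lemma pow_succ_app (f : ℝ ≃o ℝ) (n : ℕ) (x : ℝ) : (f ^ (n+1)) x = (f ^ n) (f x) := by
  rw [pow_succ]; rfl

lemma pow_succ_app' (f : ℝ ≃o ℝ) (n : ℕ) (x : ℝ) : (f ^ (n+1)) x = f ((f ^ n) x) := by
  rw [pow_succ']; rfl

lemma pow_zero_app (f : ℝ ≃o ℝ) (x : ℝ) : (f ^ 0) x = x := by
  rw [pow_zero]; rfl

theorem ren_match (M N : ℕ) {D : Datum} (h : D.Match) : (ren M N D).Match := by
  constructor
  · simp only [ren_f3, ren_c3, ren_c0, flip_apply, neg_neg, mul_app, OrderIso.apply_symm_apply,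
      pow_succ_app', h.m24]
  · simp only [ren_f3, ren_c4, ren_f1, ren_c1, flip_apply, neg_neg, mul_app,
      OrderIso.apply_symm_apply, pow_succ_app' (D.f 1), h.m30, h.m10]
  · simp only [ren_f1, ren_c2, ren_f0, ren_c0, flip_apply, neg_neg, mul_app,
      OrderIso.apply_symm_apply, pow_succ_app (D.f 1), h.m31]
  · simp only [ren_f0, ren_c1, ren_f2, ren_c2, flip_apply, neg_neg, mul_app,
      OrderIso.apply_symm_apply, pow_succ_app (D.f 2), h.m02]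
  · simp only [ren_f2, ren_c3, ren_c4, flip_apply, neg_neg, mul_app, OrderIso.apply_symm_apply]

section iff
variable {M N : ℕ} {D : Datum}

lemma ren_le0 (h : D.Match) : (ren M N D).c 0 ≤ (ren M N D).c 1 ↔ D.c 2 ≤ (D.f 1 ^ (M+1)) (D.c 1) := by
  rw [ren_c0, ren_c1, neg_le_neg_iff, OrderIso.symm_apply_le, OrderIso.symm_apply_le, h.m31,
    pow_succ_app]

lemma ren_le1 : (ren M N D).c 1 ≤ (ren M N D).c 2 ↔ (D.f 1 ^ M) (D.c 1) ≤ D.c 2 := by
  rw [ren_c1, ren_c2, neg_le_neg_iff, OrderIso.le_iff_le, OrderIso.le_symm_apply]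

lemma ren_le2 (h : D.Match) : (ren M N D).c 2 ≤ (ren M N D).c 3 ↔ D.c 3 ≤ (D.f 2 ^ (N+1)) (D.c 2) := by
  rw [ren_c2, ren_c3, neg_le_neg_iff, OrderIso.le_iff_le, OrderIso.symm_apply_le,
    OrderIso.symm_apply_le, h.m02, pow_succ_app]

lemma ren_le3 (h : D.Match) : (ren M N D).c 3 ≤ (ren M N D).c 4 ↔ (D.f 2 ^ N) (D.f 0 (D.c 0)) ≤ D.c 3 := by
  rw [ren_c3, ren_c4, neg_le_neg_iff, OrderIso.le_symm_apply, OrderIso.le_symm_apply,
    OrderIso.le_symm_apply, h.m30]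

lemma ren_lt0 (h : D.Match) : (ren M N D).c 1 < (ren M N D).c 0 ↔ (D.f 1 ^ (M+1)) (D.c 1) < D.c 2 := by
  rw [← not_le, ren_le0 h, not_le]

lemma ren_lt1 : (ren M N D).c 2 < (ren M N D).c 1 ↔ D.c 2 < (D.f 1 ^ M) (D.c 1) := by
  rw [← not_le, ren_le1, not_le]

lemma ren_lt2 (h : D.Match) : (ren M N D).c 3 < (ren M N D).c 2 ↔ (D.f 2 ^ (N+1)) (D.c 2) < D.c 3 := by
  rw [← not_le, ren_le2 h, not_le]

lemma ren_lt3 (h : D.Match) : (ren M N D).c 4 < (ren M N D).c 3 ↔ D.c 3 < (D.f 2 ^ N) (D.f 0 (D.c 0)) := by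
  rw [← not_le, ren_le3 h, not_le]

lemma ren_lt0' (h : D.Match) : (ren M N D).c 0 < (ren M N D).c 1 ↔ D.c 2 < (D.f 1 ^ (M+1)) (D.c 1) := by
  rw [ren_c0, ren_c1, neg_lt_neg_iff, OrderIso.symm_apply_lt, OrderIso.symm_apply_lt, h.m31,
    pow_succ_app]

lemma ren_lt1' : (ren M N D).c 1 < (ren M N D).c 2 ↔ (D.f 1 ^ M) (D.c 1) < D.c 2 := by
  rw [ren_c1, ren_c2, neg_lt_neg_iff, OrderIso.lt_iff_lt, OrderIso.lt_symm_apply]

lemma ren_lt2' (h : D.Match) : (ren M N D).c 2 < (ren M N D).c 3 ↔ D.c 3 < (D.f 2 ^ (N+1)) (D.c 2) := by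
  rw [ren_c2, ren_c3, neg_lt_neg_iff, OrderIso.lt_iff_lt, OrderIso.symm_apply_lt,
    OrderIso.symm_apply_lt, h.m02, pow_succ_app]

lemma ren_lt3' (h : D.Match) : (ren M N D).c 3 < (ren M N D).c 4 ↔ (D.f 2 ^ N) (D.f 0 (D.c 0)) < D.c 3 := by
  rw [ren_c3, ren_c4, neg_lt_neg_iff, OrderIso.lt_symm_apply, OrderIso.lt_symm_apply,
    OrderIso.lt_symm_apply, h.m30]

end iff

end Datum

end Pool.Agent.H814R3
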