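import Mathlib
import Pool.Agent.H814R3.Datum

set_option autoImplicit false
set_option linter.unusedSectionVars false

/-!
Sign lemmas for the induction of data whose first two branches expand and whose last two branches
contract.
-/

namespace Pool.Agent.H814R3

/-- Lower and upper slope bounds. -/
structure Bd where
  lo : Fin 4 → ℝ
  hi : Fin 4 → ℝ

/-- The first two branches expand, the last two contract. -/
structure Bd.OK (B : Bd) : Prop where
  pos : ∀ i, 0 < B.lo i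
  le : ∀ i, B.lo i ≤ B.hi i
  e0 : 2 ≤ B.lo 0
  e1 : 2 ≤ B.lo 1
  k2 : B.hi 2 ≤ 1 / 2
  k3 : B.hi 3 ≤ 1 / 2

/-- Bounds for the induced branches. -/
def renB (M N : ℕ) (B : Bd) : Bd where
  lo := ![B.lo 2 ^ (N+1) * B.lo 1 ^ M * B.lo 3, B.lo 2 ^ (N+1) * B.lo 1 ^ (M+1) * B.lo 3,
    B.lo 2 ^ N * B.lo 0 * B.lo 3, B.lo 2 ^ (N+1) * B.lo 0 * B.lo 3]
  hi := ![B.hi 2 ^ (N+1) * B.hi 1 ^ M * B.hi 3, B.hi 2 ^ (N+1) * B.hi 1 ^ (M+1) * B.hi 3,
    B.hi 2 ^ N * B.hi 0 * B.hi 3, B.hi 2 ^ (N+1) * B.hi 0 * B.hi 3]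

namespace Datum

/-- The branches of `D` satisfy the bounds `B`. -/
def HasBd (D : Datum) (B : Bd) : Prop := ∀ i, BL (B.lo i) (B.hi i) (D.f i)

theorem ren_hasBd {M N : ℕ} {D : Datum} {B : Bd} (hB : B.OK) (h : D.HasBd B) :
    (ren M N D).HasBd (renB M N B) := by
  have hl : ∀ i, 0 ≤ B.lo i := fun i => (hB.pos i).le
  have hh : ∀ i, 0 ≤ B.hi i := fun i => (hB.pos i).le.trans (hB.le i)
  intro i
  fin_cases i
  · refine BL.flip (BL.mul ?_ ?_ (BL.mul ?_ ?_ (BL.pow (hl 2) (hh 2) (h 2) _)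
      (BL.pow (hl 1) (hh 1) (h 1) _)) (h 3))
    · exact mul_nonneg (pow_nonneg (hl 2) _) (pow_nonneg (hl 1) _)
    · exact mul_nonneg (pow_nonneg (hh 2) _) (pow_nonneg (hh 1) _)
    · exact pow_nonneg (hl 2) _
    · exact pow_nonneg (hh 2) _
  · refine BL.flip (BL.mul ?_ ?_ (BL.mul ?_ ?_ (BL.pow (hl 2) (hh 2) (h 2) _)
      (BL.pow (hl 1) (hh 1) (h 1) _)) (h 3))
    · exact mul_nonneg (pow_nonneg (hl 2) _) (pow_nonneg (hl 1) _)
    · exact mul_nonneg (pow_nonneg (hh 2) _) (pow_nonneg (hh 1) _)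
    · exact pow_nonneg (hl 2) _
    · exact pow_nonneg (hh 2) _
  · refine BL.flip (BL.mul ?_ ?_ (BL.mul ?_ ?_ (BL.pow (hl 2) (hh 2) (h 2) _) (h 0)) (h 3))
    · exact mul_nonneg (pow_nonneg (hl 2) _) (hl 0)
    · exact mul_nonneg (pow_nonneg (hh 2) _) (hh 0)
    · exact pow_nonneg (hl 2) _
    · exact pow_nonneg (hh 2) _
  · refine BL.flip (BL.mul ?_ ?_ (BL.mul ?_ ?_ (BL.pow (hl 2) (hh 2) (h 2) _) (h 0)) (h 3))
    · exact mul_nonneg (pow_nonneg (hl 2) _) (hl 0)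
    · exact mul_nonneg (pow_nonneg (hh 2) _) (hh 0)
    · exact pow_nonneg (hl 2) _
    · exact pow_nonneg (hh 2) _

section basic
variable {D : Datum} {B : Bd} (hB : B.OK) (hD : D.HasBd B) (hm : D.Match) (ho : D.Ord)
include hm ho

omit ho in
lemma bsum : (D.f 3 (D.c 4) - D.f 3 (D.c 3)) + (D.f 1 (D.c 2) - D.f 1 (D.c 1)) +
    (D.f 0 (D.c 1) - D.f 0 (D.c 0)) + (D.f 2 (D.c 3) - D.f 2 (D.c 2)) = D.c 4 - D.c 0 := by
  have := hm.m30
  have := hm.m31
  have := hm.m10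
  have := hm.m02
  have := hm.m24
  linarith

include hB hD

lemma sum01 : 2 * (D.c 2 - D.c 0) ≤ D.c 4 - D.c 0 := by
  have h := bsum hm
  have h0 := (hD 0 _ _ ho.h0).1
  have h1 := (hD 1 _ _ ho.h1).1
  have h2 : D.f 2 (D.c 2) ≤ D.f 2 (D.c 3) := (D.f 2).monotone ho.h2
  have h3 : D.f 3 (D.c 3) ≤ D.f 3 (D.c 4) := (D.f 3).monotone ho.h3
  have e0 : 2 * (D.c 1 - D.c 0) ≤ B.lo 0 * (D.c 1 - D.c 0) :=
    mul_le_mul_of_nonneg_right hB.e0 (by linarith [ho.h0])
  have e1 : 2 * (D.c 2 - D.c 1) ≤ B.lo 1 * (D.c 2 - D.c 1) :=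
    mul_le_mul_of_nonneg_right hB.e1 (by linarith [ho.h1])
  linarith

lemma sum23 : D.c 4 - D.c 0 ≤ 2 * (D.c 4 - D.c 2) := by
  have := sum01 hB hD hm ho
  linarith

lemma b01 : D.c 4 - D.c 0 ≤ 2 * ((D.f 1 (D.c 2) - D.f 1 (D.c 1)) + (D.f 0 (D.c 1) - D.f 0 (D.c 0))) := by
  have h := bsum hm
  have h2 := (hD 2 _ _ ho.h2).2
  have h3 := (hD 3 _ _ ho.h3).2
  have e2 : B.hi 2 * (D.c 3 - D.c 2) ≤ 1 / 2 * (D.c 3 - D.c 2) :=
    mul_le_mul_of_nonneg_right hB.k2 (by linarith [ho.h2])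
  have e3 : B.hi 3 * (D.c 4 - D.c 3) ≤ 1 / 2 * (D.c 4 - D.c 3) :=
    mul_le_mul_of_nonneg_right hB.k3 (by linarith [ho.h3])
  have := ho.h0
  have := ho.h1
  linarith

omit hB hD in
lemma v_order : D.c 0 ≤ D.f 1 (D.c 1) ∧ D.f 1 (D.c 1) ≤ D.f 0 (D.c 0) ∧
    D.f 0 (D.c 0) ≤ D.f 2 (D.c 2) ∧ D.f 2 (D.c 2) ≤ D.c 4 := by
  refine ⟨?_, ?_, ?_, ?_⟩
  · rw [← hm.m30, ← hm.m31]; exact (D.f 3).monotone ho.h3
  · rw [← hm.m10]; exact (D.f 1).monotone ho.h1
  · rw [← hm.m02]; exact (D.f 0).monotone ho.h0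
  · rw [← hm.m24]; exact (D.f 2).monotone ho.h2

/-- Contraction to the right: if `N+1` steps from `y` do not reach `c 3`, then the last interval is
short. -/
lemma contr (N : ℕ) (y : ℝ) (h : (D.f 2 ^ (N+1)) y ≤ D.c 3) :
    (D.c 4 - D.c 3) + (D.c 3 - (D.f 2 ^ (N+1)) y) ≤ B.hi 2 ^ (N+1) * (D.c 3 - y) := by
  induction N with
  | zero =>
    simp only [zero_add, pow_one] at h ⊢
    have hz : y ≤ D.c 3 := by
      rw [← (D.f 2).le_iff_le, hm.m24]
      exact h.trans ho.h3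
    have := (hD 2 _ _ hz).2
    rw [hm.m24] at this
    linarith
  | succ N ih =>
    rw [pow_succ_app'] at h ⊢
    set z := (D.f 2 ^ (N+1)) y with hz
    have hz3 : z ≤ D.c 3 := by
      rw [← (D.f 2).le_iff_le, hm.m24]
      exact h.trans ho.h3
    have h1 := (hD 2 _ _ hz3).2
    rw [hm.m24] at h1
    have h2 := ih hz3
    have h3 := ho.h3
    have h4 : 0 ≤ B.hi 2 := (hB.pos 2).le.trans (hB.le 2)
    have h5 : B.hi 2 * (D.c 3 - z) ≤ B.hi 2 * (B.hi 2 ^ (N+1) * (D.c 3 - y)) :=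
      mul_le_mul_of_nonneg_left (by linarith) h4
    have h6 : B.hi 2 ^ (N+1+1) * (D.c 3 - y) = B.hi 2 * (B.hi 2 ^ (N+1) * (D.c 3 - y)) := by ring
    linarith

/-- If the last interval is very short, `n` steps from `c 2` do not reach `c 3`. -/
lemma noreach (n : ℕ) (h : 2 * (D.c 4 - D.c 3) < B.lo 2 ^ n * (D.c 3 - D.c 2)) :
    (D.f 2 ^ n) (D.c 2) < D.c 3 := by
  have hlo : B.lo 2 ≤ 1 / 2 := (hB.le 2).trans hB.k2
  have hlo0 := hB.pos 2
  have h2 : 0 ≤ D.c 3 - D.c 2 := by linarith [ho.h2]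
  have h3 : 0 ≤ D.c 4 - D.c 3 := by linarith [ho.h3]
  have key : ∀ j : ℕ, j ≤ n →
      B.lo 2 ^ j * (D.c 3 - D.c 2) - 2 * (D.c 4 - D.c 3) ≤ D.c 3 - (D.f 2 ^ j) (D.c 2) := by
    intro j
    induction j with
    | zero =>
      intro _
      rw [pow_zero, pow_zero_app]
      linarith
    | succ j ih =>
      intro hj
      have ih' := ih (by omega)
      have hpow : B.lo 2 ^ n ≤ B.lo 2 ^ j := pow_le_pow_of_le_one hlo0.le (by linarith) (by omega)
      have h5 : B.lo 2 ^ n * (D.c 3 - D.c 2) ≤ B.lo 2 ^ j * (D.c 3 - D.c 2) :=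
        mul_le_mul_of_nonneg_right hpow h2
      set z := (D.f 2 ^ j) (D.c 2) with hz
      have hz3 : z ≤ D.c 3 := by linarith
      have h6 := (hD 2 _ _ hz3).1
      rw [hm.m24] at h6
      rw [pow_succ_app', ← hz]
      have h7 : B.lo 2 * (B.lo 2 ^ j * (D.c 3 - D.c 2) - 2 * (D.c 4 - D.c 3)) ≤ B.lo 2 * (D.c 3 - z) :=
        mul_le_mul_of_nonneg_left ih' hlo0.le
      have h8 : B.lo 2 ^ (j+1) * (D.c 3 - D.c 2) = B.lo 2 * (B.lo 2 ^ j * (D.c 3 - D.c 2)) := by ring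
      nlinarith
  have := key n le_rfl
  linarith

end basic

end Datum

/-- The conditions on the parameters of one induction step. -/
structure Par (B : Bd) (κ : ℝ) (M N : ℕ) : Prop where
  hκ : B.hi 0 < κ
  hN : 2 ≤ N
  hN1 : B.hi 2 ^ N * (2 * (1 + κ)) ≤ 1
  hM : 2 ≤ M
  hM1 : (κ + 1) * 4 ≤ B.lo 3 * B.lo 1 ^ M
  hM2 : 8 < B.lo 2 ^ (N+1) * (B.lo 3 * B.lo 1 ^ M)
  ok : (renB M N B).OK

namespace Datum

section side
variable {D : Datum} {B : Bd} {κ : ℝ} {M N : ℕ} (hB : B.OK) (hP : Par B κ M N)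
  (hD : D.HasBd B) (hm : D.Match) (ho : D.Ord)
include hB hP hD hm ho

omit hP in
lemma kpos (hP : Par B κ M N) : 2 < κ := by
  have := hP.hκ
  have := hB.e0
  have := hB.le 0
  linarith

/-- `c 3 = c 4`. -/
lemma side3 (h : D.c 3 = D.c 4) : (ren M N D).c 3 < (ren M N D).c 2 ∧
    (ren M N D).c 3 < (ren M N D).c 4 := by
  have h1 : D.c 2 < D.c 3 := by
    have := sum23 hB hD hm ho
    have := ho.h
    linarith
  have hfix : D.f 2 (D.c 3) = D.c 3 := by rw [hm.m24, h]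
  have hfixn : ∀ n : ℕ, (D.f 2 ^ n) (D.c 3) = D.c 3 := by
    intro n
    induction n with
    | zero => rw [pow_zero_app]
    | succ n ih => rw [pow_succ_app', ih, hfix]
  constructor
  · rw [ren_lt2 hm]
    calc (D.f 2 ^ (N+1)) (D.c 2) < (D.f 2 ^ (N+1)) (D.c 3) := (D.f 2 ^ (N+1)).strictMono h1
      _ = D.c 3 := hfixn _
  · rw [ren_lt3' hm]
    have hv : D.f 0 (D.c 0) < D.c 3 := by
      calc D.f 0 (D.c 0) ≤ D.f 2 (D.c 2) := (v_order hm ho).2.2.1
        _ < D.f 2 (D.c 3) := (D.f 2).strictMono h1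
        _ = D.c 3 := hfix
    calc (D.f 2 ^ N) (D.f 0 (D.c 0)) < (D.f 2 ^ N) (D.c 3) := (D.f 2 ^ N).strictMono hv
      _ = D.c 3 := hfixn _

/-- `c 2 = c 3`. -/
lemma side2 (h : D.c 2 = D.c 3) : (ren M N D).c 4 < (ren M N D).c 3 ∧
    (ren M N D).c 2 < (ren M N D).c 3 := by
  have h4 : D.c 4 - D.c 0 ≤ 2 * (D.c 4 - D.c 3) := by
    have := sum23 hB hD hm ho
    rw [h] at this
    exact this
  have hpos := ho.h
  have h34 : D.c 3 < D.c 4 := by linarith
  have hq : B.hi 2 ^ N < 1 / 2 := by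
    have h1 := hP.hN1
    have h2 := kpos hB hD hm ho hP
    have h3 : 0 ≤ B.hi 2 ^ N := pow_nonneg ((hB.pos 2).le.trans (hB.le 2)) _
    nlinarith
  have hN := hP.hN
  obtain ⟨N', rfl⟩ : ∃ N', N = N' + 1 := ⟨N - 1, by omega⟩
  constructor
  · rw [ren_lt3 hm]
    by_contra hcon
    rw [not_lt] at hcon
    have h5 := contr hB hD hm ho N' _ hcon
    have h6 := (v_order hm ho).1.trans (v_order hm ho).2.1
    have h7 : D.c 3 - D.f 0 (D.c 0) ≤ D.c 4 - D.c 0 := by linarith [ho.h3]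
    have h8 : B.hi 2 ^ (N'+1) * (D.c 3 - D.f 0 (D.c 0)) ≤ B.hi 2 ^ (N'+1) * (D.c 4 - D.c 0) :=
      mul_le_mul_of_nonneg_left h7 (pow_nonneg ((hB.pos 2).le.trans (hB.le 2)) _)
    have h9 : B.hi 2 ^ (N'+1) * (D.c 4 - D.c 0) < 1 / 2 * (D.c 4 - D.c 0) :=
      mul_lt_mul_of_pos_right hq (by linarith)
    linarith
  · rw [ren_lt2' hm]
    have hst : ∀ n : ℕ, D.c 4 ≤ (D.f 2 ^ (n+1)) (D.c 3) := by
      intro n
      induction n with
      | zero => simp only [zero_add, pow_one, hm.m24, le_refl]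
      | succ n ih =>
        rw [pow_succ_app']
        have : D.f 2 (D.c 3) ≤ D.f 2 ((D.f 2 ^ (n+1)) (D.c 3)) :=
          (D.f 2).monotone (by linarith)
        rw [hm.m24] at this
        exact this
    rw [h]
    exact lt_of_lt_of_le h34 (hst _)

/-- `c 0 = c 1`. -/
lemma side0 (h : D.c 0 = D.c 1) : (ren M N D).c 2 = (ren M N D).c 4 ∧
    ((ren M N D).c 1 - (ren M N D).c 0 ≤ (ren M N D).c 2 - (ren M N D).c 1 →
      (ren M N D).c 3 < (ren M N D).c 4 ∧ κ * (D.c 4 - D.c 3) < D.c 3 - D.c 2) := by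
  have e24 : (ren M N D).c 2 = (ren M N D).c 4 := by
    rw [ren_c2, ren_c4, ← h, neg_inj, OrderIso.symm_apply_eq, hm.m30]
  refine ⟨e24, fun hle => ?_⟩
  have h04 : (ren M N D).c 4 - (ren M N D).c 0 = D.c 4 - D.c 3 := by
    rw [ren_c4, ren_c0]; ring
  have hl1 : (ren M N D).c 1 ≤ (ren M N D).c 2 := by
    have := ho.h3
    linarith
  rw [ren_le1] at hl1
  have hv1 : D.c 1 ≤ D.f 1 (D.c 1) := by have := (v_order hm ho).1; linarith
  have hst : ∀ n : ℕ, D.c 1 ≤ (D.f 1 ^ n) (D.c 1) := by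
    intro n
    induction n with
    | zero => rw [pow_zero_app]
    | succ n ih =>
      rw [pow_succ_app']
      exact hv1.trans ((D.f 1).monotone ih)
  have hb1 := (BL.pow (hB.pos 1).le ((hB.pos 1).le.trans (hB.le 1)) (hD 1) M _ _ hv1).1
  have h5 : (D.f 1 ^ M) (D.f 1 (D.c 1)) ≤ D.c 4 := by
    rw [← pow_succ_app, pow_succ_app']
    calc D.f 1 ((D.f 1 ^ M) (D.c 1)) ≤ D.f 1 (D.c 2) := (D.f 1).monotone hl1
      _ = D.f 0 (D.c 0) := hm.m10
      _ ≤ D.c 4 := (v_order hm ho).2.2.1.trans (v_order hm ho).2.2.2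
  have h6 := hst M
  have h7 := (hD 3 _ _ ho.h3).1
  rw [hm.m31, hm.m30] at h7
  have hloM : 0 < B.lo 1 ^ M := pow_pos (hB.pos 1) _
  have h8 : B.lo 1 ^ M * (B.lo 3 * (D.c 4 - D.c 3)) ≤ B.lo 1 ^ M * (D.f 1 (D.c 1) - D.c 1) := by
    apply mul_le_mul_of_nonneg_left _ hloM.le
    linarith
  have h9 : (B.lo 3 * B.lo 1 ^ M) * (D.c 4 - D.c 3) ≤ D.c 4 - D.c 0 := by
    have h8' : (B.lo 3 * B.lo 1 ^ M) * (D.c 4 - D.c 3) =
      B.lo 1 ^ M * (B.lo 3 * (D.c 4 - D.c 3)) := by ring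
    linarith
  have h34 : 0 ≤ D.c 4 - D.c 3 := by linarith [ho.h3]
  have hpos : 0 < D.c 4 - D.c 0 := by linarith [ho.h]
  have hκ2 := kpos hB hD hm ho hP
  have h10 : (κ + 1) * 4 * (D.c 4 - D.c 3) ≤ D.c 4 - D.c 0 :=
    (mul_le_mul_of_nonneg_right hP.hM1 h34).trans h9
  have h11 := sum23 hB hD hm ho
  refine ⟨?_, ?_⟩
  · rw [ren_lt3' hm]
    have hv : D.f 0 (D.c 0) = D.f 2 (D.c 2) := by rw [h, hm.m02]
    rw [hv, ← pow_succ_app]
    apply noreach hB hD hm ho
    have h12 : 0 < B.lo 2 ^ (N+1) := pow_pos (hB.pos 2) _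
    have h13 : B.lo 2 ^ (N+1) * ((B.lo 3 * B.lo 1 ^ M) * (D.c 4 - D.c 3)) ≤
        B.lo 2 ^ (N+1) * (D.c 4 - D.c 0) := mul_le_mul_of_nonneg_left h9 h12.le
    have h14 : 8 * (D.c 4 - D.c 3) ≤ B.lo 2 ^ (N+1) * ((B.lo 3 * B.lo 1 ^ M) * (D.c 4 - D.c 3)) := by
      have := mul_le_mul_of_nonneg_right hP.hM2.le h34
      linarith
    have h15 : (D.c 4 - D.c 0) / 4 ≤ D.c 3 - D.c 2 := by nlinarith
    have h16 : B.lo 2 ^ (N+1) * ((D.c 4 - D.c 0) / 4) ≤ B.lo 2 ^ (N+1) * (D.c 3 - D.c 2) :=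
      mul_le_mul_of_nonneg_left h15 h12.le
    rcases eq_or_lt_of_le h34 with h0 | h0
    · rw [← h0, mul_zero]
      have : 0 < D.c 3 - D.c 2 := by linarith
      positivity
    · have h14' : 8 * (D.c 4 - D.c 3) < B.lo 2 ^ (N+1) * ((B.lo 3 * B.lo 1 ^ M) * (D.c 4 - D.c 3)) := by
        have := mul_lt_mul_of_pos_right hP.hM2 h0
        linarith
      linarith
  · nlinarith

/-- `c 1 = c 2`. -/
lemma side1 (h : D.c 1 = D.c 2) :
    (κ * (D.c 4 - D.c 3) ≤ D.c 3 - D.c 2 →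
      (ren M N D).c 1 < (ren M N D).c 0 ∧ (ren M N D).c 1 < (ren M N D).c 2) ∧
    (D.c 3 - D.c 2 < κ * (D.c 4 - D.c 3) →
      (ren M N D).c 4 < (ren M N D).c 3 ∧ (ren M N D).c 2 < (ren M N D).c 3) := by
  have hκ2 := kpos hB hD hm ho hP
  have hκ := hP.hκ
  have hpos : 0 < D.c 4 - D.c 0 := by linarith [ho.h]
  constructor
  · intro hle
    have h1 := b01 hB hD hm ho
    rw [h, sub_self, zero_add] at h1
    have h2 := (hD 0 _ _ ho.h0).2
    rw [h] at h2
    have h3 := (hD 3 _ _ ho.h3).2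
    have h3' : B.hi 3 * (D.c 4 - D.c 3) ≤ 1 / 2 * (D.c 4 - D.c 3) :=
      mul_le_mul_of_nonneg_right hB.k3 (by linarith [ho.h3])
    have h4 : κ * (D.c 4 - D.c 3) ≤ D.c 4 - D.c 0 := by
      have := ho.h3
      have := ho.h1
      have := ho.h0
      linarith
    have hv1 : D.f 1 (D.c 1) < D.c 1 := by
      rw [← hm.m31]
      rw [hm.m30] at h3
      have h34 : 0 ≤ D.c 4 - D.c 3 := by linarith [ho.h3]
      -- `κ (f3 c4 - c0) ≤ κ/2 ℓ3 ≤ |I|/2 ≤ hi0 ℓ0`
      have h5 : κ * (D.f 3 (D.c 4) - D.c 0) ≤ κ * (1 / 2 * (D.c 4 - D.c 3)) :=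
        mul_le_mul_of_nonneg_left (by linarith) (by linarith)
      have h6 : κ * (D.f 3 (D.c 4) - D.c 0) ≤ B.hi 0 * (D.c 2 - D.c 0) := by linarith
      have h7 : 0 < D.c 2 - D.c 0 := by
        by_contra hcon
        have h01 := ho.h0
        have h8 : D.c 2 - D.c 0 = 0 := by linarith
        rw [h8, mul_zero] at h2
        linarith
      have h8 : B.hi 0 * (D.c 2 - D.c 0) < κ * (D.c 2 - D.c 0) := mul_lt_mul_of_pos_right hκ h7
      have h9 : D.f 3 (D.c 4) - D.c 0 < D.c 2 - D.c 0 :=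
        lt_of_mul_lt_mul_left (h6.trans_lt h8) (by linarith)
      rw [h]
      linarith
    have hst : ∀ n : ℕ, (D.f 1 ^ (n+1)) (D.c 1) < D.c 1 := by
      intro n
      induction n with
      | zero => simpa using hv1
      | succ n ih =>
        rw [pow_succ_app']
        exact ((D.f 1).strictMono ih).trans hv1
    have hM := hP.hM
    obtain ⟨M', rfl⟩ : ∃ M', M = M' + 1 := ⟨M - 1, by omega⟩
    constructor
    · rw [ren_lt0 hm, ← h]
      exact hst _
    · rw [ren_lt1', ← h]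
      exact hst _
  · intro hlt
    have h1 := sum23 hB hD hm ho
    have h2 : D.c 4 - D.c 0 < 2 * (1 + κ) * (D.c 4 - D.c 3) := by linarith
    have hN := hP.hN
    have hhi : 0 ≤ B.hi 2 := (hB.pos 2).le.trans (hB.le 2)
    have h34 : 0 < D.c 4 - D.c 3 := by
      by_contra hcon
      nlinarith
    have key : ∀ y, D.c 0 ≤ y → D.c 3 < (D.f 2 ^ N) y := by
      intro y hy
      by_contra hcon
      rw [not_lt] at hcon
      obtain ⟨N', rfl⟩ : ∃ N', N = N' + 1 := ⟨N - 1, by omega⟩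
      have h5 := contr hB hD hm ho N' _ hcon
      have h8 : B.hi 2 ^ (N'+1) * (D.c 3 - y) ≤ B.hi 2 ^ (N'+1) * (D.c 4 - D.c 0) :=
        mul_le_mul_of_nonneg_left (by linarith [ho.h3]) (pow_nonneg hhi _)
      have h9 : B.hi 2 ^ (N'+1) * (D.c 4 - D.c 0) ≤
          B.hi 2 ^ (N'+1) * (2 * (1 + κ) * (D.c 4 - D.c 3)) :=
        mul_le_mul_of_nonneg_left h2.le (pow_nonneg hhi _)
      have hpw : 0 < B.hi 2 ^ (N'+1) := pow_pos ((hB.pos 2).trans_le (hB.le 2)) _
      have h9' : B.hi 2 ^ (N'+1) * (D.c 4 - D.c 0) <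
          B.hi 2 ^ (N'+1) * (2 * (1 + κ) * (D.c 4 - D.c 3)) :=
        mul_lt_mul_of_pos_left h2 hpw
      have h10 := mul_le_mul_of_nonneg_right hP.hN1 h34.le
      have h11 : B.hi 2 ^ (N'+1) * (2 * (1 + κ) * (D.c 4 - D.c 3)) =
        B.hi 2 ^ (N'+1) * (2 * (1 + κ)) * (D.c 4 - D.c 3) := by ring
      linarith
    constructor
    · rw [ren_lt3 hm]
      exact key _ ((v_order hm ho).1.trans (v_order hm ho).2.1)
    · rw [ren_lt2' hm, pow_succ_app]
      exact key _ ((v_order hm ho).1.trans ((v_order hm ho).2.1.trans (v_order hm ho).2.2.1))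

/-- No two simultaneous reversals. -/
lemma no01 : ¬ ((ren M N D).c 1 < (ren M N D).c 0 ∧ (ren M N D).c 2 < (ren M N D).c 1) := by
  rintro ⟨h0, h1⟩
  rw [ren_lt0 hm] at h0
  rw [ren_lt1] at h1
  have h2 : (D.f 1 ^ (M+1)) (D.c 1) < (D.f 1 ^ M) (D.c 1) := h0.trans h1
  rw [pow_succ_app, OrderIso.lt_iff_lt] at h2
  have hst : ∀ n : ℕ, (D.f 1 ^ n) (D.c 1) ≤ D.c 1 := by
    intro n
    induction n with
    | zero => rw [pow_zero_app]
    | succ n ih =>
      rw [pow_succ_app']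
      exact ((D.f 1).monotone ih).trans h2.le
  have := hst M
  have := ho.h1
  linarith

lemma no23 : ¬ ((ren M N D).c 3 < (ren M N D).c 2 ∧ (ren M N D).c 4 < (ren M N D).c 3) := by
  rintro ⟨h0, h1⟩
  rw [ren_lt2 hm] at h0
  rw [ren_lt3 hm] at h1
  have h2 : (D.f 2 ^ (N+1)) (D.c 2) < (D.f 2 ^ N) (D.f 0 (D.c 0)) := h0.trans h1
  rw [pow_succ_app, OrderIso.lt_iff_lt] at h2
  have := (v_order hm ho).2.2.1
  linarith

/-- If the induced datum is weakly ordered, it is nondegenerate. -/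
lemma ord_ren (h : ∀ i, 0 ≤ (ren M N D).len i) : (ren M N D).Ord := by
  have h0 : (ren M N D).c 0 ≤ (ren M N D).c 1 := by have := h 0; unfold len at this; simpa using this
  have h1 : (ren M N D).c 1 ≤ (ren M N D).c 2 := by have := h 1; unfold len at this; simpa using this
  have h2 : (ren M N D).c 2 ≤ (ren M N D).c 3 := by have := h 2; unfold len at this; simpa using this
  have h3 : (ren M N D).c 3 ≤ (ren M N D).c 4 := by have := h 3; unfold len at this; simpa using this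
  refine ⟨h0, h1, h2, h3, ?_⟩
  rw [ren_c0, ren_c4, neg_lt_neg_iff]
  rcases eq_or_lt_of_le ho.h3 with h4 | h4
  · exact absurd (side3 hB hP hD hm ho h4).1 (not_lt.mpr h2)
  · exact h4

/-- If the induced datum is weakly ordered, the original datum is strictly ordered. -/
lemma sord_of_ren (h : (ren M N D).Ord) : D.SOrd := by
  refine ⟨lt_of_le_of_ne ho.h0 ?_, lt_of_le_of_ne ho.h1 ?_, lt_of_le_of_ne ho.h2 ?_,
    lt_of_le_of_ne ho.h3 ?_⟩
  · intro h4
    have h5 := (side0 hB hP hD hm ho h4).1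
    have h6 := sum23 hP.ok (ren_hasBd hB hD) (ren_match M N hm) h
    have := h.h
    linarith
  · intro h4
    rcases le_or_gt (κ * (D.c 4 - D.c 3)) (D.c 3 - D.c 2) with h5 | h5
    · exact absurd ((side1 hB hP hD hm ho h4).1 h5).1 (not_lt.mpr h.h0)
    · exact absurd ((side1 hB hP hD hm ho h4).2 h5).1 (not_lt.mpr h.h3)
  · intro h4
    exact absurd (side2 hB hP hD hm ho h4).1 (not_lt.mpr h.h3)
  · intro h4
    exact absurd (side3 hB hP hD hm ho h4).1 (not_lt.mpr h.h2)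

end side

lemma len0 (D : Datum) : D.len 0 = D.c 1 - D.c 0 := rfl
lemma len1 (D : Datum) : D.len 1 = D.c 2 - D.c 1 := rfl
lemma len2 (D : Datum) : D.len 2 = D.c 3 - D.c 2 := rfl
lemma len3 (D : Datum) : D.len 3 = D.c 4 - D.c 3 := rfl

/-- The planar coordinates of a datum. -/
noncomputable def V (κ : ℝ) (D : Datum) : ℂ := ⟨κ * D.len 3 - D.len 2, D.len 0 - D.len 1⟩

section V
variable {D : Datum} {B : Bd} {κ κ' : ℝ} {M N : ℕ} (hB : B.OK) (hD : D.HasBd B) (hm : D.Match)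
  (ho : D.Ord) (hκ0 : 0 < κ)
include hB hD hm ho hκ0

/-- The coordinates do not vanish on degenerate data. -/
lemma V_ne (h : ∃ i, D.len i = 0) : V κ D ≠ 0 := by
  intro hV
  have hre : κ * D.len 3 - D.len 2 = 0 := congrArg Complex.re hV
  have him : D.len 0 - D.len 1 = 0 := congrArg Complex.im hV
  rw [len3, len2] at hre
  rw [len0, len1] at him
  have h23 := sum23 hB hD hm ho
  have h01 := b01 hB hD hm ho
  have hpos := ho.h
  have hc23 : D.c 2 = D.c 3 → D.c 3 = D.c 4 → False := by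
    intro h2 h3
    linarith
  have hc01 : D.c 0 = D.c 1 → D.c 1 = D.c 2 → False := by
    intro h0 h1
    rw [h1, ← h1, ← h0] at h01
    rw [h0, h1] at h01
    simp only [sub_self, add_zero, mul_zero] at h01
    linarith
  obtain ⟨i, hi⟩ := h
  fin_cases i
  · simp only [Fin.zero_eta, len0] at hi
    exact hc01 (by linarith) (by linarith)
  · simp only [Fin.mk_one, len1] at hi
    exact hc01 (by linarith) (by linarith)
  · simp only [Fin.reduceFinMk, len2] at hi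
    refine hc23 (by linarith) ?_
    have : κ * (D.c 4 - D.c 3) = 0 := by linarith
    rcases mul_eq_zero.mp this with h | h
    · linarith
    · linarith
  · simp only [Fin.reduceFinMk, len3] at hi
    refine hc23 ?_ (by linarith)
    rw [hi, mul_zero] at hre
    linarith

omit hκ0 in
/-- The coordinates of the induced datum do not vanish when some length is not positive. -/
lemma V_ren_ne (hP : Par B κ M N) (hκ' : 0 < κ') (h : ∃ i, (ren M N D).len i ≤ 0) :
    V κ' (ren M N D) ≠ 0 := by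
  by_cases hall : ∀ i, 0 ≤ (ren M N D).len i
  · obtain ⟨i, hi⟩ := h
    exact V_ne hP.ok (ren_hasBd hB hD) (ren_match M N hm) (ord_ren hB hP hD hm ho hall) hκ'
      ⟨i, le_antisymm hi (hall i)⟩
  · intro hV
    have hre : κ' * (ren M N D).len 3 - (ren M N D).len 2 = 0 := congrArg Complex.re hV
    have him : (ren M N D).len 0 - (ren M N D).len 1 = 0 := congrArg Complex.im hV
    push Not at hall
    obtain ⟨i, hi⟩ := hall
    have n01 := no01 hB hP hD hm ho
    have n23 := no23 hB hP hD hm ho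
    have r01 : (ren M N D).len 0 < 0 → False := by
      intro h1
      have h2 : (ren M N D).len 1 < 0 := by linarith
      rw [len0] at h1
      rw [len1] at h2
      exact n01 ⟨by linarith, by linarith⟩
    have r23 : (ren M N D).len 3 < 0 → False := by
      intro h1
      have h2 : (ren M N D).len 2 < 0 := by nlinarith
      rw [len3] at h1
      rw [len2] at h2
      exact n23 ⟨by linarith, by linarith⟩
    fin_cases i
    · exact r01 hi
    · have hi' : (ren M N D).len 1 < 0 := hi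
      exact r01 (by linarith)
    · have hi' : (ren M N D).len 2 < 0 := hi
      apply r23
      by_contra hcon
      nlinarith
    · exact r23 hi

omit hκ0 in
/-- On degenerate data: the induced datum is not strictly ordered, and its coordinates are not a
nonnegative multiple of the original ones. -/
lemma V_ren_angle (hP : Par B κ M N) (hκ' : 0 < κ') (h : ∃ i, D.len i = 0) :
    (∃ i, (ren M N D).len i ≤ 0) ∧ ∀ s : ℝ, 0 ≤ s → V κ' (ren M N D) ≠ s * V κ D := by
  have hκ2 := kpos hB hD hm ho hP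
  have hnn : ∀ i, 0 ≤ D.len i := by
    intro i
    fin_cases i
    · show 0 ≤ D.len 0
      rw [len0]; linarith [ho.h0]
    · show 0 ≤ D.len 1
      rw [len1]; linarith [ho.h1]
    · show 0 ≤ D.len 2
      rw [len2]; linarith [ho.h2]
    · show 0 ≤ D.len 3
      rw [len3]; linarith [ho.h3]
  have hre : ∀ s : ℝ, V κ' (ren M N D) = s * V κ D →
      κ' * (ren M N D).len 3 - (ren M N D).len 2 = s * (κ * D.len 3 - D.len 2) := by
    intro s hs
    have := congrArg Complex.re hs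
    simpa [V] using this
  have him : ∀ s : ℝ, V κ' (ren M N D) = s * V κ D →
      (ren M N D).len 0 - (ren M N D).len 1 = s * (D.len 0 - D.len 1) := by
    intro s hs
    have := congrArg Complex.im hs
    simpa [V] using this
  obtain ⟨i, hi⟩ := h
  fin_cases i
  · -- c0 = c1
    have hi' : D.len 0 = 0 := hi
    have h01 : D.c 0 = D.c 1 := by rw [len0] at hi'; linarith
    obtain ⟨h24, himp⟩ := side0 hB hP hD hm ho h01
    have hsum : (ren M N D).len 2 + (ren M N D).len 3 = 0 := by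
      rw [len2, len3]; linarith
    constructor
    · by_contra hcon
      push Not at hcon
      have := hcon 2
      have := hcon 3
      linarith
    · intro s hs hV
      have h1 := hre s hV
      have h2 := him s hV
      rw [hi', zero_sub] at h2
      have h3 : (ren M N D).len 0 ≤ (ren M N D).len 1 := by
        have := mul_nonneg hs (hnn 1)
        linarith
      rw [len0, len1] at h3
      obtain ⟨h4, h5⟩ := himp h3
      rw [len3 D, len2 D] at h1
      have h6 : 0 < (ren M N D).len 3 := by rw [len3]; linarith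
      have h7 : (ren M N D).len 2 < 0 := by linarith
      have h8 : 0 < κ' * (ren M N D).len 3 := mul_pos hκ' h6
      have h9 : s * (κ * (D.c 4 - D.c 3) - (D.c 3 - D.c 2)) ≤ 0 :=
        mul_nonpos_of_nonneg_of_nonpos hs (by linarith)
      linarith
  · -- c1 = c2
    have hi' : D.len 1 = 0 := hi
    have h12 : D.c 1 = D.c 2 := by rw [len1] at hi'; linarith
    have hs1 := side1 hB hP hD hm ho h12
    have h0pos := hnn 0
    constructor
    · rcases le_or_gt (κ * (D.c 4 - D.c 3)) (D.c 3 - D.c 2) with h5 | h5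
      · refine ⟨0, ?_⟩
        have := (hs1.1 h5).1
        rw [len0]; linarith
      · refine ⟨3, ?_⟩
        have := (hs1.2 h5).1
        rw [len3]; linarith
    · intro s hs hV
      have h1 := hre s hV
      have h2 := him s hV
      rw [hi', sub_zero] at h2
      have h3 : 0 ≤ s * D.len 0 := mul_nonneg hs h0pos
      rcases le_or_gt (κ * (D.c 4 - D.c 3)) (D.c 3 - D.c 2) with h5 | h5
      · obtain ⟨h6, h7⟩ := hs1.1 h5
        rw [len0 (ren M N D), len1 (ren M N D)] at h2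
        linarith
      · obtain ⟨h6, h7⟩ := hs1.2 h5
        rw [len3 D, len2 D] at h1
        have h8 : 0 ≤ s * (κ * (D.c 4 - D.c 3) - (D.c 3 - D.c 2)) :=
          mul_nonneg hs (by linarith)
        have h9 : (ren M N D).len 3 < 0 := by rw [len3]; linarith
        have h10 : 0 < (ren M N D).len 2 := by rw [len2]; linarith
        have h11 : κ' * (ren M N D).len 3 < 0 := mul_neg_of_pos_of_neg hκ' h9
        linarith
  · -- c2 = c3
    have hi' : D.len 2 = 0 := hi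
    have h12 : D.c 2 = D.c 3 := by rw [len2] at hi'; linarith
    obtain ⟨h6, h7⟩ := side2 hB hP hD hm ho h12
    have h9 : (ren M N D).len 3 < 0 := by rw [len3]; linarith
    have h10 : 0 < (ren M N D).len 2 := by rw [len2]; linarith
    constructor
    · exact ⟨3, h9.le⟩
    · intro s hs hV
      have h1 := hre s hV
      rw [hi', sub_zero] at h1
      have h8 : 0 ≤ s * (κ * D.len 3) := mul_nonneg hs (mul_nonneg (by linarith) (hnn 3))
      have h11 : κ' * (ren M N D).len 3 < 0 := mul_neg_of_pos_of_neg hκ' h9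
      linarith
  · -- c3 = c4
    have hi' : D.len 3 = 0 := hi
    have h12 : D.c 3 = D.c 4 := by rw [len3] at hi'; linarith
    obtain ⟨h6, h7⟩ := side3 hB hP hD hm ho h12
    have h9 : (ren M N D).len 2 < 0 := by rw [len2]; linarith
    have h10 : 0 < (ren M N D).len 3 := by rw [len3]; linarith
    constructor
    · exact ⟨2, h9.le⟩
    · intro s hs hV
      have h1 := hre s hV
      rw [hi', mul_zero, zero_sub] at h1
      have h8 : 0 ≤ s * D.len 2 := mul_nonneg hs (hnn 2)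
      have h11 : 0 < κ' * (ren M N D).len 3 := mul_pos hκ' h10
      linarith

end V

end Datum

end Pool.Agent.H814R3
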