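import Mathlib
import Pool.Agent.H814R3.Side
import Pool.Agent.Helper728.Coag.Brouwer

set_option autoImplicit false

/-!
The crossing argument: continuous planar families of data contain infinitely renormalizable ones.
-/

namespace Pool.Agent.H814R3

open Topology Set

/-- Joint continuity of a family of increasing homeomorphisms and of the inverses. -/
def JC {P : Type*} [TopologicalSpace P] (f : P → (ℝ ≃o ℝ)) : Prop :=
  (Continuous fun p : P × ℝ => f p.1 p.2) ∧ Continuous fun p : P × ℝ => (f p.1).symm p.2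

section JC
variable {P : Type*} [TopologicalSpace P] {f g : P → (ℝ ≃o ℝ)}

lemma JC.mul (hf : JC f) (hg : JC g) : JC (fun t => f t * g t) := by
  constructor
  · have : (fun p : P × ℝ => (f p.1 * g p.1) p.2) = fun p : P × ℝ => f p.1 (g p.1 p.2) := rfl
    rw [this]
    exact hf.1.comp (continuous_fst.prodMk hg.1)
  · have : (fun p : P × ℝ => (f p.1 * g p.1).symm p.2) =
      fun p : P × ℝ => (g p.1).symm ((f p.1).symm p.2) := rfl
    rw [this]
    exact hg.2.comp (continuous_fst.prodMk hf.2)

lemma JC.pow (hf : JC f) (n : ℕ) : JC (fun t => f t ^ n) := by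
  induction n with
  | zero =>
    constructor
    · have : (fun p : P × ℝ => (f p.1 ^ 0) p.2) = fun p => p.2 := by
        funext p; rw [pow_zero]; rfl
      rw [this]; exact continuous_snd
    · have : (fun p : P × ℝ => (f p.1 ^ 0).symm p.2) = fun p => p.2 := by
        funext p; rw [pow_zero]; rfl
      rw [this]; exact continuous_snd
  | succ n ih =>
    have := JC.mul ih hf
    simpa only [pow_succ] using this

lemma JC.flip (hf : JC f) : JC (fun t => flip (f t)) := by
  constructor
  · have : (fun p : P × ℝ => (Pool.Agent.H814R3.flip (f p.1)) p.2) =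
      fun p : P × ℝ => - f p.1 (-p.2) := rfl
    rw [this]
    exact (hf.1.comp (continuous_fst.prodMk continuous_snd.neg)).neg
  · have : (fun p : P × ℝ => (Pool.Agent.H814R3.flip (f p.1)).symm p.2) =
      fun p : P × ℝ => - (f p.1).symm (-p.2) := rfl
    rw [this]
    exact (hf.2.comp (continuous_fst.prodMk continuous_snd.neg)).neg

lemma JC.app (hf : JC f) {c : P → ℝ} (hc : Continuous c) : Continuous fun t => f t (c t) :=
  hf.1.comp (continuous_id.prodMk hc)

lemma JC.appSymm (hf : JC f) {c : P → ℝ} (hc : Continuous c) :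
    Continuous fun t => (f t).symm (c t) :=
  hf.2.comp (continuous_id.prodMk hc)

end JC

namespace Datum

/-- Continuous families of data. -/
def CF {P : Type*} [TopologicalSpace P] (D : P → Datum) : Prop :=
  (∀ i, Continuous fun t => (D t).c i) ∧ ∀ i, JC fun t => (D t).f i

section
variable {P : Type*} [TopologicalSpace P] {D : P → Datum}

lemma CF.ren (h : CF D) (M N : ℕ) : CF (fun t => ren M N (D t)) := by
  constructor
  · intro i
    fin_cases i
    · exact (h.1 4).neg
    · exact ((h.2 3).appSymm (((h.2 1).pow M).appSymm (h.1 2))).neg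
    · exact ((h.2 3).appSymm (h.1 1)).neg
    · exact ((h.2 3).appSymm ((h.2 0).appSymm (((h.2 2).pow N).appSymm (h.1 3)))).neg
    · exact (h.1 3).neg
  · intro i
    fin_cases i
    · exact ((((h.2 2).pow (N+1)).mul ((h.2 1).pow M)).mul (h.2 3)).flip
    · exact ((((h.2 2).pow (N+1)).mul ((h.2 1).pow (M+1))).mul (h.2 3)).flip
    · exact ((((h.2 2).pow N).mul (h.2 0)).mul (h.2 3)).flip
    · exact ((((h.2 2).pow (N+1)).mul (h.2 0)).mul (h.2 3)).flip

lemma CF.len (h : CF D) (i : Fin 4) : Continuous fun t => (D t).len i :=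
  (h.1 _).sub (h.1 _)

lemma CF.V (h : CF D) (κ : ℝ) : Continuous fun t => V κ (D t) := by
  have : (fun t => Datum.V κ (D t)) = fun t =>
      ((κ * (D t).len 3 - (D t).len 2 : ℝ) : ℂ) + ((D t).len 0 - (D t).len 1 : ℝ) * Complex.I := by
    funext t
    apply Complex.ext <;> simp [Datum.V]
  rw [this]
  exact (Complex.continuous_ofReal.comp ((continuous_const.mul (h.len 3)).sub (h.len 2))).add
    ((Complex.continuous_ofReal.comp ((h.len 0).sub (h.len 1))).mul continuous_const)

end

/-- The essentiality property of a closed set of parameters. -/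
def Ess {P : Type*} [TopologicalSpace P] (κ : ℝ) (D : P → Datum) (K : Set P) : Prop :=
  ¬ ∃ g : P → ℂ, ContinuousOn g K ∧ (∀ t ∈ K, g t ≠ 0) ∧
    ∀ t ∈ K, (∃ i, (D t).len i = 0) → g t = V κ (D t)

lemma Ess.nonempty {P : Type*} [TopologicalSpace P] {κ : ℝ} {D : P → Datum} {K : Set P}
    (h : Ess κ D K) : K.Nonempty := by
  by_contra hK
  rw [Set.not_nonempty_iff_eq_empty] at hK
  subst hK
  exact h ⟨fun _ => 1, by simp, by simp, by simp⟩

theorem ess_step {P : Type*} [TopologicalSpace P] [NormalSpace P] {κ κ' : ℝ} {M N : ℕ} {B : Bd}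
    {D : P → Datum} {K : Set P} (hB : B.OK) (hP : Par B κ M N) (hκ' : 0 < κ')
    (hD : ∀ t ∈ K, (D t).HasBd B) (hm : ∀ t ∈ K, (D t).Match) (hc : CF D)
    (hK : IsClosed K) (ho : ∀ t ∈ K, (D t).Ord) (hE : Ess κ D K) :
    Ess κ' (fun t => ren M N (D t)) {t ∈ K | ∀ i, 0 ≤ (ren M N (D t)).len i} := by
  rintro ⟨g, hg, hg0, hgV⟩
  apply hE
  have hc' : CF (fun t => ren M N (D t)) := hc.ren M N
  set K' : Set P := {t ∈ K | ∀ i, 0 ≤ (ren M N (D t)).len i} with hK'
  set S : Set P := {t ∈ K | ∃ i, (ren M N (D t)).len i ≤ 0} with hS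
  have hK'c : IsClosed K' := by
    have : K' = K ∩ ⋂ i, {t | 0 ≤ (ren M N (D t)).len i} := by
      ext t; simp [hK']
    rw [this]
    exact hK.inter (isClosed_iInter fun i => isClosed_le continuous_const (hc'.len i))
  have hSc : IsClosed S := by
    have : S = K ∩ ⋃ i, {t | (ren M N (D t)).len i ≤ 0} := by
      ext t; simp [hS]
    rw [this]
    exact hK.inter (isClosed_iUnion_of_finite fun i => isClosed_le (hc'.len i) continuous_const)
  have hcover : K = K' ∪ S := by
    ext t
    simp only [hK', hS, Set.mem_union, Set.mem_ofPred_eq]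
    constructor
    · intro h
      by_cases h1 : ∀ i, 0 ≤ (ren M N (D t)).len i
      · exact Or.inl ⟨h, h1⟩
      · push Not at h1
        obtain ⟨i, hi⟩ := h1
        exact Or.inr ⟨h, i, hi.le⟩
    · rintro (h | h)
      · exact h.1
      · exact h.1
  classical
  set W : P → ℂ := fun t => V κ' (ren M N (D t)) with hW
  have hWc : Continuous W := hc'.V κ'
  set G : P → ℂ := fun t => if t ∈ K' then g t else W t with hG
  have hGS : ∀ t ∈ S, G t = W t := by
    intro t ht
    by_cases h1 : t ∈ K'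
    · have : ∃ i, (ren M N (D t)).len i = 0 := by
        obtain ⟨i, hi⟩ := ht.2
        exact ⟨i, le_antisymm hi (h1.2 i)⟩
      simp only [hG, h1, if_true]
      exact hgV t h1 this
    · simp only [hG, h1, if_false]
  have hGK : ∀ t ∈ K', G t = g t := by
    intro t ht
    simp only [hG, ht, if_true]
  have hGc : ContinuousOn G K := by
    rw [hcover]
    apply ContinuousOn.union_of_isClosed _ _ hK'c hSc
    · exact hg.congr hGK
    · exact hWc.continuousOn.congr hGS
  have hG0 : ∀ t ∈ K, G t ≠ 0 := by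
    intro t ht
    rw [hcover] at ht
    rcases ht with ht | ht
    · rw [hGK t ht]; exact hg0 t ht
    · rw [hGS t ht]
      exact V_ren_ne hB (hD t ht.1) (hm t ht.1) (ho t ht.1) hP hκ' ht.2
  -- the degenerate locus
  set Bk : Set P := {t ∈ K | ∃ i, (D t).len i = 0} with hBk
  have hBkc : IsClosed Bk := by
    have : Bk = K ∩ ⋃ i, {t | (D t).len i = 0} := by
      ext t; simp [hBk]
    rw [this]
    exact hK.inter (isClosed_iUnion_of_finite fun i => isClosed_eq (hc.len i) continuous_const)
  have hκ : ∀ t ∈ K, 0 < κ := fun t ht => by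
    have := kpos hB (hD t ht) (hm t ht) (ho t ht) hP
    linarith
  have hV0 : ∀ t ∈ Bk, V κ (D t) ≠ 0 := fun t ht =>
    V_ne hB (hD t ht.1) (hm t ht.1) (ho t ht.1) (hκ t ht.1) ht.2
  have hang : ∀ t ∈ Bk, t ∈ S ∧ -W t / V κ (D t) ∈ Complex.slitPlane := by
    intro t ht
    obtain ⟨h1, h2⟩ := V_ren_angle (κ' := κ') hB (hD t ht.1) (hm t ht.1) (ho t ht.1) hP hκ' ht.2
    refine ⟨⟨ht.1, h1⟩, ?_⟩
    by_contra hcon
    rw [Complex.mem_slitPlane_iff] at hcon
    push Not at hcon
    obtain ⟨hre, him⟩ := hcon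
    apply h2 (-(-W t / V κ (D t)).re) (by linarith)
    have h3 : -W t / V κ (D t) = (((-W t / V κ (D t)).re : ℝ) : ℂ) := by
      apply Complex.ext
      · simp
      · rw [him]; simp
    have h4 : -W t = (((-W t / V κ (D t)).re : ℝ) : ℂ) * V κ (D t) := by
      rw [← h3, div_mul_cancel₀ _ (hV0 t ht)]
    show W t = _
    rw [Complex.ofReal_neg, neg_mul, ← h4, neg_neg]
  -- Tietze
  have hLc : ContinuousOn (fun t => Complex.log (-W t / V κ (D t))) Bk := by
    apply ContinuousOn.clog
    · exact hWc.continuousOn.neg.div (hc.V κ).continuousOn hV0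
    · intro t ht
      exact (hang t ht).2
  obtain ⟨L, hL⟩ := ContinuousMap.exists_restrict_eq hBkc
    (⟨Bk.domRestrict fun t => Complex.log (-W t / V κ (D t)), hLc.domRestrict⟩ : C(Bk, ℂ))
  have hL' : ∀ t ∈ Bk, L t = Complex.log (-W t / V κ (D t)) := by
    intro t ht
    have := congrArg (fun φ : C(Bk, ℂ) => φ ⟨t, ht⟩) hL
    exact this
  refine ⟨fun t => -(G t) * Complex.exp (-(L t)), ?_, ?_, ?_⟩
  · exact hGc.neg.mul (Complex.continuous_exp.comp L.continuous.neg).continuousOn
  · intro t ht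
    exact mul_ne_zero (neg_ne_zero.mpr (hG0 t ht)) (Complex.exp_ne_zero _)
  · intro t ht hi
    have htB : t ∈ Bk := ⟨ht, hi⟩
    have hWt : W t ≠ 0 := by
      have := hG0 t ht
      rwa [hGS t (hang t htB).1] at this
    have hq : -W t / V κ (D t) ≠ 0 := div_ne_zero (neg_ne_zero.mpr hWt) (hV0 t htB)
    show -(G t) * Complex.exp (-(L t)) = _
    rw [hL' t htB, hGS t (hang t htB).1, Complex.exp_neg, Complex.exp_log hq, inv_div,
      mul_div_assoc']
    rw [mul_comm, mul_div_assoc, div_self (neg_ne_zero.mpr hWt), mul_one]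

/-- The iterated induction. -/
def it (M N : ℕ → ℕ) : ℕ → Datum → Datum
  | 0, D => D
  | k+1, D => ren (M k) (N k) (it M N k D)

lemma it_succ (M N : ℕ → ℕ) (k : ℕ) (D : Datum) :
    it M N (k+1) D = ren (M k) (N k) (it M N k D) := rfl

lemma it_match {M N : ℕ → ℕ} {D : Datum} (h : D.Match) (k : ℕ) : (it M N k D).Match := by
  induction k with
  | zero => exact h
  | succ k ih => exact ren_match _ _ ih

lemma CF.it {P : Type*} [TopologicalSpace P] {D : P → Datum} (h : CF D) (M N : ℕ → ℕ) (k : ℕ) :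
    CF (fun t => it M N k (D t)) := by
  induction k with
  | zero => exact h
  | succ k ih => exact ih.ren (M k) (N k)

end Datum

/-- Sequences of parameters. -/
structure Seqs where
  κ : ℕ → ℝ
  M : ℕ → ℕ
  N : ℕ → ℕ
  B : ℕ → Bd
  ok : ∀ k, (B k).OK
  par : ∀ k, Par (B k) (κ k) (M k) (N k)
  succ : ∀ k, B (k+1) = renB (M k) (N k) (B k)

namespace Datum

lemma it_hasBd (q : Seqs) {D : Datum} (h : D.HasBd (q.B 0)) (k : ℕ) :
    (it q.M q.N k D).HasBd (q.B k) := by
  induction k with
  | zero => exact h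
  | succ k ih => rw [q.succ k]; exact ren_hasBd (q.ok k) ih

/-- The crossing theorem: starting with an essential closed family at level `k₀`, some member is
infinitely renormalizable. -/
theorem crossing {P : Type*} [TopologicalSpace P] [NormalSpace P] [CompactSpace P] (q : Seqs)
    {D : P → Datum} (hc : CF D) (hm : ∀ t, (D t).Match) (k₀ : ℕ)
    {K : Set P} (hK : IsClosed K) (hD : ∀ t ∈ K, (D t).HasBd (q.B 0))
    (ho : ∀ t ∈ K, (it q.M q.N k₀ (D t)).Ord)
    (hE : Ess (q.κ k₀) (fun t => it q.M q.N k₀ (D t)) K) :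
    ∃ t ∈ K, ∀ k, k₀ ≤ k → (it q.M q.N k (D t)).SOrd := by
  let KK : ℕ → Set P := fun j => Nat.rec K (fun j S => {t ∈ S | ∀ i, 0 ≤ (it q.M q.N (k₀+j+1) (D t)).len i}) j
  have hKK0 : KK 0 = K := rfl
  have hKKs : ∀ j, KK (j+1) = {t ∈ KK j | ∀ i, 0 ≤ (it q.M q.N (k₀+j+1) (D t)).len i} := fun j => rfl
  have hsub : ∀ j, KK j ⊆ K := by
    intro j
    induction j with
    | zero => exact subset_rfl
    | succ j ih => rw [hKKs]; exact fun t ht => ih ht.1
  have key : ∀ j, IsClosed (KK j) ∧ (∀ t ∈ KK j, (it q.M q.N (k₀+j) (D t)).Ord) ∧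
      Ess (q.κ (k₀+j)) (fun t => it q.M q.N (k₀+j) (D t)) (KK j) := by
    intro j
    induction j with
    | zero => exact ⟨hK, ho, hE⟩
    | succ j ih =>
      obtain ⟨h1, h2, h3⟩ := ih
      have hcj : CF (fun t => it q.M q.N (k₀+j) (D t)) := hc.it q.M q.N _
      have hcj' : CF (fun t => it q.M q.N (k₀+j+1) (D t)) := hc.it q.M q.N _
      have hDj : ∀ t ∈ KK j, (it q.M q.N (k₀+j) (D t)).HasBd (q.B (k₀+j)) := fun t ht =>
        it_hasBd q (hD t (hsub j ht)) _
      have hmj : ∀ t ∈ KK j, (it q.M q.N (k₀+j) (D t)).Match := fun t _ => it_match (hm t) _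
      have hκ : 0 < q.κ (k₀+j+1) := by
        have h4 := (q.par (k₀+j+1)).hκ
        have h5 := (q.ok (k₀+j+1)).pos 0
        have h6 := (q.ok (k₀+j+1)).le 0
        linarith
      refine ⟨?_, ?_, ?_⟩
      · rw [hKKs]
        have : {t ∈ KK j | ∀ i, 0 ≤ (it q.M q.N (k₀+j+1) (D t)).len i} =
            KK j ∩ ⋂ i, {t | 0 ≤ (it q.M q.N (k₀+j+1) (D t)).len i} := by
          ext t; simp
        rw [this]
        exact h1.inter (isClosed_iInter fun i => isClosed_le continuous_const (hcj'.len i))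
      · intro t ht
        rw [hKKs] at ht
        exact ord_ren (q.ok _) (q.par _) (hDj t ht.1) (hmj t ht.1) (h2 t ht.1) ht.2
      · rw [hKKs]
        exact ess_step (q.ok _) (q.par _) hκ hDj hmj hcj h1 h2 h3
  have hanti : Antitone KK := antitone_nat_of_succ_le fun j => by
    rw [hKKs]; exact fun t ht => ht.1
  obtain ⟨t, ht⟩ := IsCompact.nonempty_iInter_of_sequence_nonempty_isCompact_isClosed KK
    (fun j => hanti (Nat.le_succ j)) (fun j => (key j).2.2.nonempty) (key 0).1.isCompact
    (fun j => (key j).1)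
  rw [Set.mem_iInter] at ht
  refine ⟨t, ht 0, ?_⟩
  intro k hk
  obtain ⟨j, rfl⟩ := Nat.exists_eq_add_of_le hk
  have h1 := (key j).2.1 t (ht j)
  have h2 := (key (j+1)).2.1 t (ht (j+1))
  exact sord_of_ren (q.ok _) (q.par _) (it_hasBd q (hD t (ht 0)) _) (it_match (hm t) _) h1 h2

end Datum

/-- There is no nowhere vanishing continuous map of the plane which is the identity far away. -/
theorem no_nonvanishing (G : ℂ → ℂ) (hG : Continuous G) (R : ℝ) (hR : ∀ z, R ≤ ‖z‖ → G z = z) :
    ∃ z, G z = 0 := by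
  by_contra hcon
  push Not at hcon
  set R' : ℝ := max R 1 with hR'
  have hR1 : 0 < R' := lt_of_lt_of_le one_pos (le_max_right _ _)
  obtain ⟨z, hz⟩ := Pool.Agent.Helper728.Coag.Brouwer.brouwer
    (fun z => -((R' / ‖G z‖ : ℝ) : ℂ) * G z)
    (((Complex.continuous_ofReal.comp (continuous_const.div hG.norm
      fun z => norm_ne_zero_iff.mpr (hcon z))).neg).mul hG) R' (by
      intro z
      rw [norm_mul, norm_neg, Complex.norm_real, norm_div, norm_norm,
        div_mul_cancel₀ _ (norm_ne_zero_iff.mpr (hcon z)), Real.norm_eq_abs, abs_of_pos hR1])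
  have hn : ‖z‖ = R' := by
    rw [← hz, norm_mul, norm_neg, Complex.norm_real, norm_div, norm_norm,
        div_mul_cancel₀ _ (norm_ne_zero_iff.mpr (hcon z)), Real.norm_eq_abs, abs_of_pos hR1]
  have hGz : G z = z := hR z (by rw [hn]; exact le_max_left _ _)
  rw [hGz, hn, div_self hR1.ne'] at hz
  have : z = 0 := by
    have h2 : (2 : ℂ) * z = 0 := by
      have : -((1 : ℝ) : ℂ) * z = z := hz
      simp only [Complex.ofReal_one] at this
      linear_combination -this
    simpa using h2
  rw [this, norm_zero] at hn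
  linarith

end Pool.Agent.H814R3
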