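import Mathlib
import Pool.Agent.H814R3.Side

set_option autoImplicit false
set_option linter.unusedSectionVars false

/-!
Words followed by points, and the substitution describing the first return to the last interval.
-/

namespace Pool.Agent.H814R3

namespace Datum

/-- Apply the branches along a word. -/
def app (D : Datum) : List (Fin 4) → ℝ → ℝ
  | [], x => x
  | i :: u, x => app D u (D.f i x)

/-- The point follows the word through the open intervals. -/
def Fol (D : Datum) : List (Fin 4) → ℝ → Prop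
  | [], _ => True
  | i :: u, x => D.c i.castSucc < x ∧ x < D.c i.succ ∧ Fol D u (D.f i x)

/-- The point follows the word through the closed intervals. -/
def WFol (D : Datum) : List (Fin 4) → ℝ → Prop
  | [], _ => True
  | i :: u, x => D.c i.castSucc ≤ x ∧ x ≤ D.c i.succ ∧ WFol D u (D.f i x)

lemma app_append (D : Datum) (u v : List (Fin 4)) (x : ℝ) :
    app D (u ++ v) x = app D v (app D u x) := by
  induction u generalizing x with
  | nil => rfl
  | cons i u ih => exact ih _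

lemma fol_append (D : Datum) (u v : List (Fin 4)) (x : ℝ) :
    Fol D (u ++ v) x ↔ Fol D u x ∧ Fol D v (app D u x) := by
  induction u generalizing x with
  | nil => simp [Fol, app]
  | cons i u ih => simp only [List.cons_append, Fol, app, ih, and_assoc]

lemma wfol_append (D : Datum) (u v : List (Fin 4)) (x : ℝ) :
    WFol D (u ++ v) x ↔ WFol D u x ∧ WFol D v (app D u x) := by
  induction u generalizing x with
  | nil => simp [WFol, app]
  | cons i u ih => simp only [List.cons_append, WFol, app, ih, and_assoc]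

lemma app_mono (D : Datum) (u : List (Fin 4)) : StrictMono (app D u) := by
  induction u with
  | nil => exact fun x y h => h
  | cons i u ih => exact fun x y h => ih ((D.f i).strictMono h)

lemma fol_between (D : Datum) (u : List (Fin 4)) {p q x : ℝ} (hp : WFol D u p) (hq : WFol D u q)
    (h1 : p < x) (h2 : x < q) : Fol D u x := by
  induction u generalizing p q x with
  | nil => trivial
  | cons i u ih =>
    exact ⟨hp.1.trans_lt h1, h2.trans_le hq.2.1,
      ih hp.2.2 hq.2.2 ((D.f i).strictMono h1) ((D.f i).strictMono h2)⟩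

lemma wfol_between (D : Datum) (u : List (Fin 4)) {p q x : ℝ} (hp : WFol D u p) (hq : WFol D u q)
    (h1 : p ≤ x) (h2 : x ≤ q) : WFol D u x := by
  induction u generalizing p q x with
  | nil => trivial
  | cons i u ih =>
    exact ⟨hp.1.trans h1, h2.trans hq.2.1,
      ih hp.2.2 hq.2.2 ((D.f i).monotone h1) ((D.f i).monotone h2)⟩

lemma app_rep (D : Datum) (i : Fin 4) (n : ℕ) (x : ℝ) :
    app D (List.replicate n i) x = (D.f i ^ n) x := by
  induction n generalizing x with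
  | zero => rw [pow_zero_app]; rfl
  | succ n ih =>
    rw [List.replicate_succ, pow_succ_app]
    exact ih _

lemma wfol_rep (D : Datum) (i : Fin 4) (n : ℕ) (x : ℝ)
    (h : ∀ j < n, D.c i.castSucc ≤ (D.f i ^ j) x ∧ (D.f i ^ j) x ≤ D.c i.succ) :
    WFol D (List.replicate n i) x := by
  induction n generalizing x with
  | zero => trivial
  | succ n ih =>
    rw [List.replicate_succ]
    refine ⟨?_, ?_, ih _ ?_⟩
    · simpa [pow_zero_app] using (h 0 (by omega)).1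
    · simpa [pow_zero_app] using (h 0 (by omega)).2
    · intro j hj
      have := h (j+1) (by omega)
      rwa [pow_succ_app] at this

lemma fol_rep (D : Datum) (i : Fin 4) (n : ℕ) (x : ℝ)
    (h : ∀ j < n, D.c i.castSucc < (D.f i ^ j) x ∧ (D.f i ^ j) x < D.c i.succ) :
    Fol D (List.replicate n i) x := by
  induction n generalizing x with
  | zero => trivial
  | succ n ih =>
    rw [List.replicate_succ]
    refine ⟨?_, ?_, ih _ ?_⟩
    · simpa [pow_zero_app] using (h 0 (by omega)).1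
    · simpa [pow_zero_app] using (h 0 (by omega)).2
    · intro j hj
      have := h (j+1) (by omega)
      rwa [pow_succ_app] at this

lemma chain_mono (g : ℝ ≃o ℝ) {x : ℝ} (hx : x ≤ g x) {i j : ℕ} (hij : i ≤ j) :
    (g ^ i) x ≤ (g ^ j) x := by
  induction j, hij using Nat.le_induction with
  | base => exact le_rfl
  | succ j _ ih =>
    refine ih.trans ?_
    rw [pow_succ_app]
    exact (g ^ j).monotone hx

lemma chain_lt (g : ℝ ≃o ℝ) {x : ℝ} (hx : x < g x) {i j : ℕ} (hij : i < j) :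
    (g ^ i) x < (g ^ j) x := by
  have h1 := chain_mono g hx.le (i := i+1) (j := j) hij
  refine lt_of_lt_of_le ?_ h1
  rw [pow_succ_app]
  exact (g ^ i).strictMono hx

/-- The words of the first return to the last interval. -/
def sub (M N : ℕ) : Fin 4 → List (Fin 4) :=
  ![3 :: (List.replicate M 1 ++ List.replicate (N+1) 2),
    3 :: (List.replicate (M+1) 1 ++ List.replicate (N+1) 2),
    3 :: 0 :: List.replicate N 2,
    3 :: 0 :: List.replicate (N+1) 2]

/-- The data of one step: all the inequalities used below. -/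
structure Step (M N : ℕ) (D : Datum) : Prop where
  hM : 1 ≤ M
  hN : 1 ≤ N
  m : D.Match
  o : D.SOrd
  o' : (ren M N D).SOrd

section step
variable {M N : ℕ} {D : Datum} (s : Step M N D)
include s

lemma Step.F1 : (D.f 1 ^ M) (D.c 1) < D.c 2 := ren_lt1'.mp s.o'.h1
lemma Step.F2 : D.c 2 < (D.f 1 ^ (M+1)) (D.c 1) := (ren_lt0' s.m).mp s.o'.h0
lemma Step.F3 : D.c 3 < (D.f 2 ^ (N+1)) (D.c 2) := (ren_lt2' s.m).mp s.o'.h2
lemma Step.F4 : (D.f 2 ^ N) (D.f 0 (D.c 0)) < D.c 3 := (ren_lt3' s.m).mp s.o'.h3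

lemma Step.c1v1 : D.c 1 < D.f 1 (D.c 1) := by
  have h := s.F1.trans s.F2
  rw [pow_succ_app, OrderIso.lt_iff_lt] at h
  exact h

lemma Step.c2v2 : D.c 2 < D.f 0 (D.c 0) := by
  refine s.F2.trans ?_
  rw [pow_succ_app', ← s.m.m10]
  exact (D.f 1).strictMono s.F1

lemma Step.ev2 : (D.f 1 ^ (M+1)) (D.c 1) < D.f 0 (D.c 0) := by
  rw [pow_succ_app', ← s.m.m10]
  exact (D.f 1).strictMono s.F1

lemma Step.v2v3 : D.f 0 (D.c 0) < D.f 2 (D.c 2) := by
  rw [← s.m.m02]
  exact (D.f 0).strictMono s.o.h0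

lemma Step.c2v3 : D.c 2 < D.f 2 (D.c 2) := s.c2v2.trans s.v2v3

lemma Step.v1c2 : D.f 1 (D.c 1) < D.c 2 := by
  have h := chain_mono (D.f 1) s.c1v1.le (i := 1) (j := M) s.hM
  rw [pow_one] at h
  exact h.trans_lt s.F1

/-- `w = f₁^{-M} c₂`. -/
lemma Step.c1w : D.c 1 < (D.f 1 ^ M).symm (D.c 2) := by
  rw [OrderIso.lt_symm_apply]; exact s.F1

lemma Step.wv1 : (D.f 1 ^ M).symm (D.c 2) < D.f 1 (D.c 1) := by
  rw [OrderIso.symm_apply_lt, ← pow_succ_app]; exact s.F2

lemma Step.wfw : (D.f 1 ^ M).symm (D.c 2) < D.f 1 ((D.f 1 ^ M).symm (D.c 2)) := by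
  rw [← (D.f 1 ^ M).lt_iff_lt, ← pow_succ_app, pow_succ_app', OrderIso.apply_symm_apply, s.m.m10]
  exact s.c2v2

/-- `w₃ = f₂^{-N} c₃`. -/
lemma Step.v2w3 : D.f 0 (D.c 0) < (D.f 2 ^ N).symm (D.c 3) := by
  rw [OrderIso.lt_symm_apply]; exact s.F4

lemma Step.w3v3 : (D.f 2 ^ N).symm (D.c 3) < D.f 2 (D.c 2) := by
  rw [OrderIso.symm_apply_lt, ← pow_succ_app]; exact s.F3

lemma Step.w3fw3 : (D.f 2 ^ N).symm (D.c 3) < D.f 2 ((D.f 2 ^ N).symm (D.c 3)) := by
  rw [← (D.f 2 ^ N).lt_iff_lt, ← pow_succ_app, pow_succ_app', OrderIso.apply_symm_apply, s.m.m24]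
  exact s.o.h3

lemma Step.c0w0 : D.c 0 < (D.f 0).symm ((D.f 2 ^ N).symm (D.c 3)) := by
  rw [OrderIso.lt_symm_apply]; exact s.v2w3

lemma Step.w0c1 : (D.f 0).symm ((D.f 2 ^ N).symm (D.c 3)) < D.c 1 := by
  rw [OrderIso.symm_apply_lt, s.m.m02]; exact s.w3v3

-- weak following of powers of `2`
lemma Step.W2 {x : ℝ} (h1 : D.c 2 ≤ x) (h2 : x ≤ D.f 0 (D.c 0)) :
    WFol D (List.replicate (N+1) 2) x := by
  have hx : ∀ y, D.c 2 ≤ y → y ≤ D.f 0 (D.c 0) → y ≤ D.f 2 y := fun y hy1 hy2 =>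
    hy2.trans (s.v2v3.le.trans ((D.f 2).monotone hy1))
  apply wfol_rep
  intro j hj
  have h3 := chain_mono (D.f 2) (hx x h1 h2) (i := 0) (j := j) (by omega)
  rw [pow_zero_app] at h3
  refine ⟨h1.trans h3, ?_⟩
  calc (D.f 2 ^ j) x ≤ (D.f 2 ^ j) (D.f 0 (D.c 0)) := (D.f 2 ^ j).monotone h2
    _ ≤ (D.f 2 ^ N) (D.f 0 (D.c 0)) :=
      chain_mono _ (hx _ s.c2v2.le le_rfl) (by omega)
    _ ≤ D.c 3 := s.F4.le

lemma Step.W2' {x : ℝ} (h1 : D.c 2 ≤ x) (h2 : x ≤ D.f 2 (D.f 0 (D.c 0))) :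
    WFol D (List.replicate N 2) x := by
  have h0 : D.c 2 ≤ D.f 2 (D.c 2) := s.c2v3.le
  apply wfol_rep
  intro j hj
  constructor
  · calc D.c 2 = (D.f 2 ^ 0) (D.c 2) := (pow_zero_app _ _).symm
      _ ≤ (D.f 2 ^ j) (D.c 2) := chain_mono _ h0 (by omega)
      _ ≤ (D.f 2 ^ j) x := (D.f 2 ^ j).monotone h1
  · calc (D.f 2 ^ j) x ≤ (D.f 2 ^ j) (D.f 2 (D.f 0 (D.c 0))) := (D.f 2 ^ j).monotone h2
      _ = (D.f 2 ^ (j+1)) (D.f 0 (D.c 0)) := (pow_succ_app _ _ _).symm
      _ ≤ (D.f 2 ^ N) (D.f 0 (D.c 0)) := by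
        apply chain_mono _ _ (by omega)
        exact s.v2v3.le.trans ((D.f 2).monotone s.c2v2.le)
      _ ≤ D.c 3 := s.F4.le

lemma Step.W2w3 : WFol D (List.replicate (N+1) 2) ((D.f 2 ^ N).symm (D.c 3)) := by
  apply wfol_rep
  intro j hj
  constructor
  · have h3 := chain_mono (D.f 2) s.w3fw3.le (i := 0) (j := j) (by omega)
    rw [pow_zero_app] at h3
    exact (s.c2v2.le.trans s.v2w3.le).trans h3
  · have h3 := chain_mono (D.f 2) s.w3fw3.le (i := j) (j := N) (by omega)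
    rw [OrderIso.apply_symm_apply] at h3
    exact h3

lemma wfol_rep_of_succ (n : ℕ) (i : Fin 4) {x : ℝ} (h : WFol D (List.replicate (n+1) i) x) :
    WFol D (List.replicate n i) x := by
  rw [List.replicate_succ', wfol_append] at h
  exact h.1

lemma Step.W1 {x : ℝ} (h1 : D.c 1 ≤ x) (h2 : x ≤ D.f 1 ((D.f 1 ^ M).symm (D.c 2))) :
    WFol D (List.replicate M 1) x := by
  apply wfol_rep
  intro j hj
  constructor
  · calc D.c 1 = (D.f 1 ^ 0) (D.c 1) := (pow_zero_app _ _).symm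
      _ ≤ (D.f 1 ^ j) (D.c 1) := chain_mono _ s.c1v1.le (by omega)
      _ ≤ (D.f 1 ^ j) x := (D.f 1 ^ j).monotone h1
  · calc (D.f 1 ^ j) x ≤ (D.f 1 ^ j) (D.f 1 ((D.f 1 ^ M).symm (D.c 2))) := (D.f 1 ^ j).monotone h2
      _ = (D.f 1 ^ (j+1)) ((D.f 1 ^ M).symm (D.c 2)) := (pow_succ_app _ _ _).symm
      _ ≤ (D.f 1 ^ M) ((D.f 1 ^ M).symm (D.c 2)) := chain_mono _ s.wfw.le (by omega)
      _ = D.c 2 := OrderIso.apply_symm_apply _ _

lemma Step.W1' {x : ℝ} (h1 : D.c 1 ≤ x) (h2 : x ≤ (D.f 1 ^ M).symm (D.c 2)) :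
    WFol D (List.replicate (M+1) 1) x := by
  apply wfol_rep
  intro j hj
  constructor
  · calc D.c 1 = (D.f 1 ^ 0) (D.c 1) := (pow_zero_app _ _).symm
      _ ≤ (D.f 1 ^ j) (D.c 1) := chain_mono _ s.c1v1.le (by omega)
      _ ≤ (D.f 1 ^ j) x := (D.f 1 ^ j).monotone h1
  · calc (D.f 1 ^ j) x ≤ (D.f 1 ^ j) ((D.f 1 ^ M).symm (D.c 2)) := (D.f 1 ^ j).monotone h2
      _ ≤ (D.f 1 ^ M) ((D.f 1 ^ M).symm (D.c 2)) := chain_mono _ s.wfw.le (by omega)
      _ = D.c 2 := OrderIso.apply_symm_apply _ _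

/-- `p₂₁`, `p₃₂`, `p₄₃` of the induced datum. -/
lemma Step.c3p43 : D.c 3 < (D.f 3).symm ((D.f 0).symm ((D.f 2 ^ N).symm (D.c 3))) := by
  have := s.o'.h3
  rw [ren_c3, ren_c4, neg_lt_neg_iff] at this
  exact this

lemma Step.p43p32 : (D.f 3).symm ((D.f 0).symm ((D.f 2 ^ N).symm (D.c 3))) < (D.f 3).symm (D.c 1) := by
  have := s.o'.h2
  rw [ren_c3, ren_c2, neg_lt_neg_iff] at this
  exact this

lemma Step.p32p21 : (D.f 3).symm (D.c 1) < (D.f 3).symm ((D.f 1 ^ M).symm (D.c 2)) := by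
  have := s.o'.h1
  rw [ren_c1, ren_c2, neg_lt_neg_iff] at this
  exact this

lemma Step.p21c4 : (D.f 3).symm ((D.f 1 ^ M).symm (D.c 2)) < D.c 4 := by
  have := s.o'.h0
  rw [ren_c0, ren_c1, neg_lt_neg_iff] at this
  exact this

lemma Step.W0 {x : ℝ} (h1 : (D.f 3).symm ((D.f 1 ^ M).symm (D.c 2)) ≤ x) (h2 : x ≤ D.c 4) :
    WFol D (sub M N 0) x := by
  refine ⟨?_, h2, ?_⟩
  · exact (s.c3p43.le.trans (s.p43p32.le.trans s.p32p21.le)).trans h1
  · have h3 : (D.f 1 ^ M).symm (D.c 2) ≤ D.f 3 x := by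
      rw [← OrderIso.symm_apply_le]; exact h1
    have h4 : D.f 3 x ≤ D.f 1 (D.c 1) := by rw [← s.m.m31]; exact (D.f 3).monotone h2
    rw [wfol_append]
    refine ⟨s.W1 (s.c1w.le.trans h3) (h4.trans ((D.f 1).monotone s.c1w.le)), ?_⟩
    rw [app_rep]
    apply s.W2
    · calc D.c 2 = (D.f 1 ^ M) ((D.f 1 ^ M).symm (D.c 2)) := (OrderIso.apply_symm_apply _ _).symm
        _ ≤ _ := (D.f 1 ^ M).monotone h3
    · calc (D.f 1 ^ M) (D.f 3 x) ≤ (D.f 1 ^ M) (D.f 1 (D.c 1)) := (D.f 1 ^ M).monotone h4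
        _ = (D.f 1 ^ (M+1)) (D.c 1) := (pow_succ_app _ _ _).symm
        _ ≤ _ := s.ev2.le

lemma Step.W1s {x : ℝ} (h1 : (D.f 3).symm (D.c 1) ≤ x)
    (h2 : x ≤ (D.f 3).symm ((D.f 1 ^ M).symm (D.c 2))) : WFol D (sub M N 1) x := by
  refine ⟨(s.c3p43.le.trans s.p43p32.le).trans h1, h2.trans s.p21c4.le, ?_⟩
  have h3 : D.c 1 ≤ D.f 3 x := by rw [← OrderIso.symm_apply_le]; exact h1
  have h4 : D.f 3 x ≤ (D.f 1 ^ M).symm (D.c 2) := by rw [← OrderIso.le_symm_apply]; exact h2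
  rw [wfol_append]
  refine ⟨s.W1' h3 h4, ?_⟩
  rw [app_rep]
  apply s.W2
  · calc D.c 2 ≤ (D.f 1 ^ (M+1)) (D.c 1) := s.F2.le
      _ ≤ _ := (D.f 1 ^ (M+1)).monotone h3
  · calc (D.f 1 ^ (M+1)) (D.f 3 x) ≤ (D.f 1 ^ (M+1)) ((D.f 1 ^ M).symm (D.c 2)) :=
        (D.f 1 ^ (M+1)).monotone h4
      _ = D.f 0 (D.c 0) := by rw [pow_succ_app', OrderIso.apply_symm_apply, s.m.m10]

lemma Step.W20 {x : ℝ} (h1 : D.c 3 ≤ x) (h2 : x ≤ (D.f 3).symm (D.c 1)) :
    WFol D (3 :: 0 :: List.replicate N 2) x := by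
  have h3 : D.c 0 ≤ D.f 3 x := by rw [← s.m.m30]; exact (D.f 3).monotone h1
  have h4 : D.f 3 x ≤ D.c 1 := by rw [← OrderIso.le_symm_apply]; exact h2
  refine ⟨h1, h2.trans (s.p32p21.le.trans s.p21c4.le), h3, h4, ?_⟩
  apply s.W2'
  · exact s.c2v2.le.trans ((D.f 0).monotone h3)
  · calc D.f 0 (D.f 3 x) ≤ D.f 0 (D.c 1) := (D.f 0).monotone h4
      _ = D.f 2 (D.c 2) := s.m.m02
      _ ≤ _ := (D.f 2).monotone s.c2v2.le

lemma Step.W3s {x : ℝ} (h1 : D.c 3 ≤ x)
    (h2 : x ≤ (D.f 3).symm ((D.f 0).symm ((D.f 2 ^ N).symm (D.c 3)))) :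
    WFol D (sub M N 3) x := by
  have h3 : D.c 0 ≤ D.f 3 x := by rw [← s.m.m30]; exact (D.f 3).monotone h1
  have h4 : D.f 3 x ≤ (D.f 0).symm ((D.f 2 ^ N).symm (D.c 3)) := by
    rw [← OrderIso.le_symm_apply]; exact h2
  refine ⟨h1, h2.trans (s.p43p32.le.trans (s.p32p21.le.trans s.p21c4.le)), h3,
    h4.trans s.w0c1.le, ?_⟩
  have h5 : D.f 0 (D.f 3 x) ≤ (D.f 2 ^ N).symm (D.c 3) := by rw [← OrderIso.le_symm_apply]; exact h4
  exact wfol_between D _ (s.W2 s.c2v2.le le_rfl) s.W2w3 ((D.f 0).monotone h3) h5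

lemma Step.Wall (i : Fin 4) {x : ℝ} (h1 : -(ren M N D).c i.succ ≤ x)
    (h2 : x ≤ -(ren M N D).c i.castSucc) : WFol D (sub M N i) x := by
  fin_cases i
  · have e1 : (ren M N D).c (Fin.succ 0) = -(D.f 3).symm ((D.f 1 ^ M).symm (D.c 2)) := rfl
    have e2 : (ren M N D).c (Fin.castSucc 0) = -D.c 4 := rfl
    refine s.W0 ?_ ?_
    · rw [← neg_neg ((D.f 3).symm _), ← e1]; exact h1
    · rw [← neg_neg (D.c 4), ← e2]; exact h2
  · have e1 : (ren M N D).c (Fin.succ 1) = -(D.f 3).symm (D.c 1) := rfl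
    have e2 : (ren M N D).c (Fin.castSucc 1) = -(D.f 3).symm ((D.f 1 ^ M).symm (D.c 2)) := rfl
    refine s.W1s ?_ ?_
    · rw [← neg_neg ((D.f 3).symm _), ← e1]; exact h1
    · rw [← neg_neg ((D.f 3).symm _), ← e2]; exact h2
  · have e1 : (ren M N D).c (Fin.succ 2) =
      -(D.f 3).symm ((D.f 0).symm ((D.f 2 ^ N).symm (D.c 3))) := rfl
    have e2 : (ren M N D).c (Fin.castSucc 2) = -(D.f 3).symm (D.c 1) := rfl
    refine s.W20 ?_ ?_
    · refine s.c3p43.le.trans ?_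
      rw [← neg_neg ((D.f 3).symm _), ← e1]; exact h1
    · rw [← neg_neg ((D.f 3).symm _), ← e2]; exact h2
  · have e1 : (ren M N D).c (Fin.succ 3) = -D.c 3 := rfl
    have e2 : (ren M N D).c (Fin.castSucc 3) =
      -(D.f 3).symm ((D.f 0).symm ((D.f 2 ^ N).symm (D.c 3))) := rfl
    refine s.W3s ?_ ?_
    · rw [← neg_neg (D.c 3), ← e1]; exact h1
    · rw [← neg_neg ((D.f 3).symm _), ← e2]; exact h2

omit s in
lemma app_sub (M N : ℕ) (D : Datum) (i : Fin 4) (x : ℝ) :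
    app D (sub M N i) (-x) = -((ren M N D).f i x) := by
  fin_cases i
  · show app D (List.replicate M 1 ++ List.replicate (N+1) 2) (D.f 3 (-x)) = _
    rw [app_append, app_rep, app_rep]
    show _ = -(flip (D.f 2 ^ (N+1) * D.f 1 ^ M * D.f 3) x)
    rw [flip_apply, neg_neg]; rfl
  · show app D (List.replicate (M+1) 1 ++ List.replicate (N+1) 2) (D.f 3 (-x)) = _
    rw [app_append, app_rep, app_rep]
    show _ = -(flip (D.f 2 ^ (N+1) * D.f 1 ^ (M+1) * D.f 3) x)
    rw [flip_apply, neg_neg]; rfl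
  · show app D (List.replicate N 2) (D.f 0 (D.f 3 (-x))) = _
    rw [app_rep]
    show _ = -(flip (D.f 2 ^ N * D.f 0 * D.f 3) x)
    rw [flip_apply, neg_neg]; rfl
  · show app D (List.replicate (N+1) 2) (D.f 0 (D.f 3 (-x))) = _
    rw [app_rep]
    show _ = -(flip (D.f 2 ^ (N+1) * D.f 0 * D.f 3) x)
    rw [flip_apply, neg_neg]; rfl

/-- The substitution lemma. -/
lemma Step.fol_subst (u : List (Fin 4)) (x : ℝ) (h : Fol (ren M N D) u x) :
    Fol D (u.flatMap (sub M N)) (-x) ∧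
      app D (u.flatMap (sub M N)) (-x) = -(app (ren M N D) u x) := by
  induction u generalizing x with
  | nil => exact ⟨trivial, rfl⟩
  | cons i u ih =>
    obtain ⟨h1, h2, h3⟩ := h
    rw [List.flatMap_cons, fol_append, app_append, app_sub]
    obtain ⟨h4, h5⟩ := ih _ h3
    refine ⟨⟨?_, h4⟩, h5⟩
    exact fol_between D _ (s.Wall i le_rfl (neg_le_neg (h1.trans h2).le))
      (s.Wall i (neg_le_neg (h1.trans h2).le) le_rfl) (neg_lt_neg h2) (neg_lt_neg h1)

-- entries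
lemma Step.entry2 : Fol D (List.replicate (N+1) 2) (D.f 0 (D.c 0)) ∧
    app D (List.replicate (N+1) 2) (D.f 0 (D.c 0)) = -((ren M N D).f 1 ((ren M N D).c 1)) := by
  constructor
  · refine fol_between D _ (s.W2 (x := D.c 2) le_rfl s.c2v2.le) s.W2w3 s.c2v2 s.v2w3
  · rw [app_rep, ren_f1, ren_c1, flip_apply, neg_neg, neg_neg, mul_app, mul_app,
      OrderIso.apply_symm_apply, pow_succ_app' (D.f 1), OrderIso.apply_symm_apply, s.m.m10]

lemma Step.entry1 : Fol D (List.replicate M 1 ++ List.replicate (N+1) 2) (D.f 1 (D.c 1)) ∧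
    app D (List.replicate M 1 ++ List.replicate (N+1) 2) (D.f 1 (D.c 1)) =
      -((ren M N D).f 0 ((ren M N D).c 0)) := by
  constructor
  · refine fol_between D _ (p := (D.f 1 ^ M).symm (D.c 2))
      (q := D.f 1 ((D.f 1 ^ M).symm (D.c 2))) ?_ ?_ s.wv1 ((D.f 1).strictMono s.c1w)
    · rw [wfol_append]
      refine ⟨s.W1 s.c1w.le s.wfw.le, ?_⟩
      rw [app_rep, OrderIso.apply_symm_apply]
      exact s.W2 le_rfl s.c2v2.le
    · rw [wfol_append]
      refine ⟨s.W1 (s.c1v1.le.trans ((D.f 1).monotone s.c1w.le)) le_rfl, ?_⟩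
      rw [app_rep, ← pow_succ_app, pow_succ_app', OrderIso.apply_symm_apply, s.m.m10]
      exact s.W2 s.c2v2.le le_rfl
  · rw [app_append, app_rep, app_rep, ren_f0, ren_c0, flip_apply, neg_neg, neg_neg, mul_app,
      mul_app, s.m.m31]

lemma Step.entry3 : Fol D (List.replicate N 2) (D.f 2 (D.c 2)) ∧
    app D (List.replicate N 2) (D.f 2 (D.c 2)) = -((ren M N D).f 2 ((ren M N D).c 2)) := by
  constructor
  · refine fol_between D _ (p := D.f 0 (D.c 0)) (q := D.f 2 (D.f 0 (D.c 0))) ?_ ?_ s.v2v3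
      ((D.f 2).strictMono s.c2v2)
    · exact s.W2' s.c2v2.le (s.v2v3.le.trans ((D.f 2).monotone s.c2v2.le))
    · exact s.W2' (s.c2v3.le.trans ((D.f 2).monotone s.c2v2.le)) le_rfl
  · rw [app_rep, ren_f2, ren_c2, flip_apply, neg_neg, neg_neg, mul_app, mul_app,
      OrderIso.apply_symm_apply, s.m.m02]

end step

lemma length_flatMap_ge (u : List (Fin 4)) (f : Fin 4 → List (Fin 4)) (hf : ∀ i, 1 ≤ (f i).length) :
    u.length ≤ (u.flatMap f).length := by
  induction u with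
  | nil => simp
  | cons i u ih =>
    rw [List.flatMap_cons, List.length_append, List.length_cons]
    have := hf i
    omega

lemma sub_length (M N : ℕ) (i : Fin 4) : 1 ≤ (sub M N i).length := by
  fin_cases i <;> simp [sub]

/-- Towers of data. -/
structure Tower (M N : ℕ → ℕ) (D : ℕ → Datum) : Prop where
  hM : ∀ k, 1 ≤ M k
  hN : ∀ k, 1 ≤ N k
  succ : ∀ k, D (k+1) = ren (M k) (N k) (D k)
  m : ∀ k, (D k).Match
  o : ∀ k, (D k).SOrd

lemma Tower.step {M N : ℕ → ℕ} {D : ℕ → Datum} (t : Tower M N D) (k : ℕ) :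
    Step (M k) (N k) (D k) :=
  ⟨t.hM k, t.hN k, t.m k, t.o k, t.succ k ▸ t.o (k+1)⟩

/-- The lower images of the partition points. -/
def vv (D : Datum) : Fin 3 → ℝ := ![D.f 1 (D.c 1), D.f 0 (D.c 0), D.f 2 (D.c 2)]

lemma Tower.long {M N : ℕ → ℕ} {D : ℕ → Datum} (t : Tower M N D) (n : ℕ) :
    ∀ (k : ℕ) (i : Fin 3), ∃ u : List (Fin 4), n ≤ u.length ∧ Fol (D k) u (vv (D k) i) := by
  induction n with
  | zero => exact fun k i => ⟨[], le_rfl, trivial⟩
  | succ n ih =>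
    intro k i
    have s := t.step k
    have hM := t.hM k
    have hN := t.hN k
    have hsub : ∀ j, 1 ≤ (sub (M k) (N k) j).length := sub_length _ _
    fin_cases i
    · obtain ⟨u, hu1, hu2⟩ := ih (k+1) 1
      rw [t.succ k] at hu2
      obtain ⟨h1, h2⟩ := s.entry1
      refine ⟨(List.replicate (M k) 1 ++ List.replicate (N k+1) 2) ++ u.flatMap (sub (M k) (N k)),
        ?_, ?_⟩
      · have := length_flatMap_ge u _ hsub
        simp only [List.length_append, List.length_replicate]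
        omega
      · rw [fol_append]
        refine ⟨h1, ?_⟩
        show Fol (D k) _ (app (D k) _ ((D k).f 1 ((D k).c 1)))
        rw [h2]
        exact (s.fol_subst u _ hu2).1
    · obtain ⟨u, hu1, hu2⟩ := ih (k+1) 0
      rw [t.succ k] at hu2
      obtain ⟨h1, h2⟩ := s.entry2
      refine ⟨List.replicate (N k+1) 2 ++ u.flatMap (sub (M k) (N k)), ?_, ?_⟩
      · have := length_flatMap_ge u _ hsub
        simp only [List.length_append, List.length_replicate]
        omega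
      · rw [fol_append]
        refine ⟨h1, ?_⟩
        show Fol (D k) _ (app (D k) _ ((D k).f 0 ((D k).c 0)))
        rw [h2]
        exact (s.fol_subst u _ hu2).1
    · obtain ⟨u, hu1, hu2⟩ := ih (k+1) 2
      rw [t.succ k] at hu2
      obtain ⟨h1, h2⟩ := s.entry3
      refine ⟨List.replicate (N k) 2 ++ u.flatMap (sub (M k) (N k)), ?_, ?_⟩
      · have := length_flatMap_ge u _ hsub
        simp only [List.length_append, List.length_replicate]
        omega
      · rw [fol_append]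
        refine ⟨h1, ?_⟩
        show Fol (D k) _ (app (D k) _ ((D k).f 2 ((D k).c 2)))
        rw [h2]
        exact (s.fol_subst u _ hu2).1

/-- The level zero words of the towers. -/
def Sw (M N : ℕ → ℕ) : ℕ → Fin 4 → List (Fin 4)
  | 0, i => [i]
  | k+1, i => (sub (M k) (N k) i).flatMap (Sw M N k)

/-- Accumulated reflections. -/
def sg (k : ℕ) (x : ℝ) : ℝ := (-1)^k * x

lemma sg_succ (k : ℕ) (x : ℝ) : sg (k+1) x = sg k (-x) := by
  unfold sg; ring

lemma Tower.fol_Sw {M N : ℕ → ℕ} {D : ℕ → Datum} (t : Tower M N D) (k : ℕ) :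
    ∀ (u : List (Fin 4)) (x : ℝ), Fol (D k) u x → Fol (D 0) (u.flatMap (Sw M N k)) (sg k x) ∧
      app (D 0) (u.flatMap (Sw M N k)) (sg k x) = sg k (app (D k) u x) := by
  induction k with
  | zero =>
    intro u x h
    have : u.flatMap (Sw M N 0) = u := by
      show u.flatMap (fun i => [i]) = u
      simp
    rw [this]
    simpa [sg] using h
  | succ k ih =>
    intro u x h
    rw [t.succ k] at h
    obtain ⟨h1, h2⟩ := (t.step k).fol_subst u x h
    obtain ⟨h3, h4⟩ := ih _ _ h1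
    have e : u.flatMap (Sw M N (k+1)) = (u.flatMap (sub (M k) (N k))).flatMap (Sw M N k) := by
      rw [List.flatMap_assoc]; rfl
    rw [e, sg_succ, sg_succ]
    refine ⟨h3, ?_⟩
    rw [h4, h2, t.succ k]

end Datum

end Pool.Agent.H814R3
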