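import Mathlib
import Pool.Agent.H814R3.Words

set_option autoImplicit false
set_option linter.unusedSectionVars false

/-!
Existence of an invariant distribution function with prescribed increments, by counting visits.
-/

namespace Pool.Agent.H814R3

open Filter Topology

namespace Datum

/-- Number of orbit points (along the word) below `x`. -/
noncomputable def occ (D : Datum) : List (Fin 4) → ℝ → ℝ → ℝ
  | [], _, _ => 0
  | i :: u, z, x => (if z < x then 1 else 0) + occ D u (D.f i z) x

lemma occ_nonneg (D : Datum) (u : List (Fin 4)) (z x : ℝ) : 0 ≤ occ D u z x := by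
  induction u generalizing z with
  | nil => exact le_rfl
  | cons i u ih =>
    unfold occ
    have := ih (D.f i z)
    split_ifs <;> linarith

lemma occ_le (D : Datum) (u : List (Fin 4)) (z x : ℝ) : occ D u z x ≤ u.length := by
  induction u generalizing z with
  | nil => simp [occ]
  | cons i u ih =>
    unfold occ
    have := ih (D.f i z)
    rw [List.length_cons]
    push_cast
    split_ifs <;> linarith

lemma occ_mono (D : Datum) (u : List (Fin 4)) (z : ℝ) {x y : ℝ} (h : x ≤ y) :
    occ D u z x ≤ occ D u z y := by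
  induction u generalizing z with
  | nil => exact le_rfl
  | cons i u ih =>
    unfold occ
    have := ih (D.f i z)
    by_cases h1 : z < x
    · rw [if_pos h1, if_pos (h1.trans_le h)]; linarith
    · rw [if_neg h1]; split_ifs <;> linarith

/-- The lower partition. -/
def bot (D : Datum) : Fin 5 → ℝ :=
  ![D.c 0, D.f 1 (D.c 1), D.f 0 (D.c 0), D.f 2 (D.c 2), D.c 4]

/-- The position of the images. -/
def pos : Fin 4 → Fin 4 := ![2, 1, 3, 0]

lemma pos_inj : Function.Injective pos := by decide

lemma Match.bot_l {D : Datum} (h : D.Match) (i : Fin 4) :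
    D.f i (D.c i.castSucc) = D.bot (pos i).castSucc := by
  fin_cases i
  · rfl
  · rfl
  · rfl
  · exact h.m30

lemma Match.bot_r {D : Datum} (h : D.Match) (i : Fin 4) :
    D.f i (D.c i.succ) = D.bot (pos i).succ := by
  fin_cases i
  · exact h.m02
  · exact h.m10
  · exact h.m24
  · exact h.m31

lemma SOrd.mono {D : Datum} (h : D.SOrd) : StrictMono D.c := by
  rw [Fin.strictMono_iff_lt_succ]
  intro i
  fin_cases i
  · exact h.h0
  · exact h.h1
  · exact h.h2
  · exact h.h3

lemma SOrd.bot_mono {D : Datum} (h : D.SOrd) (m : D.Match) : StrictMono D.bot := by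
  rw [Fin.strictMono_iff_lt_succ]
  intro i
  fin_cases i
  · show D.c 0 < D.f 1 (D.c 1)
    rw [← m.m30, ← m.m31]; exact (D.f 3).strictMono h.h3
  · show D.f 1 (D.c 1) < D.f 0 (D.c 0)
    rw [← m.m10]; exact (D.f 1).strictMono h.h1
  · show D.f 0 (D.c 0) < D.f 2 (D.c 2)
    rw [← m.m02]; exact (D.f 0).strictMono h.h0
  · show D.f 2 (D.c 2) < D.c 4
    rw [← m.m24]; exact (D.f 2).strictMono h.h2

/-- Indicator. -/
noncomputable def ind (s z : ℝ) : ℝ := if z < s then 1 else 0

lemma ind_other {c : Fin 5 → ℝ} (hc : StrictMono c) {a i : Fin 4} (hai : a ≠ i) {z s t : ℝ}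
    (hz1 : c a.castSucc < z) (hz2 : z < c a.succ) (hs1 : c i.castSucc ≤ s) (hs2 : s ≤ c i.succ)
    (ht1 : c i.castSucc ≤ t) (ht2 : t ≤ c i.succ) : ind s z = ind t z := by
  unfold ind
  rcases lt_or_gt_of_ne hai with h | h
  · have h1 : c a.succ ≤ c i.castSucc := hc.monotone (by
      rw [Fin.le_def]; simp only [Fin.val_succ, Fin.val_castSucc]; exact h)
    rw [if_pos (by linarith), if_pos (by linarith)]
  · have h1 : c i.succ ≤ c a.castSucc := hc.monotone (by
      rw [Fin.le_def]; simp only [Fin.val_succ, Fin.val_castSucc]; exact h)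
    rw [if_neg (by linarith), if_neg (by linarith)]

lemma ind_key {D : Datum} (h : D.SOrd) (m : D.Match) {a i : Fin 4} {z x : ℝ}
    (hz1 : D.c a.castSucc < z) (hz2 : z < D.c a.succ) (hx1 : D.c i.castSucc ≤ x)
    (hx2 : x ≤ D.c i.succ) :
    ind (D.f i x) (D.f a z) - ind (D.f i (D.c i.castSucc)) (D.f a z) =
      ind x z - ind (D.c i.castSucc) z := by
  by_cases hai : a = i
  · subst hai
    unfold ind
    simp only [OrderIso.lt_iff_lt]
  · have hc0 : D.c i.castSucc ≤ D.c i.succ := (h.mono (Fin.castSucc_lt_succ)).le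
    rw [ind_other h.mono hai hz1 hz2 hx1 hx2 le_rfl hc0]
    rw [ind_other (h.bot_mono m) (pos_inj.ne hai) (z := D.f a z) (s := D.f i x)
      (t := D.f i (D.c i.castSucc))]
    · rw [sub_self, sub_self]
    · rw [← m.bot_l]; exact (D.f a).strictMono hz1
    · rw [← m.bot_r]; exact (D.f a).strictMono hz2
    · rw [← m.bot_l]; exact (D.f i).monotone hx1
    · rw [← m.bot_r]; exact (D.f i).monotone hx2
    · rw [← m.bot_l]
    · rw [← m.bot_r]; exact (D.f i).monotone hc0

lemma occ_cons (D : Datum) (i : Fin 4) (u : List (Fin 4)) (z x : ℝ) :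
    occ D (i :: u) z x = ind x z + occ D u (D.f i z) x := rfl

lemma occ_shift {D : Datum} (h : D.SOrd) (m : D.Match) (u : List (Fin 4)) (z : ℝ) (hz : Fol D u z)
    {i : Fin 4} {x : ℝ} (hx1 : D.c i.castSucc ≤ x) (hx2 : x ≤ D.c i.succ) :
    (occ D u z (D.f i x) - occ D u z (D.f i (D.c i.castSucc))) -
      (occ D u z x - occ D u z (D.c i.castSucc)) =
    (ind (D.f i x) z - ind (D.f i (D.c i.castSucc)) z) -
      (ind (D.f i x) (app D u z) - ind (D.f i (D.c i.castSucc)) (app D u z)) := by
  induction u generalizing z with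
  | nil => simp [occ, app]
  | cons a u ih =>
    obtain ⟨h1, h2, h3⟩ := hz
    have := ih _ h3
    have hk := ind_key h m h1 h2 hx1 hx2
    simp only [occ_cons, app]
    linarith

lemma ind_sub_mem {s t z : ℝ} (h : s ≤ t) : 0 ≤ ind t z - ind s z ∧ ind t z - ind s z ≤ 1 := by
  unfold ind
  by_cases h1 : z < s
  · rw [if_pos h1, if_pos (h1.trans_le h)]; norm_num
  · rw [if_neg h1]; split_ifs <;> norm_num

lemma occ_shift_abs {D : Datum} (h : D.SOrd) (m : D.Match) (u : List (Fin 4)) (z : ℝ)
    (hz : Fol D u z) {i : Fin 4} {x : ℝ} (hx1 : D.c i.castSucc ≤ x) (hx2 : x ≤ D.c i.succ) :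
    |(occ D u z (D.f i x) - occ D u z (D.f i (D.c i.castSucc))) -
      (occ D u z x - occ D u z (D.c i.castSucc))| ≤ 1 := by
  rw [occ_shift h m u z hz hx1 hx2]
  have h1 := ind_sub_mem (z := z) ((D.f i).monotone hx1)
  have h2 := ind_sub_mem (z := app D u z) ((D.f i).monotone hx1)
  rw [abs_le]
  constructor <;> linarith [h1.1, h1.2, h2.1, h2.2]

lemma occ_count {D : Datum} (h : D.SOrd) (u : List (Fin 4)) (z : ℝ) (hz : Fol D u z) (i : Fin 4) :
    occ D u z (D.c i.succ) - occ D u z (D.c i.castSucc) = List.count i u := by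
  induction u generalizing z with
  | nil => simp [occ]
  | cons a u ih =>
    obtain ⟨h1, h2, h3⟩ := hz
    have := ih _ h3
    simp only [occ_cons]
    by_cases hai : a = i
    · subst hai
      rw [List.count_cons_self]
      push_cast
      have e1 : ind (D.c a.succ) z = 1 := if_pos h2
      have e2 : ind (D.c a.castSucc) z = 0 := if_neg (by linarith)
      rw [e1, e2]
      linarith
    · rw [List.count_cons_of_ne hai]
      have hc0 : D.c i.castSucc ≤ D.c i.succ := (h.mono (Fin.castSucc_lt_succ)).le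
      have e := ind_other h.mono hai h1 h2 (s := D.c i.succ) (t := D.c i.castSucc) hc0 le_rfl
        le_rfl hc0
      rw [e]
      linarith

/-- Lengths compatible with the induction. -/
structure Lens (M N : ℕ → ℕ) (l : ℕ → Fin 4 → ℝ) : Prop where
  pos : ∀ k i, 0 < l k i
  rel : ∀ k i, l k i = ∑ b, (List.count i (sub (M k) (N k) b) : ℝ) * l (k+1) b
  tot : Tendsto (fun k => ∑ b, l k b) atTop (𝓝 0)

lemma count_flatMap (u : List (Fin 4)) (f : Fin 4 → List (Fin 4)) (i : Fin 4) :
    (List.count i (u.flatMap f) : ℝ) = ∑ b, (List.count b u : ℝ) * List.count i (f b) := by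
  induction u with
  | nil => simp
  | cons a u ih =>
    rw [List.flatMap_cons, List.count_append]
    push_cast
    rw [ih]
    have : ∀ b, (List.count b (a :: u) : ℝ) = (if a = b then 1 else 0) + List.count b u := by
      intro b
      by_cases h : a = b
      · subst h; rw [List.count_cons_self, if_pos rfl]; push_cast; ring
      · rw [List.count_cons_of_ne h, if_neg h, zero_add]
    simp only [this, add_mul, Finset.sum_add_distrib]
    congr 1
    simp

lemma Lens.count {M N : ℕ → ℕ} {l : ℕ → Fin 4 → ℝ} (h : Lens M N l) (k : ℕ) (i : Fin 4) :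
    l 0 i = ∑ b, (List.count i (Sw M N k b) : ℝ) * l k b := by
  induction k with
  | zero =>
    have : ∀ b, (List.count i (Sw M N 0 b) : ℝ) = if b = i then 1 else 0 := by
      intro b
      show ((List.count i [b] : ℕ) : ℝ) = _
      by_cases h : b = i
      · subst h; simp
      · rw [List.count_cons_of_ne h, if_neg h]; simp
    simp [this]
  | succ k ih =>
    rw [ih]
    have e : ∀ b, (List.count i (Sw M N (k+1) b) : ℝ) =
        ∑ a, (List.count a (sub (M k) (N k) b) : ℝ) * List.count i (Sw M N k a) := fun b =>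
      count_flatMap _ _ _
    simp only [e, h.rel k, Finset.mul_sum, Finset.sum_mul]
    rw [Finset.sum_comm]
    refine Finset.sum_congr rfl fun b _ => Finset.sum_congr rfl fun a _ => ?_
    ring

/-- The functional equation of a semiconjugacy. -/
structure Inv (D : Datum) (l : Fin 4 → ℝ) (h : ℝ → ℝ) : Prop where
  mono : Monotone h
  inc : ∀ i : Fin 4, h (D.c i.succ) - h (D.c i.castSucc) = l i
  eq : ∀ i : Fin 4, ∀ x y, D.c i.castSucc ≤ x → x ≤ D.c i.succ → D.c i.castSucc ≤ y →
    y ≤ D.c i.succ → h (D.f i x) - h (D.f i y) = h x - h y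

theorem Tower.exists_inv {M N : ℕ → ℕ} {D : ℕ → Datum} (t : Tower M N D) {l : ℕ → Fin 4 → ℝ}
    (hl : Lens M N l) : ∃ h, Inv (D 0) (l 0) h := by
  -- base points
  let z : ℕ → Fin 4 → ℝ := fun k b => ((D k).c b.castSucc + (D k).c b.succ) / 2
  have hz : ∀ k b, Fol (D k) [b] (z k b) := by
    intro k b
    have := (t.o k).mono (Fin.castSucc_lt_succ (i := b))
    refine ⟨?_, ?_, trivial⟩ <;> simp only [z] <;> linarith
  have hzS : ∀ k b, Fol (D 0) (Sw M N k b) (sg k (z k b)) := by
    intro k b
    have := (t.fol_Sw k [b] _ (hz k b)).1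
    simpa using this
  let H : ℕ → ℝ → ℝ := fun k x => ∑ b, l k b * occ (D 0) (Sw M N k b) (sg k (z k b)) x
  have hlen : ∀ k b, ((Sw M N k b).length : ℝ) = ∑ i, (List.count i (Sw M N k b) : ℝ) := by
    intro k b
    have : ∀ u : List (Fin 4), (u.length : ℝ) = ∑ i, (List.count i u : ℝ) := by
      intro u
      induction u with
      | nil => simp
      | cons a u ih =>
        rw [List.length_cons]
        push_cast
        rw [ih]
        have : ∀ b, (List.count b (a :: u) : ℝ) = (if a = b then 1 else 0) + List.count b u := by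
          intro b
          by_cases h : a = b
          · subst h; rw [List.count_cons_self, if_pos rfl]; push_cast; ring
          · rw [List.count_cons_of_ne h, if_neg h, zero_add]
        simp only [this, Finset.sum_add_distrib]
        simp
        ring
    exact this _
  have hH0 : ∀ k x, 0 ≤ H k x := fun k x =>
    Finset.sum_nonneg fun b _ => mul_nonneg (hl.pos k b).le (occ_nonneg _ _ _ _)
  have hH1 : ∀ k x, H k x ≤ ∑ i, l 0 i := by
    intro k x
    calc H k x ≤ ∑ b, l k b * (Sw M N k b).length :=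
          Finset.sum_le_sum fun b _ => mul_le_mul_of_nonneg_left (occ_le _ _ _ _) (hl.pos k b).le
      _ = ∑ i, l 0 i := by
        simp only [hlen, hl.count k, Finset.mul_sum]
        rw [Finset.sum_comm]
        refine Finset.sum_congr rfl fun i _ => Finset.sum_congr rfl fun b _ => ?_
        ring
  -- ultralimit
  let U : Ultrafilter ℕ := Filter.hyperfilter ℕ
  have hU : (U : Filter ℕ) ≤ atTop := by
    have := Filter.hyperfilter_le_cofinite (α := ℕ)
    rwa [Nat.cofinite_eq_atTop] at this
  have hlim : ∀ x, ∃ y, Tendsto (fun k => H k x) U (𝓝 y) := by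
    intro x
    have hc : IsCompact (Set.Icc (0:ℝ) (∑ i, l 0 i)) := isCompact_Icc
    obtain ⟨y, _, hy⟩ := hc.ultrafilter_le_nhds (U.map fun k => H k x) (by
      rw [Filter.le_principal_iff]
      apply Filter.mem_map.mpr
      exact Filter.univ_mem' (fun k => ⟨hH0 k x, hH1 k x⟩))
    exact ⟨y, hy⟩
  choose h hh using hlim
  have htot : Tendsto (fun k => ∑ b, l k b) U (𝓝 0) := hl.tot.mono_left hU
  have hmono : Monotone h := by
    intro x y hxy
    apply le_of_tendsto_of_tendsto' (hh x) (hh y)
    intro k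
    exact Finset.sum_le_sum fun b _ => mul_le_mul_of_nonneg_left (occ_mono _ _ _ hxy) (hl.pos k b).le
  have hinc : ∀ i : Fin 4, h ((D 0).c i.succ) - h ((D 0).c i.castSucc) = l 0 i := by
    intro i
    have h1 := (hh ((D 0).c i.succ)).sub (hh ((D 0).c i.castSucc))
    have h2 : (fun k => H k ((D 0).c i.succ) - H k ((D 0).c i.castSucc)) = fun _ => l 0 i := by
      funext k
      simp only [H]
      rw [← Finset.sum_sub_distrib, hl.count k i]
      refine Finset.sum_congr rfl fun b _ => ?_
      rw [← mul_sub, occ_count (t.o 0) _ _ (hzS k b) i, mul_comm]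
    rw [h2] at h1
    exact tendsto_nhds_unique h1 tendsto_const_nhds
  have heq : ∀ i : Fin 4, ∀ x, (D 0).c i.castSucc ≤ x → x ≤ (D 0).c i.succ →
      h ((D 0).f i x) - h ((D 0).f i ((D 0).c i.castSucc)) = h x - h ((D 0).c i.castSucc) := by
    intro i x hx1 hx2
    have h1 := ((hh ((D 0).f i x)).sub (hh ((D 0).f i ((D 0).c i.castSucc)))).sub
      ((hh x).sub (hh ((D 0).c i.castSucc)))
    have h2 : Tendsto (fun k => (H k ((D 0).f i x) - H k ((D 0).f i ((D 0).c i.castSucc))) -
        (H k x - H k ((D 0).c i.castSucc))) U (𝓝 0) := by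
      apply squeeze_zero_norm _ htot
      intro k
      have e : (H k ((D 0).f i x) - H k ((D 0).f i ((D 0).c i.castSucc))) -
        (H k x - H k ((D 0).c i.castSucc)) = ∑ b, l k b *
          ((occ (D 0) (Sw M N k b) (sg k (z k b)) ((D 0).f i x) -
            occ (D 0) (Sw M N k b) (sg k (z k b)) ((D 0).f i ((D 0).c i.castSucc))) -
            (occ (D 0) (Sw M N k b) (sg k (z k b)) x -
            occ (D 0) (Sw M N k b) (sg k (z k b)) ((D 0).c i.castSucc))) := by
        simp only [H, ← Finset.sum_sub_distrib]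
        refine Finset.sum_congr rfl fun b _ => ?_
        ring
      rw [e]
      refine (norm_sum_le _ _).trans (Finset.sum_le_sum fun b _ => ?_)
      rw [norm_mul, Real.norm_eq_abs, abs_of_pos (hl.pos k b), Real.norm_eq_abs]
      have := occ_shift_abs (t.o 0) (t.m 0) _ _ (hzS k b) hx1 hx2
      calc l k b * _ ≤ l k b * 1 := mul_le_mul_of_nonneg_left this (hl.pos k b).le
        _ = l k b := mul_one _
    have := tendsto_nhds_unique h1 h2
    linarith
  refine ⟨h, hmono, hinc, ?_⟩
  intro i x y hx1 hx2 hy1 hy2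
  have h1 := heq i x hx1 hx2
  have h2 := heq i y hy1 hy2
  linarith

end Datum

end Pool.Agent.H814R3
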