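import Mathlib
import Pool.Agent.H814R3.Cross
import Pool.Agent.H814R3.Meas

set_option autoImplicit false
set_option linter.unusedSectionVars false
set_option linter.unusedVariables false

/-!
Affine data: lengths of the induced datum, balance, positivity, compactness.
-/

namespace Pool.Agent.H814R3

open Filter Topology

/-- Geometric sums. -/
noncomputable def gs (r : ℝ) (n : ℕ) : ℝ := ∑ j ∈ Finset.range n, r ^ j

lemma gs_zero (r : ℝ) : gs r 0 = 0 := by simp [gs]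
lemma gs_succ (r : ℝ) (n : ℕ) : gs r (n+1) = gs r n + r ^ n := by simp [gs, Finset.sum_range_succ]
lemma gs_succ' (r : ℝ) (n : ℕ) : gs r (n+1) = r * gs r n + 1 := by
  unfold gs
  rw [Finset.sum_range_succ', Finset.mul_sum]
  simp [pow_succ']
lemma gs_mul (r : ℝ) (n : ℕ) : (r - 1) * gs r n = r ^ n - 1 := by
  induction n with
  | zero => simp [gs_zero]
  | succ n ih => rw [gs_succ, mul_add, ih]; ring
lemma gs_nonneg {r : ℝ} (hr : 0 ≤ r) (n : ℕ) : 0 ≤ gs r n :=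
  Finset.sum_nonneg fun j _ => pow_nonneg hr j
lemma gs_one_le {r : ℝ} (hr : 0 ≤ r) {n : ℕ} (hn : 1 ≤ n) : 1 ≤ gs r n := by
  obtain ⟨m, rfl⟩ : ∃ m, n = m + 1 := ⟨n - 1, by omega⟩
  rw [gs_succ']
  have := mul_nonneg hr (gs_nonneg hr m)
  linarith

/-- The auxiliary length. -/
noncomputable def ee (ρ : Fin 4 → ℝ) (M : ℕ) (x : Fin 4 → ℝ) : ℝ :=
  ρ 1 ^ M * ρ 3 * x 0 + ρ 1 ^ (M+1) * ρ 3 * x 1

/-- The lengths before the induction in terms of the lengths after it. -/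
noncomputable def Amap (ρ : Fin 4 → ℝ) (M N : ℕ) (x : Fin 4 → ℝ) : Fin 4 → ℝ :=
  ![ρ 3 * (x 2 + x 3),
    ρ 3 * (gs (ρ 1) M * (x 0 + x 1) + ρ 1 ^ M * x 1),
    gs (ρ 2) N * (ee ρ M x + ρ 0 * (ρ 3 * (x 2 + x 3))) + ρ 2 ^ N * (ee ρ M x + ρ 0 * ρ 3 * x 3),
    x 0 + x 1 + x 2 + x 3]

/-- The slopes after the induction. -/
noncomputable def nx (ρ : Fin 4 → ℝ) (M N : ℕ) : Fin 4 → ℝ :=
  ![ρ 2 ^ (N+1) * ρ 1 ^ M * ρ 3, ρ 2 ^ (N+1) * ρ 1 ^ (M+1) * ρ 3,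
    ρ 2 ^ N * ρ 0 * ρ 3, ρ 2 ^ (N+1) * ρ 0 * ρ 3]

/-- The total. -/
def tot (x : Fin 4 → ℝ) : ℝ := x 0 + x 1 + x 2 + x 3

/-- The defect of balance. -/
def bal (ρ x : Fin 4 → ℝ) : ℝ :=
  (ρ 0 - 1) * x 0 + (ρ 1 - 1) * x 1 + (ρ 2 - 1) * x 2 + (ρ 3 - 1) * x 3

section alg
variable (ρ : Fin 4 → ℝ) (M N : ℕ) (x : Fin 4 → ℝ)

lemma A0 : Amap ρ M N x 0 = ρ 3 * (x 2 + x 3) := rfl
lemma A1 : Amap ρ M N x 1 = ρ 3 * (gs (ρ 1) M * (x 0 + x 1) + ρ 1 ^ M * x 1) := rfl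
lemma A2 : Amap ρ M N x 2 = gs (ρ 2) N * (ee ρ M x + ρ 0 * (ρ 3 * (x 2 + x 3))) +
  ρ 2 ^ N * (ee ρ M x + ρ 0 * ρ 3 * x 3) := rfl
lemma A3 : Amap ρ M N x 3 = x 0 + x 1 + x 2 + x 3 := rfl

lemma ee_smul (c : ℝ) : ee ρ M (c • x) = c * ee ρ M x := by
  unfold ee; simp only [Pi.smul_apply, smul_eq_mul]; ring

lemma A_smul (c : ℝ) : Amap ρ M N (c • x) = c • Amap ρ M N x := by
  funext i
  fin_cases i
  · show Amap ρ M N (c • x) 0 = c * Amap ρ M N x 0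
    simp only [A0, Pi.smul_apply, smul_eq_mul]; ring
  · show Amap ρ M N (c • x) 1 = c * Amap ρ M N x 1
    simp only [A1, Pi.smul_apply, smul_eq_mul]; ring
  · show Amap ρ M N (c • x) 2 = c * Amap ρ M N x 2
    simp only [A2, Pi.smul_apply, smul_eq_mul, ee_smul]; ring
  · show Amap ρ M N (c • x) 3 = c * Amap ρ M N x 3
    simp only [A3, Pi.smul_apply, smul_eq_mul]; ring

lemma tot_smul (c : ℝ) : tot (c • x) = c * tot x := by
  unfold tot; simp only [Pi.smul_apply, smul_eq_mul]; ring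

lemma bal_smul (c : ℝ) : bal ρ (c • x) = c * bal ρ x := by
  unfold bal; simp only [Pi.smul_apply, smul_eq_mul]; ring

lemma bal_A : bal ρ (Amap ρ M N x) = bal (nx ρ M N) x := by
  unfold bal
  rw [A0, A1, A2, A3]
  have h1 := gs_mul (ρ 1) M
  have h2 := gs_mul (ρ 2) N
  have e0 : nx ρ M N 0 = ρ 2 ^ (N+1) * ρ 1 ^ M * ρ 3 := rfl
  have e1 : nx ρ M N 1 = ρ 2 ^ (N+1) * ρ 1 ^ (M+1) * ρ 3 := rfl
  have e2 : nx ρ M N 2 = ρ 2 ^ N * ρ 0 * ρ 3 := rfl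
  have e3 : nx ρ M N 3 = ρ 2 ^ (N+1) * ρ 0 * ρ 3 := rfl
  rw [e0, e1, e2, e3]
  unfold ee
  simp only [pow_succ]
  generalize gs (ρ 1) M = g1 at *
  generalize gs (ρ 2) N = g2 at *
  generalize ρ 1 ^ M = p1 at *
  generalize ρ 2 ^ N = p2 at *
  linear_combination (ρ 3 * (x 0 + x 1)) * h1 +
    (p1 * ρ 3 * x 0 + p1 * ρ 1 * ρ 3 * x 1 + ρ 0 * (ρ 3 * (x 2 + x 3))) * h2

lemma continuous_A : Continuous (Amap ρ M N) := by
  apply continuous_pi
  intro i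
  have h : ∀ j : Fin 4, Continuous fun x : Fin 4 → ℝ => x j := fun j => continuous_apply j
  have he : Continuous (ee ρ M) := by
    unfold ee
    exact ((continuous_const.mul (h 0)).add (continuous_const.mul (h 1)))
  fin_cases i
  · show Continuous fun x => Amap ρ M N x 0
    simp only [A0]
    exact continuous_const.mul ((h 2).add (h 3))
  · show Continuous fun x => Amap ρ M N x 1
    simp only [A1]
    exact continuous_const.mul ((continuous_const.mul ((h 0).add (h 1))).add (continuous_const.mul (h 1)))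
  · show Continuous fun x => Amap ρ M N x 2
    simp only [A2]
    exact (continuous_const.mul (he.add (continuous_const.mul (continuous_const.mul ((h 2).add (h 3)))))).add
      (continuous_const.mul (he.add (continuous_const.mul (h 3))))
  · show Continuous fun x => Amap ρ M N x 3
    simp only [A3]
    exact (((h 0).add (h 1)).add (h 2)).add (h 3)

lemma continuous_tot : Continuous tot := by
  unfold tot; fun_prop

lemma continuous_bal : Continuous (bal ρ) := by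
  unfold bal; fun_prop

end alg

section pos
variable {ρ : Fin 4 → ℝ} (hρ : ∀ i, 0 < ρ i) (M N : ℕ) {x : Fin 4 → ℝ}
include hρ

lemma nx_pos (i : Fin 4) : 0 < nx ρ M N i := by
  have h0 := hρ 0
  have h1 := hρ 1
  have h2 := hρ 2
  have h3 := hρ 3
  fin_cases i
  · exact mul_pos (mul_pos (pow_pos h2 _) (pow_pos h1 _)) h3
  · exact mul_pos (mul_pos (pow_pos h2 _) (pow_pos h1 _)) h3
  · exact mul_pos (mul_pos (pow_pos h2 _) h0) h3
  · exact mul_pos (mul_pos (pow_pos h2 _) h0) h3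

lemma ee_nonneg (hx : ∀ i, 0 ≤ x i) : 0 ≤ ee ρ M x := by
  have h1 := hρ 1
  have h3 := hρ 3
  have := hx 0
  have := hx 1
  unfold ee
  positivity

lemma A_nonneg (hx : ∀ i, 0 ≤ x i) (i : Fin 4) : 0 ≤ Amap ρ M N x i := by
  have h0 := hρ 0
  have h1 := hρ 1
  have h2 := hρ 2
  have h3 := hρ 3
  have x0 := hx 0
  have x1 := hx 1
  have x2 := hx 2
  have x3 := hx 3
  have he := ee_nonneg hρ M hx
  have g1 := gs_nonneg h1.le M
  have g2 := gs_nonneg h2.le N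
  fin_cases i
  · show 0 ≤ Amap ρ M N x 0
    rw [A0]; positivity
  · show 0 ≤ Amap ρ M N x 1
    rw [A1]; positivity
  · show 0 ≤ Amap ρ M N x 2
    rw [A2]; positivity
  · show 0 ≤ Amap ρ M N x 3
    rw [A3]; positivity

/-- Positivity when both halves are positive. -/
lemma A_pos' (hM : 1 ≤ M) (hN : 1 ≤ N) (hx : ∀ i, 0 ≤ x i) (h01 : 0 < x 0 + x 1)
    (h23 : 0 < x 2 + x 3) (i : Fin 4) : 0 < Amap ρ M N x i := by
  have h0 := hρ 0
  have h1 := hρ 1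
  have h2 := hρ 2
  have h3 := hρ 3
  have x0 := hx 0
  have x1 := hx 1
  have x2 := hx 2
  have x3 := hx 3
  have he := ee_nonneg hρ M hx
  have g1 := gs_one_le h1.le hM
  have g2 := gs_one_le h2.le hN
  fin_cases i
  · show 0 < Amap ρ M N x 0
    rw [A0]; positivity
  · show 0 < Amap ρ M N x 1
    rw [A1]
    apply mul_pos h3
    have : 0 < gs (ρ 1) M * (x 0 + x 1) := mul_pos (by linarith) h01
    have : 0 ≤ ρ 1 ^ M * x 1 := by positivity
    linarith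
  · show 0 < Amap ρ M N x 2
    rw [A2]
    have : 0 < gs (ρ 2) N * (ee ρ M x + ρ 0 * (ρ 3 * (x 2 + x 3))) :=
      mul_pos (by linarith) (by positivity)
    have : 0 ≤ ρ 2 ^ N * (ee ρ M x + ρ 0 * ρ 3 * x 3) := by positivity
    linarith
  · show 0 < Amap ρ M N x 3
    rw [A3]; linarith

lemma A_tot (hx : ∀ i, 0 ≤ x i) : tot x ≤ tot (Amap ρ M N x) := by
  have h := A_nonneg hρ M N hx
  have := h 0
  have := h 1
  have := h 2
  have e : Amap ρ M N x 3 = tot x := A3 _ _ _ _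
  show _ ≤ Amap ρ M N x 0 + Amap ρ M N x 1 + Amap ρ M N x 2 + Amap ρ M N x 3
  linarith

/-- Halves of the image are positive. -/
lemma A_half (hM : 1 ≤ M) (hx : ∀ i, 0 ≤ x i) (ht : 0 < tot x) :
    0 < Amap ρ M N x 0 + Amap ρ M N x 1 ∧ 0 < Amap ρ M N x 2 + Amap ρ M N x 3 := by
  have h1 := hρ 1
  have h3 := hρ 3
  have x0 := hx 0
  have x1 := hx 1
  have x2 := hx 2
  have x3 := hx 3
  have g1 := gs_one_le h1.le hM
  have h := A_nonneg hρ M N hx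
  constructor
  · rw [A0, A1]
    have e1 : (x 0 + x 1) ≤ gs (ρ 1) M * (x 0 + x 1) := by
      have := mul_le_mul_of_nonneg_right g1 (show 0 ≤ x 0 + x 1 by linarith)
      linarith
    have e2 : 0 ≤ ρ 1 ^ M * x 1 := by positivity
    have e3 : 0 < ρ 3 * (x 0 + x 1 + x 2 + x 3) := mul_pos h3 ht
    have e4 : ρ 3 * (x 0 + x 1) ≤ ρ 3 * (gs (ρ 1) M * (x 0 + x 1) + ρ 1 ^ M * x 1) :=
      mul_le_mul_of_nonneg_left (by linarith) h3.le
    linarith
  · have := h 2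
    rw [A3]
    unfold tot at ht
    linarith

end pos

namespace Datum

/-- The branches of `D` are affine with slopes `ρ`. -/
def Aff (ρ : Fin 4 → ℝ) (D : Datum) : Prop := ∀ i x y, D.f i y - D.f i x = ρ i * (y - x)

lemma aff_pow {g : ℝ ≃o ℝ} {r : ℝ} (h : ∀ x y, g y - g x = r * (y - x)) (n : ℕ) :
    ∀ x y, (g ^ n) y - (g ^ n) x = r ^ n * (y - x) := by
  induction n with
  | zero => intro x y; rw [pow_zero_app, pow_zero_app]; ring
  | succ n ih => intro x y; rw [pow_succ_app', pow_succ_app', h, ih]; ring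

lemma aff_orbit {g : ℝ ≃o ℝ} {r : ℝ} (h : ∀ x y, g y - g x = r * (y - x)) (n : ℕ) (x : ℝ) :
    (g ^ n) x - x = gs r n * (g x - x) := by
  induction n with
  | zero => rw [pow_zero_app, gs_zero]; ring
  | succ n ih =>
    rw [pow_succ_app', gs_succ']
    have := h x ((g ^ n) x)
    rw [ih] at this
    linarith

lemma aff_symm {g : ℝ ≃o ℝ} {r : ℝ} (hr : r ≠ 0) (h : ∀ x y, g y - g x = r * (y - x)) (x y : ℝ) :
    g.symm y - g.symm x = (y - x) / r := by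
  have := h (g.symm x) (g.symm y)
  rw [OrderIso.apply_symm_apply, OrderIso.apply_symm_apply] at this
  rw [eq_div_iff hr]
  linarith

lemma Aff.ren {ρ : Fin 4 → ℝ} {D : Datum} (h : Aff ρ D) (M N : ℕ) : Aff (nx ρ M N) (ren M N D) := by
  intro i x y
  have h2 := aff_pow (h 2)
  have h1 := aff_pow (h 1)
  fin_cases i
  · show (- (D.f 2 ^ (N+1)) ((D.f 1 ^ M) (D.f 3 (-y)))) - (- (D.f 2 ^ (N+1)) ((D.f 1 ^ M) (D.f 3 (-x)))) =
      (ρ 2 ^ (N+1) * ρ 1 ^ M * ρ 3) * (y - x)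
    have e1 := h2 (N+1) ((D.f 1 ^ M) (D.f 3 (-y))) ((D.f 1 ^ M) (D.f 3 (-x)))
    rw [h1, h 3] at e1
    linear_combination e1
  · show (- (D.f 2 ^ (N+1)) ((D.f 1 ^ (M+1)) (D.f 3 (-y)))) -
      (- (D.f 2 ^ (N+1)) ((D.f 1 ^ (M+1)) (D.f 3 (-x)))) =
      (ρ 2 ^ (N+1) * ρ 1 ^ (M+1) * ρ 3) * (y - x)
    have e1 := h2 (N+1) ((D.f 1 ^ (M+1)) (D.f 3 (-y))) ((D.f 1 ^ (M+1)) (D.f 3 (-x)))
    rw [h1, h 3] at e1
    linear_combination e1
  · show (- (D.f 2 ^ N) (D.f 0 (D.f 3 (-y)))) - (- (D.f 2 ^ N) (D.f 0 (D.f 3 (-x)))) =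
      (ρ 2 ^ N * ρ 0 * ρ 3) * (y - x)
    have e1 := h2 N (D.f 0 (D.f 3 (-y))) (D.f 0 (D.f 3 (-x)))
    rw [h 0, h 3] at e1
    linear_combination e1
  · show (- (D.f 2 ^ (N+1)) (D.f 0 (D.f 3 (-y)))) - (- (D.f 2 ^ (N+1)) (D.f 0 (D.f 3 (-x)))) =
      (ρ 2 ^ (N+1) * ρ 0 * ρ 3) * (y - x)
    have e1 := h2 (N+1) (D.f 0 (D.f 3 (-y))) (D.f 0 (D.f 3 (-x)))
    rw [h 0, h 3] at e1
    linear_combination e1

/-- Lengths of the induced affine datum. -/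
theorem len_ren {ρ : Fin 4 → ℝ} (hρ : ∀ i, 0 < ρ i) {D : Datum} (h : Aff ρ D) (m : D.Match) {M N : ℕ}
    {x : Fin 4 → ℝ} (hl : D.len = Amap ρ M N x) : (ren M N D).len = x := by
  have r0 := (hρ 0).ne'
  have r1 := (hρ 1).ne'
  have r2 := (hρ 2).ne'
  have r3 := (hρ 3).ne'
  have l0 : D.c 1 - D.c 0 = ρ 3 * (x 2 + x 3) := by
    have := congrFun hl 0
    rwa [A0] at this
  have l1 : D.c 2 - D.c 1 = ρ 3 * (gs (ρ 1) M * (x 0 + x 1) + ρ 1 ^ M * x 1) := by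
    have := congrFun hl 1
    rwa [A1] at this
  have l2 : D.c 3 - D.c 2 = gs (ρ 2) N * (ee ρ M x + ρ 0 * (ρ 3 * (x 2 + x 3))) +
      ρ 2 ^ N * (ee ρ M x + ρ 0 * ρ 3 * x 3) := by
    have := congrFun hl 2
    rwa [A2] at this
  have l3 : D.c 4 - D.c 3 = x 0 + x 1 + x 2 + x 3 := by
    have := congrFun hl 3
    rwa [A3] at this
  have m30 := m.m30
  have m31 := m.m31
  have m10 := m.m10
  have m02 := m.m02
  -- positions
  have f3c4 : D.f 1 (D.c 1) - D.c 0 = ρ 3 * (x 0 + x 1 + x 2 + x 3) := by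
    rw [← m31, ← m30, h 3, l3]
  have a1 : D.f 1 (D.c 1) - D.c 1 = ρ 3 * (x 0 + x 1) := by linarith
  have k1 : (D.f 1 ^ M) (D.c 1 + ρ 3 * x 1) = D.c 2 := by
    have e1 := aff_orbit (h 1) M (D.c 1)
    have e2 := aff_pow (h 1) M (D.c 1) (D.c 1 + ρ 3 * x 1)
    rw [a1] at e1
    linear_combination e1 + e2 - l1
  have k2 : D.f 1 (D.c 2) - D.c 2 = ee ρ M x := by
    have e1 : D.f 1 (D.c 2) = (D.f 1 ^ M) (D.f 1 (D.c 1 + ρ 3 * x 1)) := by
      rw [← k1, ← pow_succ_app', pow_succ_app]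
    have e2 := aff_pow (h 1) M (D.c 1 + ρ 3 * x 1) (D.f 1 (D.c 1 + ρ 3 * x 1))
    have e3 := h 1 (D.c 1) (D.c 1 + ρ 3 * x 1)
    rw [k1, ← e1] at e2
    rw [e2]
    have e4 : D.f 1 (D.c 1 + ρ 3 * x 1) - (D.c 1 + ρ 3 * x 1) = ρ 3 * (x 0 + ρ 1 * x 1) := by
      linear_combination e3 + a1
    rw [e4]
    unfold ee
    ring
  have k3 : D.f 0 (D.c 0) - D.c 2 = ee ρ M x := by rw [← m10]; exact k2
  have k4 : D.f 2 (D.c 2) - D.c 2 = ee ρ M x + ρ 0 * (ρ 3 * (x 2 + x 3)) := by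
    have := h 0 (D.c 0) (D.c 1)
    rw [l0] at this
    rw [← m02]
    linarith
  have k5 : (D.f 2 ^ N) (D.f 0 (D.c 0 + ρ 3 * x 3)) = D.c 3 := by
    have e1 := aff_orbit (h 2) N (D.c 2)
    rw [k4] at e1
    have e2 := aff_pow (h 2) N (D.c 2) (D.f 0 (D.c 0 + ρ 3 * x 3))
    have e3 := h 0 (D.c 0) (D.c 0 + ρ 3 * x 3)
    have e4 : D.f 0 (D.c 0 + ρ 3 * x 3) - D.c 2 = ee ρ M x + ρ 0 * ρ 3 * x 3 := by
      linear_combination e3 + k3
    rw [e4] at e2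
    linear_combination e1 + e2 - l2
  have s1 : (D.f 3).symm (D.c 1) - D.c 3 = x 2 + x 3 := by
    have := aff_symm r3 (h 3) (D.c 0) (D.c 1)
    rw [l0, mul_div_cancel_left₀ _ r3, ← m30, OrderIso.symm_apply_apply] at this
    exact this
  have s2 : (D.f 3).symm ((D.f 1 ^ M).symm (D.c 2)) - (D.f 3).symm (D.c 1) = x 1 := by
    rw [aff_symm r3 (h 3), ← k1, OrderIso.symm_apply_apply]
    field_simp
    ring
  have s3 : (D.f 3).symm ((D.f 0).symm ((D.f 2 ^ N).symm (D.c 3))) - D.c 3 = x 3 := by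
    rw [← k5, OrderIso.symm_apply_apply, OrderIso.symm_apply_apply]
    have := aff_symm r3 (h 3) (D.c 0) (D.c 0 + ρ 3 * x 3)
    rw [add_sub_cancel_left, mul_div_cancel_left₀ _ r3, ← m30, OrderIso.symm_apply_apply, m30] at this
    rw [k5]
    exact this
  funext i
  fin_cases i
  · show -(D.f 3).symm ((D.f 1 ^ M).symm (D.c 2)) - -D.c 4 = x 0
    linarith
  · show -(D.f 3).symm (D.c 1) - -(D.f 3).symm ((D.f 1 ^ M).symm (D.c 2)) = x 1
    linarith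
  · show -(D.f 3).symm ((D.f 0).symm ((D.f 2 ^ N).symm (D.c 3))) - -(D.f 3).symm (D.c 1) = x 2
    linarith
  · show -D.c 3 - -(D.f 3).symm ((D.f 0).symm ((D.f 2 ^ N).symm (D.c 3))) = x 3
    linarith

end Datum

end Pool.Agent.H814R3
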