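import Mathlib
import Pool.Agent.H814R3.Affine

set_option autoImplicit false
set_option linter.unusedSectionVars false
set_option linter.unusedVariables false

/-!
Existence of compatible sequences of lengths.
-/

namespace Pool.Agent.H814R3

open Filter Topology Set

/-- Normalized balanced lengths. -/
def QQ (ρ : Fin 4 → ℝ) : Set (Fin 4 → ℝ) := {x | (∀ i, 0 ≤ x i) ∧ tot x = 1 ∧ bal ρ x = 0}

lemma QQ_le {ρ x : Fin 4 → ℝ} (h : x ∈ QQ ρ) (i : Fin 4) : x i ≤ 1 := by
  obtain ⟨h1, h2, _⟩ := h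
  have a0 := h1 0
  have a1 := h1 1
  have a2 := h1 2
  have a3 := h1 3
  unfold tot at h2
  fin_cases i
  · show x 0 ≤ 1
    linarith
  · show x 1 ≤ 1
    linarith
  · show x 2 ≤ 1
    linarith
  · show x 3 ≤ 1
    linarith

lemma QQ_closed (ρ : Fin 4 → ℝ) : IsClosed (QQ ρ) := by
  have : QQ ρ = (⋂ i, {x | 0 ≤ x i}) ∩ ({x | tot x = 1} ∩ {x | bal ρ x = 0}) := by
    ext x; simp [QQ]
  rw [this]
  exact (isClosed_iInter fun i => isClosed_le continuous_const (continuous_apply i)).inter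
    ((isClosed_eq continuous_tot continuous_const).inter
      (isClosed_eq (continuous_bal ρ) continuous_const))

lemma QQ_compact (ρ : Fin 4 → ℝ) : IsCompact (QQ ρ) := by
  apply IsCompact.of_isClosed_subset (isCompact_univ_pi fun _ : Fin 4 => isCompact_Icc (a := (0:ℝ)) (b := 1))
    (QQ_closed ρ)
  intro x hx i _
  exact ⟨hx.1 i, QQ_le hx i⟩

/-- Normalization. -/
noncomputable def nrm (x : Fin 4 → ℝ) : Fin 4 → ℝ := (tot x)⁻¹ • x

lemma tot_nrm {x : Fin 4 → ℝ} (h : tot x ≠ 0) : tot (nrm x) = 1 := by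
  unfold nrm
  rw [tot_smul, inv_mul_cancel₀ h]

lemma nrm_smul {x : Fin 4 → ℝ} {c : ℝ} (hc : c ≠ 0) : nrm (c • x) = nrm x := by
  unfold nrm
  rw [tot_smul, smul_smul]
  congr 1
  rw [mul_inv]
  field_simp

lemma nrm_nrm (x : Fin 4 → ℝ) (h : tot x ≠ 0) : nrm (nrm x) = nrm x := by
  conv_lhs => rw [nrm, tot_nrm h, inv_one, one_smul]

lemma nrm_of_tot {x : Fin 4 → ℝ} (h : tot x = 1) : nrm x = x := by
  rw [nrm, h, inv_one, one_smul]

section seq
variable {ρ : ℕ → Fin 4 → ℝ} {M N : ℕ → ℕ} (hρ : ∀ k i, 0 < ρ k i)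
  (hs : ∀ k, ρ (k+1) = nx (ρ k) (M k) (N k))
include hρ hs

lemma A_mem (k : ℕ) {x : Fin 4 → ℝ} (hx : x ∈ QQ (ρ (k+1))) :
    1 ≤ tot (Amap (ρ k) (M k) (N k) x) ∧ nrm (Amap (ρ k) (M k) (N k) x) ∈ QQ (ρ k) := by
  have h1 : 1 ≤ tot (Amap (ρ k) (M k) (N k) x) := by
    rw [← hx.2.1]; exact A_tot (hρ k) _ _ hx.1
  refine ⟨h1, ?_, tot_nrm (by linarith), ?_⟩
  · intro i
    unfold nrm
    exact mul_nonneg (inv_nonneg.mpr (by linarith)) (A_nonneg (hρ k) _ _ hx.1 i)
  · unfold nrm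
    rw [bal_smul, bal_A, ← hs, hx.2.2, mul_zero]

theorem exists_seq (hne : ∀ k, (QQ (ρ k)).Nonempty) :
    ∃ x : ℕ → Fin 4 → ℝ, (∀ k, x k ∈ QQ (ρ k)) ∧ ∀ k,
      tot (Amap (ρ k) (M k) (N k) (x (k+1))) • x k = Amap (ρ k) (M k) (N k) (x (k+1)) := by
  choose p hp using hne
  let C : ℕ → Set (ℕ → Fin 4 → ℝ) := fun K => {x | (∀ k, x k ∈ QQ (ρ k)) ∧ ∀ k, k < K →
      tot (Amap (ρ k) (M k) (N k) (x (k+1))) • x k = Amap (ρ k) (M k) (N k) (x (k+1))}
  have hne : ∀ K, ∀ z ∈ QQ (ρ K), ∃ x ∈ C K, x K = z := by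
    intro K
    induction K with
    | zero =>
      intro z hz
      refine ⟨Function.update p 0 z, ⟨?_, ?_⟩, Function.update_self _ _ _⟩
      · intro k
        by_cases hk : k = 0
        · subst hk; rw [Function.update_self]; exact hz
        · rw [Function.update_of_ne hk]; exact hp k
      · intro k hk; exact absurd hk (Nat.not_lt_zero _)
    | succ K ih =>
      intro z hz
      obtain ⟨h1, h2⟩ := A_mem hρ hs K hz
      obtain ⟨x', hx', hx'K⟩ := ih _ h2
      refine ⟨Function.update x' (K+1) z, ⟨?_, ?_⟩, Function.update_self _ _ _⟩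
      · intro k
        by_cases hk : k = K + 1
        · subst hk; rw [Function.update_self]; exact hz
        · rw [Function.update_of_ne hk]; exact hx'.1 k
      · intro k hk
        by_cases hkK : k = K
        · subst hkK
          rw [Function.update_self, Function.update_of_ne (by omega), hx'K, nrm, smul_smul,
            mul_inv_cancel₀ (by linarith), one_smul]
        · rw [Function.update_of_ne (by omega), Function.update_of_ne (by omega)]
          exact hx'.2 k (by omega)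
  have hanti : ∀ K, C (K+1) ⊆ C K := fun K x hx => ⟨hx.1, fun k hk => hx.2 k (by omega)⟩
  have hcl : ∀ K, IsClosed (C K) := by
    intro K
    have : C K = (⋂ k, {x | x k ∈ QQ (ρ k)}) ∩ ⋂ k, ⋂ (_ : k < K),
        {x | tot (Amap (ρ k) (M k) (N k) (x (k+1))) • x k = Amap (ρ k) (M k) (N k) (x (k+1))} := by
      ext x
      simp [C]
    rw [this]
    refine (isClosed_iInter fun k => (QQ_closed _).preimage (continuous_apply k)).inter
      (isClosed_iInter fun k => isClosed_iInter fun _ => isClosed_eq ?_ ?_)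
    · exact ((continuous_tot.comp ((continuous_A _ _ _).comp (continuous_apply (k+1)))).smul
        (continuous_apply k))
    · exact (continuous_A _ _ _).comp (continuous_apply (k+1))
  have hcomp : IsCompact (C 0) := by
    apply IsCompact.of_isClosed_subset (isCompact_univ_pi fun k => QQ_compact (ρ k)) (hcl 0)
    intro x hx k _
    exact hx.1 k
  obtain ⟨x, hx⟩ := IsCompact.nonempty_iInter_of_sequence_nonempty_isCompact_isClosed C hanti
    (fun K => by obtain ⟨x, hx, _⟩ := hne K _ (hp K); exact ⟨x, hx⟩) hcomp hcl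
  rw [Set.mem_iInter] at hx
  exact ⟨x, (hx 0).1, fun k => (hx (k+1)).2 k (Nat.lt_succ_self k)⟩

theorem exists_lens (hM : ∀ k, 1 ≤ M k) (hN : ∀ k, 1 ≤ N k) (hne : ∀ k, (QQ (ρ k)).Nonempty) :
    ∃ y : ℕ → Fin 4 → ℝ, (∀ k i, 0 < y k i) ∧ (∀ k, y k = Amap (ρ k) (M k) (N k) (y (k+1))) ∧
      tot (y 0) = 1 ∧ ∀ k, bal (ρ k) (y k) = 0 := by
  obtain ⟨x, hx, hxs⟩ := exists_seq hρ hs hne
  set s : ℕ → ℝ := fun k => tot (Amap (ρ k) (M k) (N k) (x (k+1))) with hsdef
  have hs1 : ∀ k, 1 ≤ s k := fun k => (A_mem hρ hs k (hx (k+1))).1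
  have hxs' : ∀ k, x k = (s k)⁻¹ • Amap (ρ k) (M k) (N k) (x (k+1)) := by
    intro k
    rw [← hxs k, smul_smul, inv_mul_cancel₀ (by linarith [hs1 k]), one_smul]
  have hpos : ∀ k i, 0 < x k i := by
    intro k i
    have h2 := hx (k+2)
    have hh := A_half (hρ (k+1)) (M (k+1)) (N (k+1)) (hM (k+1)) h2.1 (by rw [h2.2.1]; exact one_pos)
    have e1 : ∀ j, x (k+1) j = (s (k+1))⁻¹ * Amap (ρ (k+1)) (M (k+1)) (N (k+1)) (x (k+2)) j := by
      intro j
      exact congrFun (hxs' (k+1)) j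
    have hi : 0 < (s (k+1))⁻¹ := inv_pos.mpr (by linarith [hs1 (k+1)])
    have hA := A_pos' (hρ k) (M k) (N k) (hM k) (hN k) (hx (k+1)).1
      (by rw [e1, e1, ← mul_add]; exact mul_pos hi hh.1)
      (by rw [e1, e1, ← mul_add]; exact mul_pos hi hh.2) i
    have e2 : x k i = (s k)⁻¹ * Amap (ρ k) (M k) (N k) (x (k+1)) i := congrFun (hxs' k) i
    rw [e2]
    exact mul_pos (inv_pos.mpr (by linarith [hs1 k])) hA
  have hprod : ∀ k, 0 < ∏ j ∈ Finset.range k, s j := fun k =>
    Finset.prod_pos fun j _ => by linarith [hs1 j]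
  refine ⟨fun k => (∏ j ∈ Finset.range k, s j)⁻¹ • x k, ?_, ?_, ?_, ?_⟩
  · intro k i
    exact mul_pos (inv_pos.mpr (hprod k)) (hpos k i)
  · intro k
    show (∏ j ∈ Finset.range k, s j)⁻¹ • x k =
      Amap (ρ k) (M k) (N k) ((∏ j ∈ Finset.range (k+1), s j)⁻¹ • x (k+1))
    rw [A_smul, ← hxs k, smul_smul, Finset.prod_range_succ]
    congr 1
    have := (hprod k).ne'
    have := hs1 k
    have h3 : s k ≠ 0 := by linarith
    show _ = (_ * s k)⁻¹ * s k
    rw [mul_inv, mul_assoc, inv_mul_cancel₀ h3, mul_one]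
  · show tot ((∏ j ∈ Finset.range 0, s j)⁻¹ • x 0) = 1
    simp [(hx 0).2.1]
  · intro k
    show bal (ρ k) ((∏ j ∈ Finset.range k, s j)⁻¹ • x k) = 0
    rw [bal_smul, (hx k).2.2, mul_zero]

end seq

/-- All slopes one. -/
def one4 : Fin 4 → ℝ := fun _ => 1

lemma nx_one (M N : ℕ) : nx one4 M N = one4 := by
  funext i
  fin_cases i <;> simp [nx, one4]

lemma gs_one (n : ℕ) : gs 1 n = n := by simp [gs]

lemma A_one (M N : ℕ) (x : Fin 4 → ℝ) (i : Fin 4) :
    Amap one4 M N x i = ∑ b, (List.count i (Datum.sub M N b) : ℝ) * x b := by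
  rw [Fin.sum_univ_four]
  fin_cases i
  · show Amap one4 M N x 0 = _
    rw [A0]
    simp [Datum.sub, List.count_cons, List.count_append, List.count_replicate, one4]
  · show Amap one4 M N x 1 = _
    rw [A1]
    simp [Datum.sub, List.count_cons, List.count_append, List.count_replicate, one4, gs_one]
    ring
  · show Amap one4 M N x 2 = _
    rw [A2]
    simp [Datum.sub, List.count_cons, List.count_append, List.count_replicate, one4, gs_one, ee]
    ring
  · show Amap one4 M N x 3 = _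
    rw [A3]
    simp [Datum.sub, List.count_cons, List.count_append, List.count_replicate, one4, gs_one, ee]

lemma A_one_tot (M N : ℕ) (hM : 1 ≤ M) (x : Fin 4 → ℝ) (hx : ∀ i, 0 ≤ x i) :
    2 * tot x ≤ tot (Amap one4 M N x) := by
  have x0 := hx 0
  have x1 := hx 1
  have x2 := hx 2
  have x3 := hx 3
  have h2 := A_nonneg (ρ := one4) (fun _ => one_pos) M N hx 2
  have e : tot (Amap one4 M N x) = Amap one4 M N x 0 + Amap one4 M N x 1 + Amap one4 M N x 2 +
    Amap one4 M N x 3 := rfl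
  rw [e, A0, A1, A3]
  have e1 : gs (one4 1) M = M := gs_one M
  have e3 : one4 3 = 1 := rfl
  have e1' : one4 1 = 1 := rfl
  rw [e1, e3, e1', one_pow]
  have hM' : (1:ℝ) ≤ M := by exact_mod_cast hM
  have := mul_le_mul_of_nonneg_right hM' (show 0 ≤ x 0 + x 1 by linarith)
  unfold tot
  linarith

theorem exists_Lens (M N : ℕ → ℕ) (hM : ∀ k, 1 ≤ M k) (hN : ∀ k, 1 ≤ N k) :
    ∃ l : ℕ → Fin 4 → ℝ, Datum.Lens M N l ∧ tot (l 0) = 1 ∧
      ∀ k, l k = Amap one4 (M k) (N k) (l (k+1)) := by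
  obtain ⟨y, h1, h2, h3, h4⟩ := exists_lens (ρ := fun _ => one4) (M := M) (N := N)
    (fun _ _ => one_pos) (fun k => (nx_one _ _).symm) hM hN (by
      intro k
      refine ⟨![1,0,0,0], ?_, ?_, ?_⟩
      · intro i; fin_cases i <;> simp
      · simp [tot]
      · simp [bal, one4])
  refine ⟨y, ⟨h1, ?_, ?_⟩, h3, h2⟩
  · intro k i
    rw [← A_one, ← h2]
  · have hsum : ∀ k, ∑ b, y k b = tot (y k) := by
      intro k; rw [Fin.sum_univ_four]; rfl
    have hb : ∀ k, tot (y k) ≤ (1/2)^k := by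
      intro k
      induction k with
      | zero => rw [h3, pow_zero]
      | succ k ih =>
        have := A_one_tot (M k) (N k) (hM k) (y (k+1)) (fun i => (h1 _ i).le)
        rw [← h2] at this
        rw [pow_succ]
        linarith
    have hnn : ∀ k, 0 ≤ tot (y k) := by
      intro k
      unfold tot
      linarith [h1 k 0, h1 k 1, h1 k 2, h1 k 3]
    simp only [hsum]
    exact squeeze_zero hnn hb (tendsto_pow_atTop_nhds_zero_of_lt_one (by norm_num) (by norm_num))

end Pool.Agent.H814R3
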