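import Mathlib

set_option autoImplicit false

/-!
Generalized interval exchange maps of class `C^r` on `[0,1)`, the topology of the space of these
maps, semiconjugacy to a standard interval exchange map, topological submanifolds.
-/

namespace Pool.Agent.H814R3.IEM

open Topology Set

universe u v

/-- Orientation preserving `C^r` diffeomorphisms of `[0,1]`. To have one function for each
diffeomorphism, the function is extended by `0` to the left of `0` and by `1` to the right of `1`. -/
structure UDiff (r : ℕ) where
  toFun : ℝ → ℝ
  smooth : ContDiffOn ℝ r toFun (Icc 0 1)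
  map_left : ∀ x, x ≤ 0 → toFun x = 0
  map_right : ∀ x, 1 ≤ x → toFun x = 1
  deriv_pos : ∀ x ∈ Icc (0:ℝ) 1, 0 < derivWithin toFun (Icc 0 1) x

/-- The `j`-th derivative on `[0,1]`, a continuous function, for `j ≤ r`. -/
noncomputable def UDiff.der {r : ℕ} (j : Fin (r+1)) (φ : UDiff r) : C(Icc (0:ℝ) 1, ℝ) :=
  ⟨fun x => iteratedDerivWithin j φ.toFun (Icc 0 1) x,
    continuousOn_iff_continuous_domRestrict.mp
      (φ.smooth.continuousOn_iteratedDerivWithin
        (by exact_mod_cast Nat.lt_succ_iff.mp j.2) (uniqueDiffOn_Icc one_pos))⟩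

/-- The `C^r` topology: uniform convergence on `[0,1]` of the derivatives of orders `0, …, r`. -/
noncomputable instance (r : ℕ) : TopologicalSpace (UDiff r) :=
  ⨅ j : Fin (r+1), TopologicalSpace.induced (UDiff.der j) inferInstance

/-- The combinatorial data are irreducible: for `0 < k < d`, the first `k` intervals of the upper
partition are not, as a set of letters, the first `k` intervals of the lower one. -/
def Irreducible {A : Type u} {d : ℕ} (πt πb : A ≃ Fin d) : Prop :=
  ∀ k : ℕ, 0 < k → k < d → {a | (πt a : ℕ) < k} ≠ {a | (πb a : ℕ) < k}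

/-- Generalized interval exchange maps of class `C^r` of `[0,1)` with combinatorial data `(πt, πb)`:
the endpoints `0 = top 0 < … < top d = 1` and `0 = bot 0 < … < bot d = 1` of the upper and lower
partitions and, for each letter, the branch normalized by affine maps to a diffeomorphism
of `[0,1]`. -/
structure GIEM (r : ℕ) {A : Type u} {d : ℕ} (πt πb : A ≃ Fin d) where
  top : Fin (d+1) → ℝ
  bot : Fin (d+1) → ℝ
  top_mono : StrictMono top
  bot_mono : StrictMono bot
  top_zero : top 0 = 0
  top_last : top (Fin.last d) = 1
  bot_zero : bot 0 = 0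
  bot_last : bot (Fin.last d) = 1
  br : A → UDiff r

namespace GIEM

variable {r : ℕ} {A : Type u} {d : ℕ} {πt πb : A ≃ Fin d}

/-- The topology of the space of generalized interval exchange maps: the product topology for the
partition endpoints and the branches, the latter with the `C^r` topology. -/
noncomputable instance : TopologicalSpace (GIEM r πt πb) :=
  TopologicalSpace.induced
    (fun T => ((T.top, T.bot, T.br) : (Fin (d+1) → ℝ) × (Fin (d+1) → ℝ) × (A → UDiff r)))
    inferInstance

/-- The interval `a` of the upper partition. -/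
def dom (T : GIEM r πt πb) (a : A) : Set ℝ := Ico (T.top (πt a).castSucc) (T.top (πt a).succ)

/-- The branch `a`: it maps the closure of the interval `a` of the upper partition onto the closure
of the interval `a` of the lower partition. -/
noncomputable def branch (T : GIEM r πt πb) (a : A) (x : ℝ) : ℝ :=
  T.bot (πb a).castSucc + (T.bot (πb a).succ - T.bot (πb a).castSucc) *
    (T.br a).toFun ((x - T.top (πt a).castSucc) / (T.top (πt a).succ - T.top (πt a).castSucc))

/-- The map: on the interval `a` of the upper partition it is the branch `a` (the value is `0`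
outside `[0,1)`). -/
noncomputable def map [Fintype A] (T : GIEM r πt πb) (x : ℝ) : ℝ :=
  ∑ a, (T.dom a).indicator (T.branch a) x

/-- Standard: every branch is a translation. -/
def IsStandard [Fintype A] (T : GIEM r πt πb) : Prop :=
  ∀ a, ∃ c : ℝ, ∀ x ∈ T.dom a, T.map x = x + c

/-- No connections: the forward orbits of the interior endpoints of the lower partition contain no
interior endpoint of the upper partition. -/
def NoConnections [Fintype A] (T : GIEM r πt πb) : Prop :=
  ∀ (m : ℕ) (i j : Fin (d+1)), i ≠ 0 → i ≠ Fin.last d → j ≠ 0 → j ≠ Fin.last d →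
    T.map^[m] (T.bot i) ≠ T.top j

/-- Semiconjugacy: there is a continuous nondecreasing surjection of `[0,1]`, which maps `[0,1)` to
itself, and which intertwines the two maps on `[0,1)`. -/
def SemiConj [Fintype A] (T T₀ : GIEM r πt πb) : Prop :=
  ∃ h : ℝ → ℝ, ContinuousOn h (Icc 0 1) ∧ MonotoneOn h (Icc 0 1) ∧ h '' Icc 0 1 = Icc 0 1 ∧
    ∀ x ∈ Ico (0:ℝ) 1, h x ∈ Ico (0:ℝ) 1 ∧ h (T.map x) = T₀.map (h x)

/-- The set of the generalized interval exchange maps which are semiconjugate to `T₀`. -/
def SemiClass [Fintype A] (T₀ : GIEM r πt πb) : Set (GIEM r πt πb) := {T | T.SemiConj T₀}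

end GIEM

/-- Near `x`, the set `S` is a topological submanifold of codimension `k`: there are a Banach space
`E`, an open neighbourhood `U` of `x` and a homeomorphism `φ` of `U` onto an open subset of
`E × ℝ^k` with `φ(U ∩ S) = φ(U) ∩ (E × {0})`. -/
def IsCodimAt {X : Type v} [TopologicalSpace X] (S : Set X) (k : ℕ) (x : X) : Prop :=
  ∃ (E : Type u) (_ : NormedAddCommGroup E) (_ : NormedSpace ℝ E) (_ : CompleteSpace E)
    (U : Set X) (φ : U → E × (Fin k → ℝ)), IsOpen U ∧ x ∈ U ∧ IsOpenEmbedding φ ∧
      φ '' {y | (y : X) ∈ S} = range φ ∩ {p | p.2 = 0}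

/-- `S` is a topological submanifold of codimension `k`. -/
def IsTopSubmanifold {X : Type v} [TopologicalSpace X] (S : Set X) (k : ℕ) : Prop :=
  ∀ x ∈ S, IsCodimAt.{u} S k x

end Pool.Agent.H814R3.IEM
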