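import Mathlib
import Pool.Agent.H814R3.Defs
import Pool.Agent.H814R3.Cross
import Pool.Agent.H814R3.Meas
import Pool.Agent.H814R3.Affine

set_option autoImplicit false
set_option linter.unusedSectionVars false

/-!
The datum of a generalized exchange of four intervals.
-/

namespace Pool.Agent.H814R3

open Topology Set Filter

/-- Clamping. -/
noncomputable def clp (x : ℝ) : ℝ := max 0 (min 1 x)

lemma clp_cont : Continuous clp := by unfold clp; fun_prop
lemma clp_mem (x : ℝ) : clp x ∈ Icc (0:ℝ) 1 := ⟨le_max_left _ _, max_le zero_le_one (min_le_left _ _)⟩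
lemma clp_of_mem {x : ℝ} (h : x ∈ Icc (0:ℝ) 1) : clp x = x := by
  unfold clp; rw [min_eq_right h.2, max_eq_right h.1]
lemma clp_of_le {x : ℝ} (h : x ≤ 0) : clp x = 0 := by
  unfold clp; rw [min_eq_right (by linarith), max_eq_left h]
lemma clp_of_ge {x : ℝ} (h : 1 ≤ x) : clp x = 1 := by
  unfold clp; rw [min_eq_left h, max_eq_right zero_le_one]
lemma clp_mono {x y : ℝ} (h : x ≤ y) : clp x ≤ clp y :=
  max_le_max le_rfl (min_le_min le_rfl h)
lemma clp_lip {x y : ℝ} (h : x ≤ y) : clp y - clp x ≤ y - x := by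
  unfold clp
  rcases le_total y 0 with h1 | h1
  · rw [max_eq_left ((min_le_right _ _).trans h1)]
    have := le_max_left 0 (min 1 x)
    linarith
  · rcases le_total 1 x with h2 | h2
    · rw [min_eq_left h2, min_eq_left (h2.trans h)]; linarith
    · rw [min_eq_right h2]
      have h3 : max 0 (min 1 y) ≤ y := max_le h1 (min_le_right _ _)
      have h4 := le_max_right 0 x
      linarith

/-- Joint continuity of the family gives joint continuity of the inverses. -/
lemma JC.of {P : Type*} [TopologicalSpace P] {f : P → (ℝ ≃o ℝ)}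
    (h : Continuous fun p : P × ℝ => f p.1 p.2) : JC f := by
  refine ⟨h, ?_⟩
  rw [continuous_iff_continuousAt]
  rintro ⟨t, x⟩
  rw [Metric.continuousAt_iff']
  intro ε hε
  set y := (f t).symm x with hy
  have hfy : f t y = x := (f t).apply_symm_apply x
  have h1 : Continuous fun p : P × ℝ => f p.1 (y - ε) := h.comp (continuous_fst.prodMk continuous_const)
  have h2 : Continuous fun p : P × ℝ => f p.1 (y + ε) := h.comp (continuous_fst.prodMk continuous_const)
  have e1 : ∀ᶠ p : P × ℝ in 𝓝 (t, x), f p.1 (y - ε) < p.2 := by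
    apply (isOpen_lt h1 continuous_snd).mem_nhds
    show f t (y - ε) < x
    rw [← hfy]; exact (f t).strictMono (by linarith)
  have e2 : ∀ᶠ p : P × ℝ in 𝓝 (t, x), p.2 < f p.1 (y + ε) := by
    apply (isOpen_lt continuous_snd h2).mem_nhds
    show x < f t (y + ε)
    rw [← hfy]; exact (f t).strictMono (by linarith)
  filter_upwards [e1, e2] with p hp1 hp2
  rw [Real.dist_eq, abs_lt]
  have k1 : y - ε < (f p.1).symm p.2 := (f p.1).lt_symm_apply.mpr hp1
  have k2 : (f p.1).symm p.2 < y + ε := (f p.1).symm_apply_lt.mpr hp2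
  show -ε < (f p.1).symm p.2 - y ∧ (f p.1).symm p.2 - y < ε
  constructor <;> linarith

lemma JC.inv {P : Type*} [TopologicalSpace P] {f : P → (ℝ ≃o ℝ)} (h : JC f) :
    JC (fun t => (f t).symm) := ⟨h.2, h.1⟩

lemma JC.comp {P Q : Type*} [TopologicalSpace P] [TopologicalSpace Q] {f : P → (ℝ ≃o ℝ)} (h : JC f)
    {g : Q → P} (hg : Continuous g) : JC (fun t => f (g t)) :=
  ⟨h.1.comp ((hg.comp continuous_fst).prodMk continuous_snd),
    h.2.comp ((hg.comp continuous_fst).prodMk continuous_snd)⟩

/-- Affine increasing maps. -/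
noncomputable def affI (b β : ℝ) (h : 0 < β) : ℝ ≃o ℝ where
  toFun x := b + β * x
  invFun x := (x - b) / β
  left_inv x := by field_simp; ring
  right_inv x := by field_simp; ring
  map_rel_iff' := by
    intro x y
    constructor
    · intro k
      exact le_of_mul_le_mul_left (by simpa using k) h
    · intro k
      have := mul_le_mul_of_nonneg_left k h.le
      simpa using this

lemma affI_apply (b β : ℝ) (h : 0 < β) (x : ℝ) : affI b β h x = b + β * x := rfl
lemma affI_symm_apply (b β : ℝ) (h : 0 < β) (x : ℝ) : (affI b β h).symm x = (x - b) / β := rfl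

lemma JC.affI {P : Type*} [TopologicalSpace P] {b β : P → ℝ} (hb : Continuous b) (hβ : Continuous β)
    (h : ∀ t, 0 < β t) : JC (fun t => affI (b t) (β t) (h t)) := by
  constructor
  · exact (hb.comp continuous_fst).add ((hβ.comp continuous_fst).mul continuous_snd)
  · exact (continuous_snd.sub (hb.comp continuous_fst)).div (hβ.comp continuous_fst)
      fun p => (h p.1).ne'

namespace IEM

variable {r : ℕ}

lemma UDiff.strictMonoOn (φ : UDiff r) : StrictMonoOn φ.toFun (Icc 0 1) := by
  apply strictMonoOn_of_deriv_pos (convex_Icc 0 1) φ.smooth.continuousOn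
  intro x hx
  rw [interior_Icc] at hx
  have h1 := φ.deriv_pos x ⟨hx.1.le, hx.2.le⟩
  rwa [derivWithin_of_mem_nhds (Icc_mem_nhds hx.1 hx.2)] at h1

lemma UDiff.clp (φ : UDiff r) (x : ℝ) : φ.toFun (clp x) = φ.toFun x := by
  rcases le_total x 0 with h | h
  · rw [clp_of_le h, φ.map_left x h, φ.map_left 0 le_rfl]
  · rcases le_total x 1 with h1 | h1
    · rw [clp_of_mem ⟨h, h1⟩]
    · rw [clp_of_ge h1, φ.map_right x h1, φ.map_right 1 le_rfl]

lemma UDiff.zero (φ : UDiff r) : φ.toFun 0 = 0 := φ.map_left 0 le_rfl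
lemma UDiff.one (φ : UDiff r) : φ.toFun 1 = 1 := φ.map_right 1 le_rfl

/-- Extension of a diffeomorphism of `[0,1]` by the identity. -/
noncomputable def hatF (φ : UDiff r) (x : ℝ) : ℝ := φ.toFun x + (x - Pool.Agent.H814R3.clp x)

lemma hatF_strict (φ : UDiff r) : StrictMono (hatF φ) := by
  intro x y h
  unfold hatF
  rw [← φ.clp x, ← φ.clp y]
  have h1 := clp_mono h.le
  have h2 := clp_lip h.le
  rcases eq_or_lt_of_le h1 with h3 | h3
  · rw [h3]; linarith
  · have := φ.strictMonoOn (clp_mem x) (clp_mem y) h3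
    linarith

lemma hatF_surj (φ : UDiff r) : Function.Surjective (hatF φ) := by
  intro y
  rcases le_total y 0 with h | h
  · refine ⟨y, ?_⟩
    unfold hatF
    rw [φ.map_left y h, clp_of_le h]; ring
  · rcases le_total y 1 with h1 | h1
    · have := intermediate_value_Icc (zero_le_one' ℝ) φ.smooth.continuousOn
      rw [φ.zero, φ.one] at this
      obtain ⟨x, hx, hxy⟩ := this ⟨h, h1⟩
      refine ⟨x, ?_⟩
      unfold hatF
      rw [hxy, clp_of_mem hx]; ring
    · refine ⟨y, ?_⟩
      unfold hatF
      rw [φ.map_right y h1, clp_of_ge h1]; ring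

/-- The extension as an order isomorphism. -/
noncomputable def hat (φ : UDiff r) : ℝ ≃o ℝ :=
  StrictMono.orderIsoOfSurjective (hatF φ) (hatF_strict φ) (hatF_surj φ)

lemma hat_apply (φ : UDiff r) (x : ℝ) : hat φ x = φ.toFun x + (x - Pool.Agent.H814R3.clp x) := rfl

lemma hat_of_mem (φ : UDiff r) {x : ℝ} (h : x ∈ Icc (0:ℝ) 1) : hat φ x = φ.toFun x := by
  rw [hat_apply, clp_of_mem h]; ring

lemma hat_zero (φ : UDiff r) : hat φ 0 = 0 := by
  rw [hat_of_mem φ (by simp), φ.zero]
lemma hat_one (φ : UDiff r) : hat φ 1 = 1 := by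
  rw [hat_of_mem φ (by simp), φ.one]

lemma continuous_der (j : Fin (r+1)) : Continuous (UDiff.der (r := r) j) :=
  continuous_iInf_dom continuous_induced_dom

lemma JC_hat : JC (fun φ : UDiff r => hat φ) := by
  apply JC.of
  have e : (fun p : UDiff r × ℝ => hat p.1 p.2) = fun p : UDiff r × ℝ =>
      (UDiff.der (0 : Fin (r+1)) p.1) ⟨Pool.Agent.H814R3.clp p.2, clp_mem p.2⟩ +
        (p.2 - Pool.Agent.H814R3.clp p.2) := by
    funext p
    rw [hat_apply]
    congr 1
    show p.1.toFun p.2 = iteratedDerivWithin ((0 : Fin (r+1)) : ℕ) p.1.toFun (Icc 0 1) _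
    rw [← p.1.clp]
    have : ((0 : Fin (r+1)) : ℕ) = 0 := rfl
    rw [this, iteratedDerivWithin_zero]
  rw [e]
  refine Continuous.add ?_ (continuous_snd.sub (clp_cont.comp continuous_snd))
  exact ((continuous_der (0 : Fin (r+1))).comp continuous_fst).eval
    ((clp_cont.comp continuous_snd).subtype_mk _)

/-- Slope bounds of the extension. -/
lemma hat_BL {φ : UDiff r} {η : ℝ} (hη : 0 ≤ η)
    (h : ∀ x ∈ Icc (0:ℝ) 1, |derivWithin φ.toFun (Icc 0 1) x - 1| ≤ η) (hr : 1 ≤ r) :
    BL (1 - η) (1 + η) (hat φ) := by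
  intro x y hxy
  rw [hat_apply, hat_apply, ← φ.clp x, ← φ.clp y]
  have h1 := clp_mono hxy
  have h2 := clp_lip hxy
  have hd : DifferentiableOn ℝ φ.toFun (Icc 0 1) :=
    φ.smooth.differentiableOn (by
      have : (1 : ℕ) ≤ r := hr
      exact_mod_cast Nat.one_le_iff_ne_zero.mp this)
  have hd' : DifferentiableOn ℝ (fun z => φ.toFun z - z) (Icc 0 1) := hd.sub differentiableOn_id
  have key := (convex_Icc (0:ℝ) 1).norm_image_sub_le_of_norm_derivWithin_le (f := fun z => φ.toFun z - z)
    (C := η) hd' (by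
      intro z hz
      have : derivWithin (fun z => φ.toFun z - z) (Icc 0 1) z =
          derivWithin φ.toFun (Icc 0 1) z - 1 := by
        have hu := uniqueDiffOn_Icc (zero_lt_one' ℝ) z hz
        have := ((hd z hz).hasDerivWithinAt.sub (hasDerivWithinAt_id z (Icc 0 1))).derivWithin hu
        exact this
      rw [this, Real.norm_eq_abs]
      exact h z hz) (clp_mem x) (clp_mem y)
  rw [Real.norm_eq_abs, Real.norm_eq_abs, abs_of_nonneg (show 0 ≤ Pool.Agent.H814R3.clp y -
    Pool.Agent.H814R3.clp x by linarith), abs_le] at key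
  have h3 : η * (Pool.Agent.H814R3.clp y - Pool.Agent.H814R3.clp x) ≤ η * (y - x) :=
    mul_le_mul_of_nonneg_left h2 hη
  constructor <;> linarith [key.1, key.2]

/-- The combinatorial data. -/
def πt : Fin 4 ≃ Fin 4 := Equiv.refl _

/-- The combinatorial data. -/
def πb : Fin 4 ≃ Fin 4 where
  toFun := ![2, 1, 3, 0]
  invFun := ![3, 1, 0, 2]
  left_inv := by decide
  right_inv := by decide

lemma irreducible : Irreducible πt πb := by
  intro k h1 h2 h
  have key : ∀ a : Fin 4, (πt a : ℕ) < k ↔ (πb a : ℕ) < k := by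
    intro a
    have := Set.ext_iff.mp h a
    exact this
  interval_cases k
  · have := key 0
    revert this
    decide
  · have := key 0
    revert this
    decide
  · have := key 2
    revert this
    decide

/-- The space of generalized exchanges. -/
abbrev X (r : ℕ) := GIEM r πt πb

/-- Length of the interval of the upper partition. -/
def tl (T : X r) (i : Fin 4) : ℝ := T.top i.succ - T.top i.castSucc
/-- Length of the interval of the lower partition. -/
def bl (T : X r) (i : Fin 4) : ℝ := T.bot (πb i).succ - T.bot (πb i).castSucc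

lemma tl_pos (T : X r) (i : Fin 4) : 0 < tl T i := sub_pos.mpr (T.top_mono Fin.castSucc_lt_succ)
lemma bl_pos (T : X r) (i : Fin 4) : 0 < bl T i := sub_pos.mpr (T.bot_mono Fin.castSucc_lt_succ)

/-- The datum of a map. -/
noncomputable def dat (T : X r) : Datum where
  c := T.top
  f i := affI (T.bot (πb i).castSucc) (bl T i) (bl_pos T i) *
    (hat (T.br i) * (affI (T.top i.castSucc) (tl T i) (tl_pos T i)).symm)

lemma dat_f (T : X r) (i : Fin 4) (x : ℝ) : (dat T).f i x =
    T.bot (πb i).castSucc + bl T i * hat (T.br i) ((x - T.top i.castSucc) / tl T i) := rfl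

lemma dat_c (T : X r) (i : Fin 5) : (dat T).c i = T.top i := rfl

lemma dat_l (T : X r) (i : Fin 4) : (dat T).f i (T.top i.castSucc) = T.bot (πb i).castSucc := by
  rw [dat_f, sub_self, zero_div, hat_zero]; ring

lemma dat_r (T : X r) (i : Fin 4) : (dat T).f i (T.top i.succ) = T.bot (πb i).succ := by
  have h : T.top i.succ - T.top i.castSucc = tl T i := rfl
  rw [dat_f, h, div_self (tl_pos T i).ne', hat_one]
  unfold bl; ring

lemma dat_match (T : X r) : (dat T).Match := by
  have z : T.top 0 = 0 := T.top_zero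
  have z' : T.bot 0 = 0 := T.bot_zero
  have o : T.top 4 = 1 := T.top_last
  have o' : T.bot 4 = 1 := T.bot_last
  constructor
  · show (dat T).f 3 (T.top (3 : Fin 4).castSucc) = T.top 0
    rw [dat_l, z]; exact z'
  · show (dat T).f 3 (T.top (3 : Fin 4).succ) = (dat T).f 1 (T.top (1 : Fin 4).castSucc)
    rw [dat_l, dat_r]; rfl
  · show (dat T).f 1 (T.top (1 : Fin 4).succ) = (dat T).f 0 (T.top (0 : Fin 4).castSucc)
    rw [dat_l, dat_r]; rfl
  · show (dat T).f 0 (T.top (0 : Fin 4).succ) = (dat T).f 2 (T.top (2 : Fin 4).castSucc)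
    rw [dat_l, dat_r]; rfl
  · show (dat T).f 2 (T.top (2 : Fin 4).succ) = T.top 4
    rw [dat_r, o]; exact o'

lemma dat_sord (T : X r) : (dat T).SOrd := by
  constructor
  · exact T.top_mono (show (0 : Fin 5) < 1 by decide)
  · exact T.top_mono (show (1 : Fin 5) < 2 by decide)
  · exact T.top_mono (show (2 : Fin 5) < 3 by decide)
  · exact T.top_mono (show (3 : Fin 5) < 4 by decide)

lemma continuous_triple : Continuous
    (fun T : X r => ((T.top, T.bot, T.br) : (Fin 5 → ℝ) × (Fin 5 → ℝ) × (Fin 4 → UDiff r))) :=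
  continuous_induced_dom

lemma continuous_top (j : Fin 5) : Continuous (fun T : X r => T.top j) :=
  (continuous_apply j).comp (continuous_fst.comp continuous_triple)

lemma continuous_bot (j : Fin 5) : Continuous (fun T : X r => T.bot j) :=
  (continuous_apply j).comp (continuous_fst.comp (continuous_snd.comp continuous_triple))

lemma continuous_br (i : Fin 4) : Continuous (fun T : X r => T.br i) :=
  (continuous_apply i).comp (continuous_snd.comp (continuous_snd.comp continuous_triple))

lemma continuous_tl (i : Fin 4) : Continuous (fun T : X r => tl T i) :=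
  (continuous_top _).sub (continuous_top _)

lemma continuous_bl (i : Fin 4) : Continuous (fun T : X r => bl T i) :=
  (continuous_bot _).sub (continuous_bot _)

lemma CF_dat : Datum.CF (fun T : X r => dat T) := by
  constructor
  · intro i
    exact continuous_top i
  · intro i
    exact (JC.affI (continuous_bot _) (continuous_bl i) (fun T => bl_pos T i)).mul
      ((JC_hat.comp (continuous_br i)).mul
        (JC.affI (continuous_top _) (continuous_tl i) (fun T => tl_pos T i)).inv)

lemma CF_comp {P Q : Type*} [TopologicalSpace P] [TopologicalSpace Q] {D : P → Datum}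
    (h : Datum.CF D) {g : Q → P} (hg : Continuous g) : Datum.CF (fun t => D (g t)) :=
  ⟨fun i => (h.1 i).comp hg, fun i => (h.2 i).comp hg⟩

end IEM

end Pool.Agent.H814R3
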