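import Mathlib
import Pool.Agent.H814R3.Meas

set_option autoImplicit false
set_option linter.unusedSectionVars false
set_option linter.unusedSimpArgs false

/-!
The invariant distribution function passes to the induced data and is continuous.
-/

namespace Pool.Agent.H814R3

open Filter Topology

namespace Datum

lemma Inv.along {D : Datum} {l : Fin 4 → ℝ} {h : ℝ → ℝ} (H : Inv D l h) (u : List (Fin 4)) {x y : ℝ}
    (hx : WFol D u x) (hy : WFol D u y) : h (app D u x) - h (app D u y) = h x - h y := by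
  induction u generalizing x y with
  | nil => rfl
  | cons i u ih =>
    rw [app, app, ih hx.2.2 hy.2.2]
    exact H.eq i x y hx.1 hx.2.1 hy.1 hy.2.1

lemma Inv.along_rep {D : Datum} {l : Fin 4 → ℝ} {h : ℝ → ℝ} (H : Inv D l h) (n : ℕ) (i : Fin 4)
    {x y : ℝ} (hx : WFol D (List.replicate n i) x) (hy : WFol D (List.replicate n i) y) :
    h ((D.f i ^ n) x) - h ((D.f i ^ n) y) = h x - h y := by
  have := H.along _ hx hy
  rwa [app_rep, app_rep] at this

lemma wfol_rep_le {D : Datum} {n m : ℕ} {i : Fin 4} {x : ℝ} (h : WFol D (List.replicate n i) x)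
    (hmn : m ≤ n) : WFol D (List.replicate m i) x := by
  obtain ⟨j, rfl⟩ := Nat.exists_eq_add_of_le hmn
  rw [List.replicate_add, wfol_append] at h
  exact h.1

lemma Inv.pow_mul {D : Datum} {l : Fin 4 → ℝ} {h : ℝ → ℝ} (H : Inv D l h) (n : ℕ) (i : Fin 4)
    {x : ℝ} (hx : WFol D (List.replicate n i) x) (hy : WFol D (List.replicate n i) (D.f i x)) :
    h ((D.f i ^ n) x) - h x = n * (h (D.f i x) - h x) := by
  induction n with
  | zero => simp [pow_zero_app]
  | succ n ih =>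
    have h1 := ih (wfol_rep_le hx (Nat.le_succ n)) (wfol_rep_le hy (Nat.le_succ n))
    have h2 := H.along_rep n i (wfol_rep_le hy (Nat.le_succ n)) (wfol_rep_le hx (Nat.le_succ n))
    rw [pow_succ_app]
    push_cast
    linarith

section step
variable {M N : ℕ} {D : Datum} (s : Step M N D) {l : Fin 4 → ℝ} {h : ℝ → ℝ} (H : Inv D l h)
include s H

lemma Inv.p43 : h ((D.f 2 ^ N).symm (D.c 3)) - h (D.f 0 (D.c 0)) =
    h ((D.f 3).symm ((D.f 0).symm ((D.f 2 ^ N).symm (D.c 3)))) - h (D.c 3) := by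
  have h1 := H.eq 0 ((D.f 0).symm ((D.f 2 ^ N).symm (D.c 3))) (D.c 0) s.c0w0.le s.w0c1.le le_rfl
    s.o.h0.le
  rw [OrderIso.apply_symm_apply] at h1
  have h2 := H.eq 3 ((D.f 3).symm ((D.f 0).symm ((D.f 2 ^ N).symm (D.c 3)))) (D.c 3) s.c3p43.le
    (s.p43p32.trans (s.p32p21.trans s.p21c4)).le le_rfl s.o.h3.le
  rw [OrderIso.apply_symm_apply, s.m.m30] at h2
  linarith

lemma Inv.p32 : h (D.c 1) - h (D.c 0) = h ((D.f 3).symm (D.c 1)) - h (D.c 3) := by
  have h2 := H.eq 3 ((D.f 3).symm (D.c 1)) (D.c 3) (s.c3p43.trans s.p43p32).le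
    (s.p32p21.trans s.p21c4).le le_rfl s.o.h3.le
  rw [OrderIso.apply_symm_apply, s.m.m30] at h2
  exact h2

lemma Inv.w1 : h ((D.f 1 ^ M).symm (D.c 2)) - h (D.c 1) =
    h ((D.f 3).symm ((D.f 1 ^ M).symm (D.c 2))) - h ((D.f 3).symm (D.c 1)) := by
  have h2 := H.eq 3 ((D.f 3).symm ((D.f 1 ^ M).symm (D.c 2))) ((D.f 3).symm (D.c 1))
    (s.c3p43.trans (s.p43p32.trans s.p32p21)).le s.p21c4.le (s.c3p43.trans s.p43p32).le
    (s.p32p21.trans s.p21c4).le
  rw [OrderIso.apply_symm_apply, OrderIso.apply_symm_apply] at h2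
  exact h2

lemma Inv.v1 : h (D.f 1 (D.c 1)) - h (D.c 1) = h (D.c 4) - h ((D.f 3).symm (D.c 1)) := by
  have h2 := H.eq 3 (D.c 4) ((D.f 3).symm (D.c 1)) s.o.h3.le le_rfl
    (s.c3p43.trans s.p43p32).le (s.p32p21.trans s.p21c4).le
  rw [OrderIso.apply_symm_apply, s.m.m31] at h2
  exact h2

lemma Inv.c2 : h (D.c 2) - h ((D.f 1 ^ M) (D.c 1)) =
    h ((D.f 1 ^ M).symm (D.c 2)) - h (D.c 1) := by
  have h2 := H.along_rep M 1 (x := (D.f 1 ^ M).symm (D.c 2)) (y := D.c 1)
    (s.W1 s.c1w.le s.wfw.le) (s.W1 le_rfl (s.c1w.le.trans s.wfw.le))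
  rw [OrderIso.apply_symm_apply] at h2
  exact h2

lemma Inv.e1 : h ((D.f 1 ^ (M+1)) (D.c 1)) - h (D.c 2) =
    h (D.c 4) - h ((D.f 3).symm ((D.f 1 ^ M).symm (D.c 2))) := by
  have h2 := H.along_rep M 1 (x := D.f 1 (D.c 1)) (y := (D.f 1 ^ M).symm (D.c 2))
    (s.W1 s.c1v1.le ((D.f 1).monotone s.c1w.le)) (s.W1 s.c1w.le s.wfw.le)
  rw [OrderIso.apply_symm_apply, ← pow_succ_app] at h2
  have h3 := H.v1 s
  have h4 := H.w1 s
  linarith

lemma Inv.v2e : h (D.f 0 (D.c 0)) - h ((D.f 1 ^ (M+1)) (D.c 1)) =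
    h (D.c 2) - h ((D.f 1 ^ M) (D.c 1)) := by
  have hc1 : D.c 1 ≤ (D.f 1 ^ M) (D.c 1) := by
    have := chain_mono (D.f 1) s.c1v1.le (i := 0) (j := M) (by omega)
    rwa [pow_zero_app] at this
  have h2 := H.eq 1 (D.c 2) ((D.f 1 ^ M) (D.c 1)) s.o.h1.le le_rfl hc1 s.F1.le
  rw [s.m.m10, ← pow_succ_app'] at h2
  exact h2

lemma Inv.v3v2 : h (D.f 2 (D.c 2)) - h (D.f 0 (D.c 0)) = h (D.c 1) - h (D.c 0) := by
  have h2 := H.eq 0 (D.c 1) (D.c 0) s.o.h0.le le_rfl le_rfl s.o.h0.le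
  rw [s.m.m02] at h2
  exact h2

lemma Inv.c3 : h (D.c 3) - h ((D.f 2 ^ N) (D.f 0 (D.c 0))) =
    h ((D.f 2 ^ N).symm (D.c 3)) - h (D.f 0 (D.c 0)) := by
  have h2 := H.along_rep N 2 (x := (D.f 2 ^ N).symm (D.c 3)) (y := D.f 0 (D.c 0))
    (wfol_rep_le s.W2w3 (Nat.le_succ N)) (wfol_rep_le (s.W2 s.c2v2.le le_rfl) (Nat.le_succ N))
  rw [OrderIso.apply_symm_apply] at h2
  exact h2

lemma Inv.v2c2 : h ((D.f 2 ^ N) (D.f 0 (D.c 0))) - h ((D.f 2 ^ N) (D.c 2)) =
    h (D.f 0 (D.c 0)) - h (D.c 2) :=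
  H.along_rep N 2 (wfol_rep_le (s.W2 s.c2v2.le le_rfl) (Nat.le_succ N))
    (wfol_rep_le (s.W2 le_rfl s.c2v2.le) (Nat.le_succ N))

/-- Passing to the induced datum. -/
theorem Inv.ren {l' : Fin 4 → ℝ}
    (hl : ∀ i, l i = ∑ b, (List.count i (sub M N b) : ℝ) * l' b) :
    Inv (ren M N D) l' (fun x => -h (-x)) := by
  refine ⟨?_, ?_, ?_⟩
  · intro x y hxy
    have := H.mono (neg_le_neg hxy)
    simp only
    linarith
  · have a0 : l 0 = l' 2 + l' 3 := by
      rw [hl 0, Fin.sum_univ_four]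
      have c0 : List.count (0 : Fin 4) (sub M N 0) = 0 := by
        simp [sub, List.count_cons, List.count_append, List.count_replicate]
      have c1 : List.count (0 : Fin 4) (sub M N 1) = 0 := by
        simp [sub, List.count_cons, List.count_append, List.count_replicate]
      have c2 : List.count (0 : Fin 4) (sub M N 2) = 1 := by
        simp [sub, List.count_cons, List.count_replicate]
      have c3 : List.count (0 : Fin 4) (sub M N 3) = 1 := by
        simp [sub, List.count_cons, List.count_replicate]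
      rw [c0, c1, c2, c3]; push_cast; ring
    have a1 : l 1 = M * l' 0 + (M+1) * l' 1 := by
      rw [hl 1, Fin.sum_univ_four]
      have c0 : List.count (1 : Fin 4) (sub M N 0) = M := by
        simp [sub, List.count_cons, List.count_append, List.count_replicate]
      have c1 : List.count (1 : Fin 4) (sub M N 1) = M + 1 := by
        simp [sub, List.count_cons, List.count_append, List.count_replicate]
      have c2 : List.count (1 : Fin 4) (sub M N 2) = 0 := by
        simp [sub, List.count_cons, List.count_replicate]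
      have c3 : List.count (1 : Fin 4) (sub M N 3) = 0 := by
        simp [sub, List.count_cons, List.count_replicate]
      rw [c0, c1, c2, c3]; push_cast; ring
    have a2 : l 2 = (N+1) * l' 0 + (N+1) * l' 1 + N * l' 2 + (N+1) * l' 3 := by
      rw [hl 2, Fin.sum_univ_four]
      have c0 : List.count (2 : Fin 4) (sub M N 0) = N + 1 := by
        simp [sub, List.count_cons, List.count_append, List.count_replicate]
      have c1 : List.count (2 : Fin 4) (sub M N 1) = N + 1 := by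
        simp [sub, List.count_cons, List.count_append, List.count_replicate]
      have c2 : List.count (2 : Fin 4) (sub M N 2) = N := by
        simp [sub, List.count_cons, List.count_replicate]
      have c3 : List.count (2 : Fin 4) (sub M N 3) = N + 1 := by
        simp [sub, List.count_cons, List.count_replicate]
      rw [c0, c1, c2, c3]; push_cast; ring
    have a3 : l 3 = l' 0 + l' 1 + l' 2 + l' 3 := by
      rw [hl 3, Fin.sum_univ_four]
      have c0 : List.count (3 : Fin 4) (sub M N 0) = 1 := by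
        simp [sub, List.count_cons, List.count_append, List.count_replicate]
      have c1 : List.count (3 : Fin 4) (sub M N 1) = 1 := by
        simp [sub, List.count_cons, List.count_append, List.count_replicate]
      have c2 : List.count (3 : Fin 4) (sub M N 2) = 1 := by
        simp [sub, List.count_cons, List.count_replicate]
      have c3 : List.count (3 : Fin 4) (sub M N 3) = 1 := by
        simp [sub, List.count_cons, List.count_replicate]
      rw [c0, c1, c2, c3]; push_cast; ring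
    have i0 : h (D.c 1) - h (D.c 0) = l 0 := H.inc 0
    have i1 : h (D.c 2) - h (D.c 1) = l 1 := H.inc 1
    have i2 : h (D.c 3) - h (D.c 2) = l 2 := H.inc 2
    have i3 : h (D.c 4) - h (D.c 3) = l 3 := H.inc 3
    have k1 := H.p43 s
    have k2 := H.p32 s
    have k3 := H.w1 s
    have k4 := H.v1 s
    have k5 := H.c2 s
    have k6 := H.e1 s
    have k7 := H.v2e s
    have k8 := H.v3v2 s
    have k9 := H.c3 s
    have k10 := H.v2c2 s
    have k11 := H.pow_mul M 1 (x := D.c 1) (s.W1 le_rfl (s.c1w.le.trans s.wfw.le))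
      (s.W1 s.c1v1.le ((D.f 1).monotone s.c1w.le))
    have k12 := H.pow_mul N 2 (x := D.c 2)
      (wfol_rep_le (s.W2 le_rfl s.c2v2.le) (Nat.le_succ N))
      (s.W2' s.c2v3.le ((D.f 2).monotone s.c2v2.le))
    rw [k4] at k11
    set P43 := h ((D.f 3).symm ((D.f 0).symm ((D.f 2 ^ N).symm (D.c 3)))) with hP43
    set P32 := h ((D.f 3).symm (D.c 1)) with hP32
    set P21 := h ((D.f 3).symm ((D.f 1 ^ M).symm (D.c 2))) with hP21
    -- increments
    have e01 : h (D.c 4) - P32 = l' 0 + l' 1 := by linarith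
    have e1 : P21 - P32 = l' 1 := by
      rw [e01] at k11
      have : (M : ℝ) * (l' 0 + l' 1) = M * l' 0 + M * l' 1 := by ring
      linarith
    have e0 : h (D.c 4) - P21 = l' 0 := by linarith
    have e23 : P32 - h (D.c 3) = l' 2 + l' 3 := by linarith
    have eA : h (D.f 2 (D.c 2)) - h (D.c 2) = l' 0 + l' 1 + l' 2 + l' 3 := by linarith
    have e3 : P43 - h (D.c 3) = l' 3 := by
      rw [eA] at k12
      have : (N : ℝ) * (l' 0 + l' 1 + l' 2 + l' 3) = N * l' 0 + N * l' 1 + N * l' 2 + N * l' 3 := by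
        ring
      linarith
    have e2 : P32 - P43 = l' 2 := by linarith
    intro i
    fin_cases i
    · show -h (- -(D.f 3).symm ((D.f 1 ^ M).symm (D.c 2))) - -h (- -D.c 4) = l' 0
      rw [neg_neg, neg_neg, ← hP21]
      linarith
    · show -h (- -(D.f 3).symm (D.c 1)) - -h (- -(D.f 3).symm ((D.f 1 ^ M).symm (D.c 2))) = l' 1
      rw [neg_neg, neg_neg, ← hP21, ← hP32]
      linarith
    · show -h (- -(D.f 3).symm ((D.f 0).symm ((D.f 2 ^ N).symm (D.c 3)))) -
        -h (- -(D.f 3).symm (D.c 1)) = l' 2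
      rw [neg_neg, neg_neg, ← hP43, ← hP32]
      linarith
    · show -h (- -D.c 3) - -h (- -(D.f 3).symm ((D.f 0).symm ((D.f 2 ^ N).symm (D.c 3)))) = l' 3
      rw [neg_neg, neg_neg, ← hP43]
      linarith
  · intro i x y hx1 hx2 hy1 hy2
    have h1 := H.along (sub M N i) (s.Wall i (neg_le_neg hx2) (neg_le_neg hx1))
      (s.Wall i (neg_le_neg hy2) (neg_le_neg hy1))
    rw [app_sub, app_sub] at h1
    linarith

end step

/-- Left and right jumps at most `ε`. -/
def jl (h : ℝ → ℝ) (x ε : ℝ) : Prop := ∃ y < x, h x - h y ≤ ε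
def jr (h : ℝ → ℝ) (x ε : ℝ) : Prop := ∃ y > x, h y - h x ≤ ε

def JL (D : Datum) (h : ℝ → ℝ) (ε : ℝ) : Prop := ∀ x, D.c 0 < x → x ≤ D.c 4 → jl h x ε
def JR (D : Datum) (h : ℝ → ℝ) (ε : ℝ) : Prop := ∀ x, D.c 0 ≤ x → x < D.c 4 → jr h x ε

lemma Inv.jl {D : Datum} {l : Fin 4 → ℝ} {h : ℝ → ℝ} (H : Inv D l h) (i : Fin 4) {x ε : ℝ}
    (h1 : D.c i.castSucc < x) (h2 : x ≤ D.c i.succ) (hj : jl h x ε) : jl h (D.f i x) ε := by
  obtain ⟨y, hy, hyε⟩ := hj
  refine ⟨D.f i (max y (D.c i.castSucc)), (D.f i).strictMono (max_lt hy h1), ?_⟩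
  rw [H.eq i x _ h1.le h2 (le_max_right _ _) ((max_lt hy h1).le.trans h2)]
  have := H.mono (le_max_left y (D.c i.castSucc))
  linarith

lemma Inv.jr {D : Datum} {l : Fin 4 → ℝ} {h : ℝ → ℝ} (H : Inv D l h) (i : Fin 4) {x ε : ℝ}
    (h1 : D.c i.castSucc ≤ x) (h2 : x < D.c i.succ) (hj : jr h x ε) : jr h (D.f i x) ε := by
  obtain ⟨y, hy, hyε⟩ := hj
  refine ⟨D.f i (min y (D.c i.succ)), (D.f i).strictMono (lt_min hy h2), ?_⟩
  rw [H.eq i _ x (h1.trans (lt_min hy h2).le) (min_le_right _ _) h1 h2.le]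
  have := H.mono (min_le_left y (D.c i.succ))
  linarith

section jumps
variable {M N : ℕ} {D : Datum} (s : Step M N D) {l : Fin 4 → ℝ} {h : ℝ → ℝ} (H : Inv D l h) {ε : ℝ}
include s H

lemma JL_of_ren (hR : JR (ren M N D) (fun x => -h (-x)) ε) : JL D h ε := by
  have L3 : ∀ x, D.c 3 < x → x ≤ D.c 4 → jl h x ε := by
    intro x h1 h2
    obtain ⟨y, hy, hyε⟩ := hR (-x) (by rw [ren_c0]; linarith) (by rw [ren_c4]; linarith)
    refine ⟨-y, by linarith, ?_⟩
    simp only [neg_neg] at hyε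
    linarith
  have La : ∀ x, D.c 0 < x → x ≤ D.f 1 (D.c 1) → jl h x ε := by
    intro x h1 h2
    have h3 : D.c 3 < (D.f 3).symm x := by rw [OrderIso.lt_symm_apply, s.m.m30]; exact h1
    have h4 : (D.f 3).symm x ≤ D.c 4 := by rw [OrderIso.symm_apply_le, s.m.m31]; exact h2
    have := H.jl 3 h3 h4 (L3 _ h3 h4)
    rwa [OrderIso.apply_symm_apply] at this
  have L1 : ∀ j : ℕ, ∀ x, D.c 1 < x → x ≤ D.c 2 → x ≤ (D.f 1 ^ (j+1)) (D.c 1) → jl h x ε := by
    intro j
    induction j with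
    | zero =>
      intro x h1 _ h3
      rw [zero_add, pow_one] at h3
      exact La x (s.o.h0.trans h1) h3
    | succ j ih =>
      intro x h1 h2 h3
      rcases le_or_gt x (D.f 1 (D.c 1)) with h4 | h4
      · exact La x (s.o.h0.trans h1) h4
      · have h5 : D.c 1 < (D.f 1).symm x := by rw [OrderIso.lt_symm_apply]; exact h4
        have h6 : (D.f 1).symm x ≤ D.c 2 := by
          rw [OrderIso.symm_apply_le, s.m.m10]; exact h2.trans s.c2v2.le
        have h7 : (D.f 1).symm x ≤ (D.f 1 ^ (j+1)) (D.c 1) := by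
          rw [OrderIso.symm_apply_le, ← pow_succ_app']; exact h3
        have := H.jl 1 h5 h6 (ih _ h5 h6 h7)
        rwa [OrderIso.apply_symm_apply] at this
  have Lb : ∀ x, D.c 1 < x → x ≤ D.c 2 → jl h x ε := fun x h1 h2 =>
    L1 M x h1 h2 (h2.trans s.F2.le)
  have Lc : ∀ x, D.c 0 < x → x ≤ D.f 0 (D.c 0) → jl h x ε := by
    intro x h1 h2
    rcases le_or_gt x (D.f 1 (D.c 1)) with h4 | h4
    · exact La x h1 h4
    · have h5 : D.c 1 < (D.f 1).symm x := by rw [OrderIso.lt_symm_apply]; exact h4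
      have h6 : (D.f 1).symm x ≤ D.c 2 := by
        rw [OrderIso.symm_apply_le, s.m.m10]; exact h2
      have := H.jl 1 h5 h6 (Lb _ h5 h6)
      rwa [OrderIso.apply_symm_apply] at this
  have Ld : ∀ x, D.c 0 < x → x ≤ D.f 2 (D.c 2) → jl h x ε := by
    intro x h1 h2
    rcases le_or_gt x (D.f 0 (D.c 0)) with h4 | h4
    · exact Lc x h1 h4
    · have h5 : D.c 0 < (D.f 0).symm x := by rw [OrderIso.lt_symm_apply]; exact h4
      have h6 : (D.f 0).symm x ≤ D.c 1 := by
        rw [OrderIso.symm_apply_le, s.m.m02]; exact h2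
      have := H.jl 0 h5 h6 (La _ h5 (h6.trans s.c1v1.le))
      rwa [OrderIso.apply_symm_apply] at this
  have L2 : ∀ j : ℕ, ∀ x, D.c 2 < x → x ≤ D.c 3 → x ≤ (D.f 2 ^ (j+1)) (D.c 2) → jl h x ε := by
    intro j
    induction j with
    | zero =>
      intro x h1 _ h3
      rw [zero_add, pow_one] at h3
      exact Ld x (s.o.h0.trans (s.o.h1.trans h1)) h3
    | succ j ih =>
      intro x h1 h2 h3
      rcases le_or_gt x (D.f 2 (D.c 2)) with h4 | h4
      · exact Ld x (s.o.h0.trans (s.o.h1.trans h1)) h4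
      · have h5 : D.c 2 < (D.f 2).symm x := by rw [OrderIso.lt_symm_apply]; exact h4
        have h6 : (D.f 2).symm x ≤ D.c 3 := by
          rw [OrderIso.symm_apply_le, s.m.m24]; exact h2.trans s.o.h3.le
        have h7 : (D.f 2).symm x ≤ (D.f 2 ^ (j+1)) (D.c 2) := by
          rw [OrderIso.symm_apply_le, ← pow_succ_app']; exact h3
        have := H.jl 2 h5 h6 (ih _ h5 h6 h7)
        rwa [OrderIso.apply_symm_apply] at this
  intro x h1 h2
  rcases le_or_gt x (D.f 2 (D.c 2)) with h4 | h4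
  · exact Ld x h1 h4
  · rcases le_or_gt x (D.c 3) with h5 | h5
    · exact L2 N x (s.c2v3.trans h4) h5 (h5.trans s.F3.le)
    · exact L3 x h5 h2

lemma JR_of_ren (hR : JL (ren M N D) (fun x => -h (-x)) ε) : JR D h ε := by
  have L3 : ∀ x, D.c 3 ≤ x → x < D.c 4 → jr h x ε := by
    intro x h1 h2
    obtain ⟨y, hy, hyε⟩ := hR (-x) (by rw [ren_c0]; linarith) (by rw [ren_c4]; linarith)
    refine ⟨-y, by linarith, ?_⟩
    simp only [neg_neg] at hyε
    linarith
  have La : ∀ x, D.c 0 ≤ x → x < D.f 1 (D.c 1) → jr h x ε := by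
    intro x h1 h2
    have h3 : D.c 3 ≤ (D.f 3).symm x := by rw [OrderIso.le_symm_apply, s.m.m30]; exact h1
    have h4 : (D.f 3).symm x < D.c 4 := by rw [OrderIso.symm_apply_lt, s.m.m31]; exact h2
    have := H.jr 3 h3 h4 (L3 _ h3 h4)
    rwa [OrderIso.apply_symm_apply] at this
  have L1 : ∀ j : ℕ, ∀ x, D.c 1 ≤ x → x < D.c 2 → x < (D.f 1 ^ (j+1)) (D.c 1) → jr h x ε := by
    intro j
    induction j with
    | zero =>
      intro x h1 _ h3
      rw [zero_add, pow_one] at h3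
      exact La x (s.o.h0.le.trans h1) h3
    | succ j ih =>
      intro x h1 h2 h3
      rcases lt_or_ge x (D.f 1 (D.c 1)) with h4 | h4
      · exact La x (s.o.h0.le.trans h1) h4
      · have h5 : D.c 1 ≤ (D.f 1).symm x := by rw [OrderIso.le_symm_apply]; exact h4
        have h6 : (D.f 1).symm x < D.c 2 := by
          rw [OrderIso.symm_apply_lt, s.m.m10]; exact h2.trans s.c2v2
        have h7 : (D.f 1).symm x < (D.f 1 ^ (j+1)) (D.c 1) := by
          rw [OrderIso.symm_apply_lt, ← pow_succ_app']; exact h3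
        have := H.jr 1 h5 h6 (ih _ h5 h6 h7)
        rwa [OrderIso.apply_symm_apply] at this
  have Lb : ∀ x, D.c 1 ≤ x → x < D.c 2 → jr h x ε := fun x h1 h2 =>
    L1 M x h1 h2 (h2.trans s.F2)
  have Lc : ∀ x, D.c 0 ≤ x → x < D.f 0 (D.c 0) → jr h x ε := by
    intro x h1 h2
    rcases lt_or_ge x (D.f 1 (D.c 1)) with h4 | h4
    · exact La x h1 h4
    · have h5 : D.c 1 ≤ (D.f 1).symm x := by rw [OrderIso.le_symm_apply]; exact h4
      have h6 : (D.f 1).symm x < D.c 2 := by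
        rw [OrderIso.symm_apply_lt, s.m.m10]; exact h2
      have := H.jr 1 h5 h6 (Lb _ h5 h6)
      rwa [OrderIso.apply_symm_apply] at this
  have Ld : ∀ x, D.c 0 ≤ x → x < D.f 2 (D.c 2) → jr h x ε := by
    intro x h1 h2
    rcases lt_or_ge x (D.f 0 (D.c 0)) with h4 | h4
    · exact Lc x h1 h4
    · have h5 : D.c 0 ≤ (D.f 0).symm x := by rw [OrderIso.le_symm_apply]; exact h4
      have h6 : (D.f 0).symm x < D.c 1 := by
        rw [OrderIso.symm_apply_lt, s.m.m02]; exact h2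
      have := H.jr 0 h5 h6 (La _ h5 (h6.trans s.c1v1))
      rwa [OrderIso.apply_symm_apply] at this
  have L2 : ∀ j : ℕ, ∀ x, D.c 2 ≤ x → x < D.c 3 → x < (D.f 2 ^ (j+1)) (D.c 2) → jr h x ε := by
    intro j
    induction j with
    | zero =>
      intro x h1 _ h3
      rw [zero_add, pow_one] at h3
      exact Ld x (s.o.h0.le.trans (s.o.h1.le.trans h1)) h3
    | succ j ih =>
      intro x h1 h2 h3
      rcases lt_or_ge x (D.f 2 (D.c 2)) with h4 | h4
      · exact Ld x (s.o.h0.le.trans (s.o.h1.le.trans h1)) h4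
      · have h5 : D.c 2 ≤ (D.f 2).symm x := by rw [OrderIso.le_symm_apply]; exact h4
        have h6 : (D.f 2).symm x < D.c 3 := by
          rw [OrderIso.symm_apply_lt, s.m.m24]; exact h2.trans s.o.h3
        have h7 : (D.f 2).symm x < (D.f 2 ^ (j+1)) (D.c 2) := by
          rw [OrderIso.symm_apply_lt, ← pow_succ_app']; exact h3
        have := H.jr 2 h5 h6 (ih _ h5 h6 h7)
        rwa [OrderIso.apply_symm_apply] at this
  intro x h1 h2
  rcases lt_or_ge x (D.f 2 (D.c 2)) with h4 | h4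
  · exact Ld x h1 h4
  · rcases lt_or_ge x (D.c 3) with h5 | h5
    · exact L2 N x (s.c2v3.le.trans h4) h5 (h5.trans s.F3)
    · exact L3 x h5 h2

end jumps

lemma Tower.shift {M N : ℕ → ℕ} {D : ℕ → Datum} (t : Tower M N D) :
    Tower (fun k => M (k+1)) (fun k => N (k+1)) (fun k => D (k+1)) :=
  ⟨fun k => t.hM _, fun k => t.hN _, fun k => t.succ _, fun k => t.m _, fun k => t.o _⟩

lemma Lens.shift {M N : ℕ → ℕ} {l : ℕ → Fin 4 → ℝ} (h : Lens M N l) :
    Lens (fun k => M (k+1)) (fun k => N (k+1)) (fun k => l (k+1)) :=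
  ⟨fun k => h.pos _, fun k => h.rel _, h.tot.comp (tendsto_add_atTop_nat 1)⟩

lemma Inv.total {D : Datum} {l : Fin 4 → ℝ} {h : ℝ → ℝ} (H : Inv D l h) :
    h (D.c 4) - h (D.c 0) = ∑ b, l b := by
  rw [Fin.sum_univ_four]
  have i0 : h (D.c 1) - h (D.c 0) = l 0 := H.inc 0
  have i1 : h (D.c 2) - h (D.c 1) = l 1 := H.inc 1
  have i2 : h (D.c 3) - h (D.c 2) = l 2 := H.inc 2
  have i3 : h (D.c 4) - h (D.c 3) = l 3 := H.inc 3
  linarith

theorem small_jumps (k : ℕ) : ∀ (M N : ℕ → ℕ) (D : ℕ → Datum) (l : ℕ → Fin 4 → ℝ) (h : ℝ → ℝ),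
    Tower M N D → Lens M N l → Inv (D 0) (l 0) h →
    JL (D 0) h (∑ b, l k b) ∧ JR (D 0) h (∑ b, l k b) := by
  induction k with
  | zero =>
    intro M N D l h t hl H
    have ht := H.total
    constructor
    · intro x h1 h2
      refine ⟨(D 0).c 0, h1, ?_⟩
      have := H.mono h2
      linarith
    · intro x h1 h2
      refine ⟨(D 0).c 4, h2, ?_⟩
      have := H.mono h1
      linarith
  | succ k ih =>
    intro M N D l h t hl H
    have s := t.step 0
    have H' := H.ren s (hl.rel 0)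
    have h1 := ih _ _ _ _ (fun x => -h (-x)) t.shift hl.shift (by
      show Inv (D 1) (l 1) _
      rw [t.succ 0]; exact H')
    have e : D (0+1) = Datum.ren (M 0) (N 0) (D 0) := t.succ 0
    simp only [e] at h1
    exact ⟨JL_of_ren s H h1.2, JR_of_ren s H h1.1⟩

theorem Inv.continuousOn {M N : ℕ → ℕ} {D : ℕ → Datum} {l : ℕ → Fin 4 → ℝ} {h : ℝ → ℝ}
    (t : Tower M N D) (hl : Lens M N l) (H : Inv (D 0) (l 0) h) :
    ContinuousOn h (Set.Icc ((D 0).c 0) ((D 0).c 4)) := by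
  have key : ∀ ε > 0, JL (D 0) h ε ∧ JR (D 0) h ε := by
    intro ε hε
    obtain ⟨k, hk⟩ := ((hl.tot.eventually_lt_const hε).exists)
    obtain ⟨h1, h2⟩ := small_jumps k _ _ _ _ _ t hl H
    constructor
    · intro x hx1 hx2
      obtain ⟨y, hy, hyε⟩ := h1 x hx1 hx2
      exact ⟨y, hy, hyε.trans hk.le⟩
    · intro x hx1 hx2
      obtain ⟨y, hy, hyε⟩ := h2 x hx1 hx2
      exact ⟨y, hy, hyε.trans hk.le⟩
  rw [Metric.continuousOn_iff]
  intro x hx ε hε
  obtain ⟨h1, h2⟩ := key (ε/2) (by linarith)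
  have hl' : ∃ δ > 0, ∀ z, (D 0).c 0 ≤ z → x - δ < z → z ≤ x → h x - h z ≤ ε/2 := by
    rcases eq_or_lt_of_le hx.1 with h3 | h3
    · refine ⟨1, one_pos, fun z hz1 _ hz3 => ?_⟩
      have : z = x := le_antisymm hz3 (h3 ▸ hz1)
      rw [this]; linarith
    · obtain ⟨y, hy, hyε⟩ := h1 x h3 hx.2
      refine ⟨x - y, by linarith, fun z _ hz2 _ => ?_⟩
      have := H.mono (show y ≤ z by linarith)
      linarith
  have hr' : ∃ δ > 0, ∀ z, z ≤ (D 0).c 4 → z < x + δ → x ≤ z → h z - h x ≤ ε/2 := by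
    rcases eq_or_lt_of_le hx.2 with h3 | h3
    · refine ⟨1, one_pos, fun z hz1 _ hz3 => ?_⟩
      have : z = x := le_antisymm (h3 ▸ hz1) hz3
      rw [this]; linarith
    · obtain ⟨y, hy, hyε⟩ := h2 x hx.1 h3
      refine ⟨y - x, by linarith, fun z _ hz2 _ => ?_⟩
      have := H.mono (show z ≤ y by linarith)
      linarith
  obtain ⟨δ₁, hδ₁, hA⟩ := hl'
  obtain ⟨δ₂, hδ₂, hB⟩ := hr'
  refine ⟨min δ₁ δ₂, lt_min hδ₁ hδ₂, ?_⟩
  intro z hz hzx
  rw [Real.dist_eq, abs_lt] at hzx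
  have hm1 := min_le_left δ₁ δ₂
  have hm2 := min_le_right δ₁ δ₂
  rw [Real.dist_eq, abs_lt]
  rcases le_total z x with h3 | h3
  · have h4 := hA z hz.1 (by linarith [hzx.1]) h3
    have h5 := H.mono h3
    constructor <;> linarith
  · have h4 := hB z hz.2 (by linarith [hzx.2]) h3
    have h5 := H.mono h3
    constructor <;> linarith

end Datum

end Pool.Agent.H814R3
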