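import Mathlib
import Pool.Agent.H814R3.Cont

set_option autoImplicit false
set_option linter.unusedSectionVars false
set_option linter.unusedSimpArgs false
set_option linter.unusedVariables false

/-!
The invariant distribution function has no plateau to the left of the partition points.
-/

namespace Pool.Agent.H814R3

open Filter Topology

namespace Datum

/-- A plateau of length `L` to the left, to the right of `a`. -/
def PL (h : ℝ → ℝ) (a L : ℝ) : Prop := 0 < L ∧ h (a - L) = h a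
def PR (h : ℝ → ℝ) (a L : ℝ) : Prop := 0 < L ∧ h (a + L) = h a

lemma PL.flip {h : ℝ → ℝ} {a L : ℝ} (H : PL h (-a) L) : PR (fun x => -h (-x)) a L := by
  refine ⟨H.1, ?_⟩
  have : -(a + L) = -a - L := by ring
  simp only [this, H.2]

lemma PR.flip {h : ℝ → ℝ} {a L : ℝ} (H : PR h (-a) L) : PL (fun x => -h (-x)) a L := by
  refine ⟨H.1, ?_⟩
  have : -(a - L) = -a + L := by ring
  simp only [this, H.2]

lemma PL.lt {h : ℝ → ℝ} (hm : Monotone h) {a b L : ℝ} (H : PL h a L) (hb : h b < h a) :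
    b < a - L := by
  by_contra hcon
  have := hm (not_lt.mp hcon)
  rw [H.2] at this
  linarith

lemma PR.lt {h : ℝ → ℝ} (hm : Monotone h) {a b L : ℝ} (H : PR h a L) (hb : h a < h b) :
    a + L < b := by
  by_contra hcon
  have := hm (not_lt.mp hcon)
  rw [H.2] at this
  linarith

lemma PL.push {h : ℝ → ℝ} {a L lo hi : ℝ} (g : ℝ ≃o ℝ) (hg : BL lo hi g) (H : PL h a L)
    (hh : h (g a) - h (g (a - L)) = h a - h (a - L)) :
    ∃ L', lo * L ≤ L' ∧ PL h (g a) L' := by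
  have h1 : g (a - L) < g a := g.strictMono (by linarith [H.1])
  refine ⟨g a - g (a - L), ?_, by linarith, ?_⟩
  · have := (hg (a - L) a (by linarith [H.1])).1
    have e : a - (a - L) = L := by ring
    rw [e] at this
    exact this
  · have e : g a - (g a - g (a - L)) = g (a - L) := by ring
    rw [e]
    rw [H.2] at hh
    linarith

lemma PR.push {h : ℝ → ℝ} {a L lo hi : ℝ} (g : ℝ ≃o ℝ) (hg : BL lo hi g) (H : PR h a L)
    (hh : h (g (a + L)) - h (g a) = h (a + L) - h a) :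
    ∃ L', lo * L ≤ L' ∧ PR h (g a) L' := by
  have h1 : g a < g (a + L) := g.strictMono (by linarith [H.1])
  refine ⟨g (a + L) - g a, ?_, by linarith, ?_⟩
  · have := (hg a (a + L) (by linarith [H.1])).1
    have e : a + L - a = L := by ring
    rw [e] at this
    exact this
  · have e : g a + (g (a + L) - g a) = g (a + L) := by ring
    rw [e]
    rw [H.2] at hh
    linarith

section step
variable {M N : ℕ} {D : Datum} (s : Step M N D) {l l' : Fin 4 → ℝ} {h : ℝ → ℝ} (H : Inv D l h)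
  (H' : Inv (ren M N D) l' (fun x => -h (-x))) (hl : ∀ i, 0 < l i) (hl' : ∀ i, 0 < l' i)
  {B : Bd} (hB : B.OK) (hB' : (renB M N B).OK) (hD : D.HasBd B)
include s H H' hl hl' hB hB' hD

lemma q3 : h ((D.f 3).symm ((D.f 0).symm ((D.f 2 ^ N).symm (D.c 3)))) - h (D.c 3) = l' 3 := by
  have := H'.inc 3
  have e : -h (- -D.c 3) - -h (- -(D.f 3).symm ((D.f 0).symm ((D.f 2 ^ N).symm (D.c 3)))) = l' 3 :=
    this
  rw [neg_neg, neg_neg] at e
  linarith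

lemma q2 : h ((D.f 3).symm (D.c 1)) -
    h ((D.f 3).symm ((D.f 0).symm ((D.f 2 ^ N).symm (D.c 3)))) = l' 2 := by
  have := H'.inc 2
  have e : -h (- -(D.f 3).symm ((D.f 0).symm ((D.f 2 ^ N).symm (D.c 3)))) -
    -h (- -(D.f 3).symm (D.c 1)) = l' 2 := this
  rw [neg_neg, neg_neg] at e
  linarith

lemma q1 : h ((D.f 3).symm ((D.f 1 ^ M).symm (D.c 2))) - h ((D.f 3).symm (D.c 1)) = l' 1 := by
  have := H'.inc 1
  have e : -h (- -(D.f 3).symm (D.c 1)) - -h (- -(D.f 3).symm ((D.f 1 ^ M).symm (D.c 2))) = l' 1 :=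
    this
  rw [neg_neg, neg_neg] at e
  linarith

lemma q0 : h (D.c 4) - h ((D.f 3).symm ((D.f 1 ^ M).symm (D.c 2))) = l' 0 := by
  have := H'.inc 0
  have e : -h (- -(D.f 3).symm ((D.f 1 ^ M).symm (D.c 2))) - -h (- -D.c 4) = l' 0 := this
  rw [neg_neg, neg_neg] at e
  linarith

lemma BL2 : BL ((renB M N B).lo 2) ((renB M N B).hi 2) (D.f 2 ^ N * D.f 0 * D.f 3) := by
  have := ren_hasBd (M := M) (N := N) hB hD 2
  have h2 := this.flip
  have e : Pool.Agent.H814R3.flip ((ren M N D).f 2) = D.f 2 ^ N * D.f 0 * D.f 3 := by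
    rw [ren_f2]
    ext x
    simp
  rwa [e] at h2

lemma short : D.c 4 - D.c 3 ≤ B.hi 2 ^ N * (D.c 4 - D.c 0) ∧
    D.c 4 - D.c 3 ≤ (D.c 4 - D.c 0) / 2 := by
  obtain ⟨N', rfl⟩ : ∃ N', N = N' + 1 := ⟨N - 1, by have := s.hN; omega⟩
  have ho : D.Ord := ⟨s.o.h0.le, s.o.h1.le, s.o.h2.le, s.o.h3.le,
    s.o.h0.trans (s.o.h1.trans (s.o.h2.trans s.o.h3))⟩
  have h1 := contr hB hD s.m ho N' (D.f 0 (D.c 0)) s.F4.le
  have h2 : D.c 0 ≤ D.f 0 (D.c 0) := (s.o.h0.trans (s.o.h1.trans s.c2v2)).le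
  have h3 := s.F4
  have hhi : 0 ≤ B.hi 2 := (hB.pos 2).le.trans (hB.le 2)
  have hp : 0 ≤ B.hi 2 ^ (N'+1) := pow_nonneg hhi _
  have h4 : B.hi 2 ^ (N'+1) * (D.c 3 - D.f 0 (D.c 0)) ≤ B.hi 2 ^ (N'+1) * (D.c 4 - D.c 0) :=
    mul_le_mul_of_nonneg_left (by linarith [s.o.h3]) hp
  have h5 : B.hi 2 ^ (N'+1) ≤ 1 / 2 := by
    calc B.hi 2 ^ (N'+1) ≤ B.hi 2 ^ 1 := pow_le_pow_of_le_one hhi (by linarith [hB.k2]) (by omega)
      _ ≤ 1 / 2 := by rw [pow_one]; exact hB.k2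
  have h6 : 0 < D.c 4 - D.c 0 := by linarith [ho.h]
  constructor
  · linarith
  · nlinarith

lemma stepP3L {L : ℝ} (P : PL h (D.c 3) L) : L ≤ D.c 4 - D.c 0 ∧
    ∃ L', 2 * L ≤ L' ∧ PR (fun x => -h (-x)) ((ren M N D).c 3) L' := by
  have k1 := H.c3 s
  have k2 := H.p43 s
  have k3 := q3 s H H' hl hl' hB hB' hD
  have hlt : (D.f 2 ^ N) (D.f 0 (D.c 0)) < D.c 3 - L := P.lt H.mono (by linarith [hl' 3])
  have hc0 : D.c 0 ≤ (D.f 2 ^ N) (D.f 0 (D.c 0)) := by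
    have h1 := chain_mono (D.f 2) (x := D.f 0 (D.c 0))
      (s.v2v3.le.trans ((D.f 2).monotone s.c2v2.le)) (i := 0) (j := N) (by omega)
    rw [pow_zero_app] at h1
    exact (s.o.h0.trans (s.o.h1.trans s.c2v2)).le.trans h1
  refine ⟨by linarith [s.o.h3], ?_⟩
  set g : ℝ ≃o ℝ := D.f 2 ^ N * D.f 0 * D.f 3 with hg
  set p := (D.f 3).symm ((D.f 0).symm ((D.f 2 ^ N).symm (D.c 3))) with hp
  have hgp : g p = D.c 3 := by
    rw [hg, hp, mul_app, mul_app, OrderIso.apply_symm_apply, OrderIso.apply_symm_apply,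
      OrderIso.apply_symm_apply]
  have hgc : g (D.c 3) = (D.f 2 ^ N) (D.f 0 (D.c 0)) := by
    rw [hg, mul_app, mul_app, s.m.m30]
  have happ : ∀ x, app D (3 :: 0 :: List.replicate N 2) x = g x := by
    intro x
    show app D (List.replicate N 2) (D.f 0 (D.f 3 x)) = _
    rw [app_rep]; rfl
  set y := g.symm (D.c 3 - L) with hy
  have hgy : g y = D.c 3 - L := OrderIso.apply_symm_apply _ _
  have hy1 : D.c 3 < y := by rw [hy, OrderIso.lt_symm_apply, hgc]; exact hlt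
  have hy2 : y < p := by rw [hy, OrderIso.symm_apply_lt, hgp]; linarith [P.1]
  have hpp : p < (D.f 3).symm (D.c 1) := s.p43p32
  have h3 := H.along (3 :: 0 :: List.replicate N 2) (s.W20 (hy1.trans hy2).le hpp.le)
    (s.W20 hy1.le (hy2.trans hpp).le)
  rw [happ, happ, hgp, hgy] at h3
  have h4 := (BL2 (M := M) (N := N) s H H' hl hl' hB hB' hD y p hy2.le).2
  have h5 : g p - g y = L := by rw [hgp, hgy]; ring
  have h6 : (renB M N B).hi 2 * (p - y) ≤ 1 / 2 * (p - y) :=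
    mul_le_mul_of_nonneg_right hB'.k2 (by linarith)
  refine ⟨p - y, by linarith, ?_⟩
  apply PL.flip
  refine ⟨by linarith, ?_⟩
  have e1 : -(ren M N D).c 3 = p := by rw [ren_c3, neg_neg]
  rw [e1]
  have e2 : p - (p - y) = y := by ring
  rw [e2]
  have := P.2
  linarith

lemma stepP3R {L : ℝ} (P : PR h (D.c 3) L) : L ≤ D.c 4 - D.c 0 ∧
    ∃ L', 2 * L ≤ L' ∧ PL (fun x => -h (-x)) ((ren M N D).c 3) L' := by
  have k3 := q2 s H H' hl hl' hB hB' hD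
  set g : ℝ ≃o ℝ := D.f 2 ^ N * D.f 0 * D.f 3 with hg
  set p := (D.f 3).symm ((D.f 0).symm ((D.f 2 ^ N).symm (D.c 3))) with hp
  set r := (D.f 3).symm (D.c 1) with hr
  have hgp : g p = D.c 3 := by
    rw [hg, hp, mul_app, mul_app, OrderIso.apply_symm_apply, OrderIso.apply_symm_apply,
      OrderIso.apply_symm_apply]
  have hgr : g r = (D.f 2 ^ (N+1)) (D.c 2) := by
    rw [hg, mul_app, mul_app, hr, OrderIso.apply_symm_apply, s.m.m02, pow_succ_app]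
  have happ : ∀ x, app D (3 :: 0 :: List.replicate N 2) x = g x := by
    intro x
    show app D (List.replicate N 2) (D.f 0 (D.f 3 x)) = _
    rw [app_rep]; rfl
  have hpr : p < r := s.p43p32
  have hcp : D.c 3 < p := s.c3p43
  have h1 := H.along (3 :: 0 :: List.replicate N 2) (s.W20 (hcp.trans hpr).le le_rfl)
    (s.W20 hcp.le hpr.le)
  rw [happ, happ, hgp] at h1
  have hlt : D.c 3 + L < g r := P.lt H.mono (by linarith [hl' 2])
  have hup : g r ≤ D.c 4 := by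
    rw [hgr, pow_succ_app', ← s.m.m24]
    apply (D.f 2).monotone
    calc (D.f 2 ^ N) (D.c 2) ≤ (D.f 2 ^ N) (D.f 0 (D.c 0)) := (D.f 2 ^ N).monotone s.c2v2.le
      _ ≤ D.c 3 := s.F4.le
  refine ⟨by linarith [s.o.h0, s.o.h1, s.o.h2], ?_⟩
  set y := g.symm (D.c 3 + L) with hy
  have hgy : g y = D.c 3 + L := OrderIso.apply_symm_apply _ _
  have hy1 : p < y := by rw [hy, OrderIso.lt_symm_apply, hgp]; linarith [P.1]
  have hy2 : y < r := by rw [hy, OrderIso.symm_apply_lt]; exact hlt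
  have h3 := H.along (3 :: 0 :: List.replicate N 2) (s.W20 (hcp.trans hy1).le hy2.le)
    (s.W20 hcp.le (hy1.trans hy2).le)
  rw [happ, happ, hgp, hgy] at h3
  have h4 := (BL2 (M := M) (N := N) s H H' hl hl' hB hB' hD p y hy1.le).2
  have h5 : g y - g p = L := by rw [hgp, hgy]; ring
  have h6 : (renB M N B).hi 2 * (y - p) ≤ 1 / 2 * (y - p) :=
    mul_le_mul_of_nonneg_right hB'.k2 (by linarith)
  refine ⟨y - p, by linarith, ?_⟩
  apply PR.flip
  refine ⟨by linarith, ?_⟩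
  have e1 : -(ren M N D).c 3 = p := by rw [ren_c3, neg_neg]
  rw [e1]
  have e2 : p + (y - p) = y := by ring
  rw [e2]
  have := P.2
  linarith

/-- Left plateau at `v₂`. -/
lemma stepA {L : ℝ} (P : PL h (D.f 0 (D.c 0)) L) : L ≤ D.c 4 - D.c 0 ∧
    ∃ L', B.lo 2 ^ (N+1) * L ≤ L' ∧
      PR (fun x => -h (-x)) ((ren M N D).f 1 ((ren M N D).c 1)) L' := by
  have k1 := H.v2e s
  have k2 := H.c2 s
  have k3 := H.w1 s
  have k4 := q1 s H H' hl hl' hB hB' hD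
  have hlt : (D.f 1 ^ (M+1)) (D.c 1) < D.f 0 (D.c 0) - L := P.lt H.mono (by linarith [hl' 1])
  have hc2 : D.c 2 ≤ D.f 0 (D.c 0) - L := s.F2.le.trans hlt.le
  have hv2 : D.f 0 (D.c 0) ≤ D.c 4 := by
    have h1 := chain_mono (D.f 2) (x := D.f 0 (D.c 0))
      (s.v2v3.le.trans ((D.f 2).monotone s.c2v2.le)) (i := 0) (j := N) (by omega)
    rw [pow_zero_app] at h1
    exact h1.trans (s.F4.le.trans s.o.h3.le)
  refine ⟨by linarith [s.o.h0, s.o.h1], ?_⟩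
  have h3 := H.along_rep (N+1) 2 (s.W2 s.c2v2.le le_rfl) (s.W2 hc2 (by linarith [P.1]))
  obtain ⟨L', hL1, hL2⟩ := P.push (D.f 2 ^ (N+1))
    (BL.pow (hB.pos 2).le ((hB.pos 2).le.trans (hB.le 2)) (hD 2) (N+1)) h3
  refine ⟨L', hL1, ?_⟩
  apply PL.flip
  have e := s.entry2.2
  rw [app_rep] at e
  rw [← e]
  exact hL2

/-- Right plateau at `v₁`. -/
lemma stepB {L : ℝ} (P : PR h (D.f 1 (D.c 1)) L) :
    ∃ L', B.lo 2 ^ (N+1) * B.lo 1 ^ M * L ≤ L' ∧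
      PL (fun x => -h (-x)) ((ren M N D).f 0 ((ren M N D).c 0)) L' := by
  have k1 := H.w1 s
  have k4 := q1 s H H' hl hl' hB hB' hD
  have hw2 : (D.f 1 ^ M).symm (D.c 2) ≤ D.c 2 := (s.wv1.trans s.v1c2).le
  have k5 := H.eq 1 ((D.f 1 ^ M).symm (D.c 2)) (D.c 1) s.c1w.le hw2 le_rfl s.o.h1.le
  have hlt : D.f 1 (D.c 1) + L < D.f 1 ((D.f 1 ^ M).symm (D.c 2)) :=
    P.lt H.mono (by linarith [hl' 1])
  have hW1 : WFol D (List.replicate M 1 ++ List.replicate (N+1) 2) (D.f 1 (D.c 1)) := by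
    rw [wfol_append]
    refine ⟨s.W1 s.c1v1.le ((D.f 1).monotone s.c1w.le), ?_⟩
    rw [app_rep, ← pow_succ_app]
    exact s.W2 s.F2.le s.ev2.le
  have hW2 : WFol D (List.replicate M 1 ++ List.replicate (N+1) 2)
      (D.f 1 ((D.f 1 ^ M).symm (D.c 2))) := by
    rw [wfol_append]
    refine ⟨s.W1 (s.c1v1.le.trans ((D.f 1).monotone s.c1w.le)) le_rfl, ?_⟩
    rw [app_rep, ← pow_succ_app, pow_succ_app', OrderIso.apply_symm_apply, s.m.m10]
    exact s.W2 s.c2v2.le le_rfl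
  have hW3 := wfol_between D _ hW1 hW2 (x := D.f 1 (D.c 1) + L) (by linarith [P.1]) hlt.le
  have h3 := H.along _ hW3 hW1
  have happ : ∀ x, app D (List.replicate M 1 ++ List.replicate (N+1) 2) x =
      (D.f 2 ^ (N+1) * D.f 1 ^ M) x := by
    intro x
    rw [app_append, app_rep, app_rep]; rfl
  rw [happ, happ] at h3
  obtain ⟨L', hL1, hL2⟩ := P.push (D.f 2 ^ (N+1) * D.f 1 ^ M)
    (BL.mul (pow_nonneg (hB.pos 2).le _) (pow_nonneg ((hB.pos 2).le.trans (hB.le 2)) _)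
      (BL.pow (hB.pos 2).le ((hB.pos 2).le.trans (hB.le 2)) (hD 2) (N+1))
      (BL.pow (hB.pos 1).le ((hB.pos 1).le.trans (hB.le 1)) (hD 1) M)) h3
  refine ⟨L', hL1, ?_⟩
  apply PR.flip
  have e := s.entry1.2
  rw [happ] at e
  rw [← e]
  exact hL2

/-- Left plateau at `v₃`. -/
lemma stepA' {L : ℝ} (P : PL h (D.f 2 (D.c 2)) L) :
    L ≤ (renB M N B).hi 2 * (D.c 4 - D.c 0) ∧
    ∃ L', B.lo 2 ^ N * L ≤ L' ∧
      PR (fun x => -h (-x)) ((ren M N D).f 2 ((ren M N D).c 2)) L' := by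
  have k1 := H.v3v2 s
  have i0 : h (D.c 1) - h (D.c 0) = l 0 := H.inc 0
  have hlt : D.f 0 (D.c 0) < D.f 2 (D.c 2) - L := P.lt H.mono (by linarith [hl 0])
  constructor
  · have h1 := (hD 0 _ _ s.o.h0.le).2
    rw [s.m.m02] at h1
    have h2 := (hD 3 (D.c 3) ((D.f 3).symm (D.c 1)) (s.c3p43.trans s.p43p32).le).2
    rw [OrderIso.apply_symm_apply, s.m.m30] at h2
    have h3 := (short s H H' hl hl' hB hB' hD).1
    have h4 := s.p32p21.trans s.p21c4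
    have hh0 : 0 ≤ B.hi 0 := (hB.pos 0).le.trans (hB.le 0)
    have hh3 : 0 ≤ B.hi 3 := (hB.pos 3).le.trans (hB.le 3)
    have h5 : B.hi 3 * ((D.f 3).symm (D.c 1) - D.c 3) ≤ B.hi 3 * (D.c 4 - D.c 3) :=
      mul_le_mul_of_nonneg_left (by linarith) hh3
    have h6 : B.hi 3 * (D.c 4 - D.c 3) ≤ B.hi 3 * (B.hi 2 ^ N * (D.c 4 - D.c 0)) :=
      mul_le_mul_of_nonneg_left h3 hh3
    have h7 : B.hi 0 * (D.c 1 - D.c 0) ≤ B.hi 0 * (B.hi 3 * (B.hi 2 ^ N * (D.c 4 - D.c 0))) :=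
      mul_le_mul_of_nonneg_left (by linarith) hh0
    have e : (renB M N B).hi 2 = B.hi 2 ^ N * B.hi 0 * B.hi 3 := rfl
    rw [e]
    have e2 : B.hi 2 ^ N * B.hi 0 * B.hi 3 * (D.c 4 - D.c 0) =
      B.hi 0 * (B.hi 3 * (B.hi 2 ^ N * (D.c 4 - D.c 0))) := by ring
    rw [e2]
    linarith
  · have h3 := H.along_rep N 2 (s.W2' s.c2v3.le ((D.f 2).monotone s.c2v2.le))
      (s.W2' (x := D.f 2 (D.c 2) - L) (by linarith [s.c2v2])
        (by
          have := (D.f 2).monotone s.c2v2.le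
          linarith [P.1]))
    obtain ⟨L', hL1, hL2⟩ := P.push (D.f 2 ^ N)
      (BL.pow (hB.pos 2).le ((hB.pos 2).le.trans (hB.le 2)) (hD 2) N) h3
    refine ⟨L', hL1, ?_⟩
    apply PL.flip
    have e := s.entry3.2
    rw [app_rep] at e
    rw [← e]
    exact hL2

/-- Right plateau at `v₃`. -/
lemma stepB' {L : ℝ} (P : PR h (D.f 2 (D.c 2)) L) :
    ∃ L', B.lo 2 ^ N * L ≤ L' ∧
      PL (fun x => -h (-x)) ((ren M N D).f 2 ((ren M N D).c 2)) L' := by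
  have k1 := H.e1 s
  have k4 := q0 s H H' hl hl' hB hB' hD
  have hv2 : D.f 0 (D.c 0) ≤ D.c 3 := by
    have h1 := chain_mono (D.f 2) (x := D.f 0 (D.c 0))
      (s.v2v3.le.trans ((D.f 2).monotone s.c2v2.le)) (i := 0) (j := N) (by omega)
    rw [pow_zero_app] at h1
    exact h1.trans s.F4.le
  have k5 := H.eq 2 ((D.f 1 ^ (M+1)) (D.c 1)) (D.c 2) s.F2.le (s.ev2.le.trans hv2) le_rfl s.o.h2.le
  have hlt : D.f 2 (D.c 2) + L < D.f 2 ((D.f 1 ^ (M+1)) (D.c 1)) :=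
    P.lt H.mono (by linarith [hl' 0])
  have h3 := H.along_rep N 2
    (s.W2' (x := D.f 2 (D.c 2) + L) (by linarith [s.c2v3, P.1])
        (hlt.le.trans ((D.f 2).monotone s.ev2.le)))
    (s.W2' s.c2v3.le ((D.f 2).monotone s.c2v2.le))
  obtain ⟨L', hL1, hL2⟩ := P.push (D.f 2 ^ N)
    (BL.pow (hB.pos 2).le ((hB.pos 2).le.trans (hB.le 2)) (hD 2) N) h3
  refine ⟨L', hL1, ?_⟩
  apply PR.flip
  have e := s.entry3.2
  rw [app_rep] at e
  rw [← e]
  exact hL2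

end step

/-- Sequences of bounds. -/
structure BSeq (M N : ℕ → ℕ) (B : ℕ → Bd) : Prop where
  ok : ∀ k, (B k).OK
  succ : ∀ k, B (k+1) = renB (M k) (N k) (B k)
  c6 : ∀ k, 1 ≤ (B (k+1)).lo 2 ^ (N (k+1) + 1) * (B (k+1)).lo 1 ^ M (k+1) * (B k).lo 2 ^ (N k + 1)

lemma BSeq.shift {M N : ℕ → ℕ} {B : ℕ → Bd} (h : BSeq M N B) :
    BSeq (fun k => M (k+1)) (fun k => N (k+1)) (fun k => B (k+1)) :=
  ⟨fun k => h.ok _, fun k => h.succ _, fun k => h.c6 _⟩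

section final

/-- All the standing assumptions. -/
structure All (M N : ℕ → ℕ) (B : ℕ → Bd) (D : ℕ → Datum) (l : ℕ → Fin 4 → ℝ) (h : ℝ → ℝ) : Prop where
  t : Tower M N D
  b : BSeq M N B
  hD : ∀ k, (D k).HasBd (B k)
  hl : Lens M N l
  H : Inv (D 0) (l 0) h

variable {M N : ℕ → ℕ} {B : ℕ → Bd} {D : ℕ → Datum} {l : ℕ → Fin 4 → ℝ} {h : ℝ → ℝ}

lemma All.inv' (A : All M N B D l h) : Inv (ren (M 0) (N 0) (D 0)) (l 1) (fun x => -h (-x)) :=
  A.H.ren (A.t.step 0) (A.hl.rel 0)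

lemma All.shift (A : All M N B D l h) : All (fun k => M (k+1)) (fun k => N (k+1)) (fun k => B (k+1))
    (fun k => D (k+1)) (fun k => l (k+1)) (fun x => -h (-x)) :=
  ⟨A.t.shift, A.b.shift, fun k => A.hD _, A.hl.shift, by
    show Inv (D 1) (l 1) _
    rw [A.t.succ 0]; exact A.inv'⟩

lemma All.okr (A : All M N B D l h) : (renB (M 0) (N 0) (B 0)).OK := by
  rw [← A.b.succ 0]; exact A.b.ok 1

lemma All.short (A : All M N B D l h) :
    (D 1).c 4 - (D 1).c 0 ≤ ((D 0).c 4 - (D 0).c 0) / 2 := by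
  have := (Datum.short (A.t.step 0) A.H A.inv' (A.hl.pos 0) (A.hl.pos 1) (A.b.ok 0) A.okr (A.hD 0)).2
  have e : D 1 = ren (M 0) (N 0) (D 0) := A.t.succ 0
  rw [e, ren_c4, ren_c0]
  linarith

lemma All.tot_pos (A : All M N B D l h) : 0 < (D 0).c 4 - (D 0).c 0 := by
  have := A.t.o 0
  linarith [this.h0, this.h1, this.h2, this.h3]

theorem P3 (n : ℕ) : ∀ {M N : ℕ → ℕ} {B : ℕ → Bd} {D : ℕ → Datum} {l : ℕ → Fin 4 → ℝ} {h : ℝ → ℝ}
    (A : All M N B D l h) {L : ℝ} (_ : PL h ((D 0).c 3) L ∨ PR h ((D 0).c 3) L),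
    2^n * L ≤ (D 0).c 4 - (D 0).c 0 := by
  induction n with
  | zero =>
    intro M N B D l h A L P
    rw [pow_zero, one_mul]
    rcases P with P | P
    · exact (stepP3L (A.t.step 0) A.H A.inv' (A.hl.pos 0) (A.hl.pos 1) (A.b.ok 0) A.okr (A.hD 0) P).1
    · exact (stepP3R (A.t.step 0) A.H A.inv' (A.hl.pos 0) (A.hl.pos 1) (A.b.ok 0) A.okr (A.hD 0) P).1
  | succ n ih =>
    intro M N B D l h A L P
    have e : D 1 = ren (M 0) (N 0) (D 0) := A.t.succ 0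
    have hs := A.short
    have htp := A.tot_pos
    have h2n : (0:ℝ) < 2^n := by positivity
    rcases P with P | P
    · obtain ⟨L', hL1, hL2⟩ := (stepP3L (A.t.step 0) A.H A.inv' (A.hl.pos 0) (A.hl.pos 1)
        (A.b.ok 0) A.okr (A.hD 0) P).2
      have h1 := ih A.shift (L := L') (Or.inr (by
        show PR _ ((D 1).c 3) L'
        rw [e]; exact hL2))
      have h2 : 2^n * L' ≤ (D 1).c 4 - (D 1).c 0 := h1
      have h3 : 2^n * (2 * L) ≤ 2^n * L' := mul_le_mul_of_nonneg_left hL1 h2n.le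
      have h4 : (2:ℝ)^(n+1) * L = 2^n * (2 * L) := by ring
      linarith
    · obtain ⟨L', hL1, hL2⟩ := (stepP3R (A.t.step 0) A.H A.inv' (A.hl.pos 0) (A.hl.pos 1)
        (A.b.ok 0) A.okr (A.hD 0) P).2
      have h1 := ih A.shift (L := L') (Or.inl (by
        show PL _ ((D 1).c 3) L'
        rw [e]; exact hL2))
      have h2 : 2^n * L' ≤ (D 1).c 4 - (D 1).c 0 := h1
      have h3 : 2^n * (2 * L) ≤ 2^n * L' := mul_le_mul_of_nonneg_left hL1 h2n.le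
      have h4 : (2:ℝ)^(n+1) * L = 2^n * (2 * L) := by ring
      linarith

lemma no_of_pow {L C : ℝ} (hL : 0 < L) (h : ∀ n : ℕ, 2^n * L ≤ C) : False := by
  obtain ⟨n, hn⟩ := pow_unbounded_of_one_lt (C / L) (one_lt_two)
  have := h n
  rw [div_lt_iff₀ hL] at hn
  linarith

theorem All.noPL3 (A : All M N B D l h) (L : ℝ) : ¬ PL h ((D 0).c 3) L := fun P =>
  no_of_pow P.1 fun n => P3 n A (Or.inl P)

theorem All.noPL4 (A : All M N B D l h) (L : ℝ) : ¬ PL h ((D 0).c 4) L := by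
  intro P
  have s := A.t.step 0
  have i2 : h ((D 0).c 3) - h ((D 0).c 2) = l 0 2 := A.H.inc 2
  have k := A.H.eq 2 ((D 0).c 3) ((D 0).c 2) s.o.h2.le le_rfl le_rfl s.o.h2.le
  rw [s.m.m24] at k
  have hlt : (D 0).f 2 ((D 0).c 2) < (D 0).c 4 - L := P.lt A.H.mono (by linarith [A.hl.pos 0 2])
  set y := ((D 0).f 2).symm ((D 0).c 4 - L) with hy
  have hy1 : (D 0).c 2 < y := by rw [hy, OrderIso.lt_symm_apply]; exact hlt
  have hy2 : y < (D 0).c 3 := by rw [hy, OrderIso.symm_apply_lt, s.m.m24]; linarith [P.1]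
  have k2 := A.H.eq 2 ((D 0).c 3) y s.o.h2.le le_rfl hy1.le hy2.le
  rw [s.m.m24, hy, OrderIso.apply_symm_apply, ← hy] at k2
  apply A.noPL3 ((D 0).c 3 - y)
  refine ⟨by linarith, ?_⟩
  have e : (D 0).c 3 - ((D 0).c 3 - y) = y := by ring
  rw [e]
  have := P.2
  linarith

theorem P2 (n : ℕ) : ∀ {M N : ℕ → ℕ} {B : ℕ → Bd} {D : ℕ → Datum} {l : ℕ → Fin 4 → ℝ} {h : ℝ → ℝ}
    (A : All M N B D l h) {L : ℝ} (_ : PL h ((D 0).f 0 ((D 0).c 0)) L),
    2^n * L ≤ (D 0).c 4 - (D 0).c 0 := by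
  induction n with
  | zero =>
    intro M N B D l h A L P
    rw [pow_zero, one_mul]
    exact (stepA (A.t.step 0) A.H A.inv' (A.hl.pos 0) (A.hl.pos 1) (A.b.ok 0) A.okr (A.hD 0) P).1
  | succ n ih =>
    intro M N B D l h A L P
    have e : D 1 = ren (M 0) (N 0) (D 0) := A.t.succ 0
    have hs := A.short
    have hs' : (D 2).c 4 - (D 2).c 0 ≤ ((D 1).c 4 - (D 1).c 0) / 2 := A.shift.short
    have htp := A.tot_pos
    have h2n : (0:ℝ) < 2^n := by positivity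
    obtain ⟨L', hL1, hL2⟩ := (stepA (A.t.step 0) A.H A.inv' (A.hl.pos 0) (A.hl.pos 1)
      (A.b.ok 0) A.okr (A.hD 0) P).2
    have A1 := A.shift
    obtain ⟨L'', hM1, hM2⟩ := stepB (A1.t.step 0) A1.H A1.inv' (A1.hl.pos 0) (A1.hl.pos 1)
      (A1.b.ok 0) A1.okr (A1.hD 0) (L := L') (by
        show PR _ ((D 1).f 1 ((D 1).c 1)) L'
        rw [e]; exact hL2)
    have e2 : D 2 = ren (M 1) (N 1) (D 1) := A.t.succ 1
    have A2 := A1.shift
    have h1 := ih A2 (L := L'') (by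
      show PL _ ((D 2).f 0 ((D 2).c 0)) L''
      rw [e2]; exact hM2)
    have h2 : 2^n * L'' ≤ (D 2).c 4 - (D 2).c 0 := h1
    have hM1' : (B 1).lo 2 ^ (N 1 + 1) * (B 1).lo 1 ^ M 1 * L' ≤ L'' := hM1
    have hc6 := A.b.c6 0
    simp only [zero_add] at hc6
    have hq : 0 ≤ (B 1).lo 2 ^ (N 1 + 1) * (B 1).lo 1 ^ M 1 :=
      mul_nonneg (pow_nonneg ((A.b.ok 1).pos 2).le _) (pow_nonneg ((A.b.ok 1).pos 1).le _)
    have h3 : L ≤ L'' := by
      calc L = 1 * L := (one_mul L).symm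
        _ ≤ ((B 1).lo 2 ^ (N 1 + 1) * (B 1).lo 1 ^ M 1 * (B 0).lo 2 ^ (N 0 + 1)) * L :=
          mul_le_mul_of_nonneg_right hc6 P.1.le
        _ = ((B 1).lo 2 ^ (N 1 + 1) * (B 1).lo 1 ^ M 1) * ((B 0).lo 2 ^ (N 0 + 1) * L) := by ring
        _ ≤ ((B 1).lo 2 ^ (N 1 + 1) * (B 1).lo 1 ^ M 1) * L' := mul_le_mul_of_nonneg_left hL1 hq
        _ ≤ L'' := hM1'
    have h5 : (2:ℝ)^n * L ≤ 2^n * L'' := mul_le_mul_of_nonneg_left h3 h2n.le
    have h6 : (2:ℝ)^(n+1) * L = 2 * (2^n * L) := by ring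
    linarith

theorem All.noPL2 (A : All M N B D l h) (L : ℝ) : ¬ PL h ((D 0).c 2) L := by
  intro P
  have s := A.t.step 0
  have i1 : h ((D 0).c 2) - h ((D 0).c 1) = l 0 1 := A.H.inc 1
  have hlt : (D 0).c 1 < (D 0).c 2 - L := P.lt A.H.mono (by linarith [A.hl.pos 0 1])
  have k := A.H.eq 1 ((D 0).c 2) ((D 0).c 2 - L) s.o.h1.le le_rfl hlt.le (by
    show (D 0).c 2 - L ≤ (D 0).c 2
    linarith [P.1])
  obtain ⟨L', hL1, hL2⟩ := P.push ((D 0).f 1) (A.hD 0 1) k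
  rw [s.m.m10] at hL2
  exact no_of_pow hL2.1 fun n => P2 n A hL2

theorem P1 (n : ℕ) : ∀ {M N : ℕ → ℕ} {B : ℕ → Bd} {D : ℕ → Datum} {l : ℕ → Fin 4 → ℝ} {h : ℝ → ℝ}
    (A : All M N B D l h) {L : ℝ} (_ : PL h ((D 0).f 2 ((D 0).c 2)) L),
    (∏ j ∈ Finset.range (2*n), (B j).lo 2 ^ N j) * L ≤ (B (2*n+1)).hi 2 * ((D 0).c 4 - (D 0).c 0) := by
  induction n with
  | zero =>
    intro M N B D l h A L P
    have h1 := (stepA' (A.t.step 0) A.H A.inv' (A.hl.pos 0) (A.hl.pos 1) (A.b.ok 0) A.okr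
      (A.hD 0) P).1
    rw [← A.b.succ 0] at h1
    simpa using h1
  | succ n ih =>
    intro M N B D l h A L P
    have e : D 1 = ren (M 0) (N 0) (D 0) := A.t.succ 0
    have hs := A.short
    have hs' : (D 2).c 4 - (D 2).c 0 ≤ ((D 1).c 4 - (D 1).c 0) / 2 := A.shift.short
    have htp := A.tot_pos
    obtain ⟨L', hL1, hL2⟩ := (stepA' (A.t.step 0) A.H A.inv' (A.hl.pos 0) (A.hl.pos 1)
      (A.b.ok 0) A.okr (A.hD 0) P).2
    have A1 := A.shift
    obtain ⟨L'', hM1, hM2⟩ := stepB' (A1.t.step 0) A1.H A1.inv' (A1.hl.pos 0) (A1.hl.pos 1)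
      (A1.b.ok 0) A1.okr (A1.hD 0) (L := L') (by
        show PR _ ((D 1).f 2 ((D 1).c 2)) L'
        rw [e]; exact hL2)
    have e2 : D 2 = ren (M 1) (N 1) (D 1) := A.t.succ 1
    have A2 := A1.shift
    have h1 := ih A2 (L := L'') (by
      show PL _ ((D 2).f 2 ((D 2).c 2)) L''
      rw [e2]; exact hM2)
    have h2 : (∏ j ∈ Finset.range (2*n), (B (j+1+1)).lo 2 ^ N (j+1+1)) * L'' ≤
      (B (2*n+1+1+1)).hi 2 * ((D 2).c 4 - (D 2).c 0) := h1
    have hM1' : (B 1).lo 2 ^ N 1 * L' ≤ L'' := hM1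
    have hpr : 2 * (n+1) = 2*n + 1 + 1 := by ring
    rw [hpr, Finset.prod_range_succ', Finset.prod_range_succ']
    have hq : 0 ≤ (B 1).lo 2 ^ N 1 := pow_nonneg ((A.b.ok 1).pos 2).le _
    have hpp : 0 ≤ ∏ j ∈ Finset.range (2*n), (B (j+1+1)).lo 2 ^ N (j+1+1) :=
      Finset.prod_nonneg fun j _ => pow_nonneg ((A.b.ok _).pos 2).le _
    have hhi : 0 ≤ (B (2*n+1+1+1)).hi 2 := ((A.b.ok _).pos 2).le.trans ((A.b.ok _).le 2)
    have h3 : (B (0+1)).lo 2 ^ N (0+1) * ((B 0).lo 2 ^ N 0 * L) ≤ L'' :=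
      (mul_le_mul_of_nonneg_left hL1 hq).trans hM1'
    calc (∏ k ∈ Finset.range (2*n), (B (k+1+1)).lo 2 ^ N (k+1+1)) * (B (0+1)).lo 2 ^ N (0+1) *
          (B 0).lo 2 ^ N 0 * L
        = (∏ k ∈ Finset.range (2*n), (B (k+1+1)).lo 2 ^ N (k+1+1)) *
          ((B (0+1)).lo 2 ^ N (0+1) * ((B 0).lo 2 ^ N 0 * L)) := by ring
      _ ≤ (∏ k ∈ Finset.range (2*n), (B (k+1+1)).lo 2 ^ N (k+1+1)) * L'' :=
        mul_le_mul_of_nonneg_left h3 hpp
      _ ≤ (B (2*n+1+1+1)).hi 2 * ((D 2).c 4 - (D 2).c 0) := h2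
      _ ≤ _ := mul_le_mul_of_nonneg_left (by linarith) hhi

theorem All.noPL1 (A : All M N B D l h)
    (c7 : ∀ n, (B (2*n+1)).hi 2 ≤ (1/2)^n * ∏ j ∈ Finset.range (2*n), (B j).lo 2 ^ N j)
    (L : ℝ) : ¬ PL h ((D 0).c 1) L := by
  intro P
  have s := A.t.step 0
  have i1 : h ((D 0).c 1) - h ((D 0).c 0) = l 0 0 := A.H.inc 0
  have hlt : (D 0).c 0 < (D 0).c 1 - L := P.lt A.H.mono (by linarith [A.hl.pos 0 0])
  have k := A.H.eq 0 ((D 0).c 1) ((D 0).c 1 - L) s.o.h0.le le_rfl hlt.le (by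
    show (D 0).c 1 - L ≤ (D 0).c 1
    linarith [P.1])
  obtain ⟨L', hL1, hL2⟩ := P.push ((D 0).f 0) (A.hD 0 0) k
  rw [s.m.m02] at hL2
  apply no_of_pow hL2.1 (C := (D 0).c 4 - (D 0).c 0)
  intro n
  have h1 := P1 n A hL2
  have htp := A.tot_pos
  have h2 := mul_le_mul_of_nonneg_right (c7 n) htp.le
  have hpp : 0 < ∏ j ∈ Finset.range (2*n), (B j).lo 2 ^ N j :=
    Finset.prod_pos fun j _ => pow_pos ((A.b.ok _).pos 2) _
  have h3 : (∏ j ∈ Finset.range (2*n), (B j).lo 2 ^ N j) * L' ≤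
      (∏ j ∈ Finset.range (2*n), (B j).lo 2 ^ N j) * ((1/2)^n * ((D 0).c 4 - (D 0).c 0)) := by
    calc _ ≤ _ := h1
      _ ≤ _ := h2
      _ = _ := by ring
  have h4 := le_of_mul_le_mul_left h3 hpp
  calc 2^n * L' ≤ 2^n * ((1/2)^n * ((D 0).c 4 - (D 0).c 0)) :=
        mul_le_mul_of_nonneg_left h4 (by positivity)
    _ = (D 0).c 4 - (D 0).c 0 := by
      rw [← mul_assoc, ← mul_pow]; norm_num

/-- Strictness to the left of all right endpoints. -/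
theorem All.strict (A : All M N B D l h)
    (c7 : ∀ n, (B (2*n+1)).hi 2 ≤ (1/2)^n * ∏ j ∈ Finset.range (2*n), (B j).lo 2 ^ N j)
    (i : Fin 4) (x : ℝ) (hx : x < (D 0).c i.succ) : h x < h ((D 0).c i.succ) := by
  by_contra hcon
  have h1 := A.H.mono hx.le
  have h2 : h x = h ((D 0).c i.succ) := le_antisymm h1 (not_lt.mp hcon)
  have P : PL h ((D 0).c i.succ) ((D 0).c i.succ - x) := by
    refine ⟨by linarith, ?_⟩
    have e : (D 0).c i.succ - ((D 0).c i.succ - x) = x := by ring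
    rw [e, h2]
  fin_cases i
  · exact A.noPL1 c7 _ P
  · exact A.noPL2 _ P
  · exact A.noPL3 _ P
  · exact A.noPL4 _ P

end final

end Datum

end Pool.Agent.H814R3
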