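import Mathlib
import Pool.Agent.H814R3.Link
import Pool.Agent.H814R3.Plat
import Pool.Agent.H814R3.AffSeq

set_option autoImplicit false
set_option linter.unusedSectionVars false

/-!
From towers to semiconjugacies and to the absence of connections.
-/

namespace Pool.Agent.H814R3

open Topology Set Filter

namespace IEM

variable {r : ℕ}

lemma dom_def (T : X r) (i : Fin 4) : T.dom i = Ico (T.top i.castSucc) (T.top i.succ) := rfl

lemma branch_eq (T : X r) {i : Fin 4} {x : ℝ} (h : x ∈ T.dom i) : T.branch i x = (dat T).f i x := by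
  rw [dat_f]
  show T.bot (πb i).castSucc + bl T i * (T.br i).toFun ((x - T.top i.castSucc) / tl T i) = _
  rw [hat_of_mem]
  have h1 : T.top i.castSucc ≤ x := h.1
  have h2 : x < T.top i.succ := h.2
  have h3 := tl_pos T i
  refine ⟨div_nonneg (by linarith) h3.le, ?_⟩
  rw [div_le_one h3]
  unfold tl
  linarith

lemma dom_disj (T : X r) {i j : Fin 4} {x : ℝ} (hi : x ∈ T.dom i) (hj : x ∈ T.dom j) : i = j := by
  by_contra hne
  rw [dom_def] at hi hj
  rcases lt_or_gt_of_ne hne with h | h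
  · have : T.top i.succ ≤ T.top j.castSucc := T.top_mono.monotone (by
      rw [Fin.le_def]; simp only [Fin.val_succ, Fin.val_castSucc]; exact h)
    linarith [hi.2, hj.1]
  · have : T.top j.succ ≤ T.top i.castSucc := T.top_mono.monotone (by
      rw [Fin.le_def]; simp only [Fin.val_succ, Fin.val_castSucc]; exact h)
    linarith [hj.2, hi.1]

lemma map_eq (T : X r) {i : Fin 4} {x : ℝ} (h : x ∈ T.dom i) : T.map x = (dat T).f i x := by
  unfold GIEM.map
  rw [Finset.sum_eq_single i]
  · rw [indicator_of_mem h, branch_eq T h]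
  · intro j _ hj
    apply indicator_of_notMem
    intro hx
    exact hj (dom_disj T hx h)
  · intro hi; exact absurd (Finset.mem_univ _) hi

lemma exists_dom (T : X r) {x : ℝ} (h : x ∈ Ico (0:ℝ) 1) : ∃ i, x ∈ T.dom i := by
  have z : T.top 0 = 0 := T.top_zero
  have o : T.top 4 = 1 := T.top_last
  have h0 : 0 ≤ x := h.1
  have h1 : x < 1 := h.2
  rcases lt_or_ge x (T.top 1) with a | a
  · exact ⟨0, show T.top 0 ≤ x by linarith, a⟩
  · rcases lt_or_ge x (T.top 2) with b | b
    · exact ⟨1, a, b⟩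
    · rcases lt_or_ge x (T.top 3) with c | c
      · exact ⟨2, b, c⟩
      · exact ⟨3, c, show x < T.top 4 by linarith⟩

/-- The conjugacy statement. -/
theorem semiConj_of {T T₀ : X r} {M N : ℕ → ℕ} {B : ℕ → Bd} {D : ℕ → Datum} {l : ℕ → Fin 4 → ℝ}
    {h : ℝ → ℝ} (A : Datum.All M N B D l h) (hD0 : D 0 = dat T)
    (c7 : ∀ n, (B (2*n+1)).hi 2 ≤ (1/2)^n * ∏ j ∈ Finset.range (2*n), (B j).lo 2 ^ N j)
    (ha : Datum.Aff one4 (dat T₀)) (hl : (dat T₀).len = l 0) : T.SemiConj T₀ := by
  have H := A.H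
  have hstr := A.strict c7
  have hcont := H.continuousOn A.t A.hl
  rw [hD0] at H hstr hcont
  have z : T.top 0 = 0 := T.top_zero
  have o : T.top 4 = 1 := T.top_last
  have z0 : T₀.top 0 = 0 := T₀.top_zero
  have o0 : T₀.top 4 = 1 := T₀.top_last
  have zb : T.bot 0 = 0 := T.bot_zero
  have zb0 : T₀.bot 0 = 0 := T₀.bot_zero
  -- increments
  have hinc : ∀ i : Fin 4, h (T.top i.succ) - h (T.top i.castSucc) =
      T₀.top i.succ - T₀.top i.castSucc := by
    intro i
    have h1 : h (T.top i.succ) - h (T.top i.castSucc) = l 0 i := H.inc i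
    have h2 := congrFun hl i
    rw [h1, ← h2]
    rfl
  have hincb : ∀ i : Fin 4, h (T.bot (πb i).succ) - h (T.bot (πb i).castSucc) =
      T₀.bot (πb i).succ - T₀.bot (πb i).castSucc := by
    intro i
    rw [← dat_l T, ← dat_r T, ← dat_l T₀, ← dat_r T₀]
    have h1 := H.eq i (T.top i.succ) (T.top i.castSucc)
      (T.top_mono Fin.castSucc_lt_succ).le le_rfl le_rfl (T.top_mono Fin.castSucc_lt_succ).le
    rw [h1, hinc, ha i]
    unfold one4
    ring
  have hnode : ∀ j : Fin 5, h (T.top j) - h 0 = T₀.top j := by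
    have k0 : h (T.top 1) - h (T.top 0) = T₀.top 1 - T₀.top 0 := hinc 0
    have k1 : h (T.top 2) - h (T.top 1) = T₀.top 2 - T₀.top 1 := hinc 1
    have k2 : h (T.top 3) - h (T.top 2) = T₀.top 3 - T₀.top 2 := hinc 2
    have k3 : h (T.top 4) - h (T.top 3) = T₀.top 4 - T₀.top 3 := hinc 3
    rw [z, z0] at k0
    intro j
    fin_cases j
    · show h (T.top 0) - h 0 = T₀.top 0
      rw [z, z0]; ring
    · show h (T.top 1) - h 0 = T₀.top 1
      linarith
    · show h (T.top 2) - h 0 = T₀.top 2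
      linarith
    · show h (T.top 3) - h 0 = T₀.top 3
      linarith
    · show h (T.top 4) - h 0 = T₀.top 4
      linarith
  have hnodeb : ∀ j : Fin 4, h (T.bot j.castSucc) - h 0 = T₀.bot j.castSucc := by
    have k0 : h (T.bot 1) - h (T.bot 0) = T₀.bot 1 - T₀.bot 0 := hincb 3
    have k1 : h (T.bot 2) - h (T.bot 1) = T₀.bot 2 - T₀.bot 1 := hincb 1
    have k2 : h (T.bot 3) - h (T.bot 2) = T₀.bot 3 - T₀.bot 2 := hincb 0
    rw [zb, zb0] at k0
    intro j
    fin_cases j
    · show h (T.bot 0) - h 0 = T₀.bot 0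
      rw [zb, zb0]; ring
    · show h (T.bot 1) - h 0 = T₀.bot 1
      linarith
    · show h (T.bot 2) - h 0 = T₀.bot 2
      linarith
    · show h (T.bot 3) - h 0 = T₀.bot 3
      linarith
  have hc0 : h 0 - h 0 = 0 := sub_self _
  have hc1 : h 1 - h 0 = 1 := by
    have := hnode 4
    rwa [o, o0] at this
  have hmono : ∀ x y, x ≤ y → h x - h 0 ≤ h y - h 0 := fun x y hxy => by
    have := H.mono hxy
    linarith
  have hcont' : ContinuousOn (fun x => h x - h 0) (Icc 0 1) := by
    have e0 : (dat T).c 0 = 0 := z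
    have e1 : (dat T).c 4 = 1 := o
    rw [e0, e1] at hcont
    exact hcont.sub continuousOn_const
  have hmem : ∀ x ∈ Ico (0:ℝ) 1, h x - h 0 ∈ Ico (0:ℝ) 1 := by
    intro x hx
    obtain ⟨i, hi⟩ := exists_dom T hx
    have h1 : h x < h (T.top i.succ) := hstr i x hi.2
    have h2 := hnode i.succ
    have h3 : T₀.top i.succ ≤ T₀.top 4 := T₀.top_mono.monotone (Fin.le_last _)
    have h4 := hmono 0 x hx.1
    constructor
    · linarith
    · linarith
  refine ⟨fun x => h x - h 0, hcont', fun x _ y _ hxy => hmono x y hxy, ?_, ?_⟩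
  · apply Subset.antisymm
    · rintro _ ⟨x, hx, rfl⟩
      constructor
      · have := hmono 0 x hx.1
        show 0 ≤ h x - h 0
        linarith
      · have := hmono x 1 hx.2
        show h x - h 0 ≤ 1
        linarith
    · have := intermediate_value_Icc (zero_le_one' ℝ) hcont'
      simp only [hc0, hc1] at this
      exact this
  · intro x hx
    refine ⟨hmem x hx, ?_⟩
    obtain ⟨i, hi⟩ := exists_dom T hx
    have hi1 : T.top i.castSucc ≤ x := hi.1
    have hi2 : x < T.top i.succ := hi.2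
    rw [map_eq T hi]
    have h1 : h x < h (T.top i.succ) := hstr i x hi2
    have hm : h x - h 0 ∈ T₀.dom i := by
      constructor
      · have := hmono _ _ hi1
        rw [hnode] at this
        exact this
      · have := hnode i.succ
        show h x - h 0 < T₀.top i.succ
        linarith
    rw [map_eq T₀ hm]
    have h2 := H.eq i x (T.top i.castSucc) hi1 hi2.le le_rfl (T.top_mono Fin.castSucc_lt_succ).le
    rw [dat_l] at h2
    have h3 := ha i (T₀.top i.castSucc) (h x - h 0)
    rw [dat_l] at h3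
    have h4 := hnodeb (πb i)
    have h5 := hnode i.castSucc
    have h6 : one4 i = 1 := rfl
    rw [h6, one_mul] at h3
    show h ((dat T).f i x) - h 0 = (dat T₀).f i (h x - h 0)
    linarith

/-- Words give itineraries. -/
lemma iter_of_fol (T : X r) (m : ℕ) : ∀ (u : List (Fin 4)) (x : ℝ), m < u.length →
    Datum.Fol (dat T) u x → ∃ a : Fin 4, T.top a.castSucc < T.map^[m] x ∧ T.map^[m] x < T.top a.succ := by
  induction m with
  | zero =>
    intro u x hu hf
    cases u with
    | nil => simp at hu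
    | cons a u => exact ⟨a, hf.1, hf.2.1⟩
  | succ m ih =>
    intro u x hu hf
    cases u with
    | nil => simp at hu
    | cons a u =>
      have hx : x ∈ T.dom a := ⟨hf.1.le, hf.2.1⟩
      rw [Function.iterate_succ_apply, map_eq T hx]
      exact ih u _ (by simpa using hu) hf.2.2

theorem noConnections_of {T : X r} {M N : ℕ → ℕ} {D : ℕ → Datum} (t : Datum.Tower M N D)
    (hD0 : D 0 = dat T) : T.NoConnections := by
  intro m i j hi0 hi1 hj0 hj1 heq
  have hk : ∃ k : Fin 3, T.bot i = Datum.vv (D 0) k := by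
    rw [hD0]
    have b1 : T.bot 1 = (dat T).f 1 (T.top (1 : Fin 4).castSucc) := by rw [dat_l]; rfl
    have b2 : T.bot 2 = (dat T).f 0 (T.top (0 : Fin 4).castSucc) := by rw [dat_l]; rfl
    have b3 : T.bot 3 = (dat T).f 2 (T.top (2 : Fin 4).castSucc) := by rw [dat_l]; rfl
    fin_cases i
    · exact absurd rfl hi0
    · exact ⟨0, b1⟩
    · exact ⟨1, b2⟩
    · exact ⟨2, b3⟩
    · exact absurd rfl hi1
  obtain ⟨k, hk⟩ := hk
  obtain ⟨u, hu1, hu2⟩ := t.long (m+1) 0 k
  rw [← hk, hD0] at hu2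
  obtain ⟨a, ha1, ha2⟩ := iter_of_fol T m u _ (by omega) hu2
  rw [heq] at ha1 ha2
  have h1 : a.castSucc < j := T.top_mono.lt_iff_lt.mp ha1
  have h2 : j < a.succ := T.top_mono.lt_iff_lt.mp ha2
  rw [Fin.lt_def] at h1 h2
  simp only [Fin.val_castSucc, Fin.val_succ] at h1 h2
  omega

/-- Affine towers. -/
theorem aff_tower {ρ : ℕ → Fin 4 → ℝ} {M N : ℕ → ℕ} (hρ : ∀ k i, 0 < ρ k i)
    (hs : ∀ k, ρ (k+1) = nx (ρ k) (M k) (N k)) {y : ℕ → Fin 4 → ℝ}
    (hy : ∀ k, y k = Amap (ρ k) (M k) (N k) (y (k+1))) (hpos : ∀ k i, 0 < y k i)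
    (hM : ∀ k, 1 ≤ M k) (hN : ∀ k, 1 ≤ N k)
    {D : Datum} (hD : Datum.Aff (ρ 0) D) (m : D.Match) (hl : D.len = y 0) :
    (∀ k, Datum.Aff (ρ k) (Datum.it M N k D)) ∧ (∀ k, (Datum.it M N k D).len = y k) ∧
      Datum.Tower M N (fun k => Datum.it M N k D) := by
  have key : ∀ k, Datum.Aff (ρ k) (Datum.it M N k D) ∧ (Datum.it M N k D).len = y k := by
    intro k
    induction k with
    | zero => exact ⟨hD, hl⟩
    | succ k ih =>
      refine ⟨?_, ?_⟩
      · rw [Datum.it_succ, hs]; exact ih.1.ren _ _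
      · rw [Datum.it_succ]
        exact Datum.len_ren (hρ k) ih.1 (Datum.it_match m k) (by rw [ih.2, ← hy])
  refine ⟨fun k => (key k).1, fun k => (key k).2, hM, hN, fun k => rfl, fun k => Datum.it_match m k, ?_⟩
  intro k
  have h := (key k).2
  have h0 : (Datum.it M N k D).len 0 = y k 0 := congrFun h 0
  have h1 : (Datum.it M N k D).len 1 = y k 1 := congrFun h 1
  have h2 : (Datum.it M N k D).len 2 = y k 2 := congrFun h 2
  have h3 : (Datum.it M N k D).len 3 = y k 3 := congrFun h 3
  rw [Datum.len0] at h0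
  rw [Datum.len1] at h1
  rw [Datum.len2] at h2
  rw [Datum.len3] at h3
  exact ⟨by linarith [hpos k 0], by linarith [hpos k 1], by linarith [hpos k 2],
    by linarith [hpos k 3]⟩

end IEM

end Pool.Agent.H814R3
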