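import Mathlib
import Pool.Agent.H814R3.Semi

set_option autoImplicit false
set_option linter.unusedSectionVars false

/-!
Affine exchanges, and an open set of maps with controlled slopes.
-/

namespace Pool.Agent.H814R3

open Topology Set Filter

namespace IEM

variable {r : ℕ}

lemma derivWithin_clp {x : ℝ} (hx : x ∈ Icc (0:ℝ) 1) :
    derivWithin Pool.Agent.H814R3.clp (Icc 0 1) x = 1 := by
  have h : EqOn Pool.Agent.H814R3.clp id (Icc 0 1) := fun y hy => clp_of_mem hy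
  rw [derivWithin_congr h (clp_of_mem hx)]
  exact derivWithin_id _ _ (uniqueDiffOn_Icc (zero_lt_one' ℝ) x hx)

/-- The identity. -/
noncomputable def idU (r : ℕ) : UDiff r where
  toFun := Pool.Agent.H814R3.clp
  smooth := contDiffOn_id.congr fun x hx => clp_of_mem hx
  map_left x h := clp_of_le h
  map_right x h := clp_of_ge h
  deriv_pos x hx := by rw [derivWithin_clp hx]; exact one_pos

lemma hat_idU (x : ℝ) : hat (idU r) x = x := by
  rw [hat_apply]
  show Pool.Agent.H814R3.clp x + (x - Pool.Agent.H814R3.clp x) = x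
  ring

/-- Admissible lengths. -/
def Lam (ρ : Fin 4 → ℝ) : Set (Fin 4 → ℝ) := {x | (∀ i, 0 < x i) ∧ tot x = 1 ∧ bal ρ x = 0}

/-- The affine exchange with slopes `ρ` and lengths `x`. -/
noncomputable def affG (r : ℕ) {ρ : Fin 4 → ℝ} (hρ : ∀ i, 0 < ρ i) (x : Lam ρ) : X r where
  top := ![0, x.1 0, x.1 0 + x.1 1, x.1 0 + x.1 1 + x.1 2, 1]
  bot := ![0, ρ 3 * x.1 3, ρ 3 * x.1 3 + ρ 1 * x.1 1, ρ 3 * x.1 3 + ρ 1 * x.1 1 + ρ 0 * x.1 0, 1]
  top_mono := by
    have p0 := x.2.1 0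
    have p1 := x.2.1 1
    have p2 := x.2.1 2
    have p3 := x.2.1 3
    have ht := x.2.2.1
    unfold tot at ht
    rw [Fin.strictMono_iff_lt_succ]
    intro i
    fin_cases i
    · show (0:ℝ) < x.1 0
      exact p0
    · show x.1 0 < x.1 0 + x.1 1
      linarith
    · show x.1 0 + x.1 1 < x.1 0 + x.1 1 + x.1 2
      linarith
    · show x.1 0 + x.1 1 + x.1 2 < 1
      linarith
  bot_mono := by
    have p0 := mul_pos (hρ 0) (x.2.1 0)
    have p1 := mul_pos (hρ 1) (x.2.1 1)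
    have p2 := mul_pos (hρ 2) (x.2.1 2)
    have p3 := mul_pos (hρ 3) (x.2.1 3)
    have ht := x.2.2.1
    have hb := x.2.2.2
    unfold tot at ht
    unfold bal at hb
    rw [Fin.strictMono_iff_lt_succ]
    intro i
    fin_cases i
    · show (0:ℝ) < ρ 3 * x.1 3
      exact p3
    · show ρ 3 * x.1 3 < ρ 3 * x.1 3 + ρ 1 * x.1 1
      linarith
    · show ρ 3 * x.1 3 + ρ 1 * x.1 1 < ρ 3 * x.1 3 + ρ 1 * x.1 1 + ρ 0 * x.1 0
      linarith
    · show ρ 3 * x.1 3 + ρ 1 * x.1 1 + ρ 0 * x.1 0 < 1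
      linarith
  top_zero := rfl
  top_last := rfl
  bot_zero := rfl
  bot_last := rfl
  br := fun _ => idU r

section affG
variable {ρ : Fin 4 → ℝ} (hρ : ∀ i, 0 < ρ i)

lemma affG_tl (x : Lam ρ) (i : Fin 4) : tl (affG r hρ x) i = x.1 i := by
  have ht := x.2.2.1
  unfold tot at ht
  fin_cases i
  · show x.1 0 - 0 = x.1 0
    ring
  · show x.1 0 + x.1 1 - x.1 0 = x.1 1
    ring
  · show x.1 0 + x.1 1 + x.1 2 - (x.1 0 + x.1 1) = x.1 2
    ring
  · show 1 - (x.1 0 + x.1 1 + x.1 2) = x.1 3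
    linarith

lemma affG_bl (x : Lam ρ) (i : Fin 4) : bl (affG r hρ x) i = ρ i * x.1 i := by
  have ht := x.2.2.1
  have hb := x.2.2.2
  unfold tot at ht
  unfold bal at hb
  fin_cases i
  · show ρ 3 * x.1 3 + ρ 1 * x.1 1 + ρ 0 * x.1 0 - (ρ 3 * x.1 3 + ρ 1 * x.1 1) = ρ 0 * x.1 0
    ring
  · show ρ 3 * x.1 3 + ρ 1 * x.1 1 - ρ 3 * x.1 3 = ρ 1 * x.1 1
    ring
  · show 1 - (ρ 3 * x.1 3 + ρ 1 * x.1 1 + ρ 0 * x.1 0) = ρ 2 * x.1 2
    linarith
  · show ρ 3 * x.1 3 - 0 = ρ 3 * x.1 3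
    ring

lemma affG_aff (x : Lam ρ) : Datum.Aff ρ (dat (affG r hρ x)) := by
  intro i y z
  rw [dat_f, dat_f, affG_bl, affG_tl]
  have e : ∀ w, hat ((affG r hρ x).br i) w = w := fun w => hat_idU w
  rw [e, e]
  have := (x.2.1 i).ne'
  field_simp
  ring

lemma affG_len (x : Lam ρ) : (dat (affG r hρ x)).len = x.1 := by
  funext i
  exact affG_tl (r := r) hρ x i

lemma affG_cont : Continuous (affG r hρ) := by
  apply continuous_induced_rng.mpr
  have hx : ∀ i : Fin 4, Continuous fun x : Lam ρ => x.1 i := fun i =>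
    (continuous_apply i).comp continuous_subtype_val
  refine Continuous.prodMk ?_ (Continuous.prodMk ?_ ?_)
  · apply continuous_pi
    intro j
    fin_cases j
    · exact continuous_const
    · exact hx 0
    · exact (hx 0).add (hx 1)
    · exact ((hx 0).add (hx 1)).add (hx 2)
    · exact continuous_const
  · apply continuous_pi
    intro j
    fin_cases j
    · exact continuous_const
    · exact continuous_const.mul (hx 3)
    · exact (continuous_const.mul (hx 3)).add (continuous_const.mul (hx 1))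
    · exact ((continuous_const.mul (hx 3)).add (continuous_const.mul (hx 1))).add
        (continuous_const.mul (hx 0))
    · exact continuous_const
  · exact continuous_const

end affG

/-- Maps with slopes close to `ρ`. -/
def OB (r : ℕ) (hr : 1 ≤ r) (ρ : Fin 4 → ℝ) : Set (X r) :=
  {T | ∀ i, ‖UDiff.der ⟨1, by omega⟩ (T.br i) - 1‖ < 1/4 ∧ 3/4 * ρ i * tl T i < bl T i ∧
    bl T i < 5/4 * ρ i * tl T i}

lemma OB_open (hr : 1 ≤ r) (ρ : Fin 4 → ℝ) : IsOpen (OB r hr ρ) := by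
  have : OB r hr ρ = ⋂ i, ({T | ‖UDiff.der ⟨1, by omega⟩ (T.br i) - 1‖ < 1/4} ∩
      ({T | 3/4 * ρ i * tl T i < bl T i} ∩ {T | bl T i < 5/4 * ρ i * tl T i})) := by
    ext T
    simp only [OB, mem_iInter, mem_inter_iff, mem_ofPred_eq]
  rw [this]
  apply isOpen_iInter_of_finite
  intro i
  refine (isOpen_lt ?_ continuous_const).inter ((isOpen_lt ?_ ?_).inter (isOpen_lt ?_ ?_))
  · exact (((continuous_der _).comp (continuous_br i)).sub continuous_const).norm
  · exact continuous_const.mul (continuous_tl i)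
  · exact continuous_bl i
  · exact continuous_bl i
  · exact continuous_const.mul (continuous_tl i)

lemma affG_mem_OB (hr : 1 ≤ r) {ρ : Fin 4 → ℝ} (hρ : ∀ i, 0 < ρ i) (x : Lam ρ) :
    affG r hρ x ∈ OB r hr ρ := by
  intro i
  have hp := mul_pos (hρ i) (x.2.1 i)
  refine ⟨?_, ?_, ?_⟩
  · have : UDiff.der ⟨1, by omega⟩ ((affG r hρ x).br i) = 1 := by
      ext t
      show iteratedDerivWithin 1 Pool.Agent.H814R3.clp (Icc 0 1) t = 1
      rw [iteratedDerivWithin_one]
      exact derivWithin_clp t.2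
    rw [this, sub_self, norm_zero]
    norm_num
  · rw [affG_tl, affG_bl]; linarith
  · rw [affG_tl, affG_bl]; linarith

/-- The bounds of the initial data. -/
noncomputable def Bini (ρ : Fin 4 → ℝ) : Bd := ⟨fun i => ρ i / 2, fun i => 2 * ρ i⟩

lemma hasBd_of_OB (hr : 1 ≤ r) {ρ : Fin 4 → ℝ} (hρ : ∀ i, 0 < ρ i) {T : X r} (h : T ∈ OB r hr ρ) :
    (dat T).HasBd (Bini ρ) := by
  intro i
  obtain ⟨h1, h2, h3⟩ := h i
  have hd : ∀ x ∈ Icc (0:ℝ) 1, |derivWithin (T.br i).toFun (Icc 0 1) x - 1| ≤ 1/4 := by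
    intro x hx
    have h4 := (UDiff.der ⟨1, by omega⟩ (T.br i) - 1).norm_coe_le_norm ⟨x, hx⟩
    have h5 : (UDiff.der ⟨1, by omega⟩ (T.br i) - 1) ⟨x, hx⟩ =
        derivWithin (T.br i).toFun (Icc 0 1) x - 1 := by
      show iteratedDerivWithin 1 (T.br i).toFun (Icc 0 1) x - 1 = _
      rw [iteratedDerivWithin_one]
    rw [h5, Real.norm_eq_abs] at h4
    exact h4.trans h1.le
  have hb := hat_BL (by norm_num) hd hr
  have ht := tl_pos T i
  have hbl := bl_pos T i
  have hp := hρ i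
  intro x y hxy
  rw [dat_f, dat_f]
  have hxy' : (x - T.top i.castSucc) / tl T i ≤ (y - T.top i.castSucc) / tl T i :=
    div_le_div_of_nonneg_right (by linarith) ht.le
  have h6 := hb _ _ hxy'
  have e1 : (y - T.top i.castSucc) / tl T i - (x - T.top i.castSucc) / tl T i = (y - x) / tl T i := by
    ring
  rw [e1] at h6
  have hq : 0 ≤ y - x := by linarith
  have g1 : 3/4 * ρ i * (y - x) ≤ bl T i * ((y - x) / tl T i) := by
    rw [← mul_div_assoc, le_div_iff₀ ht]
    nlinarith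
  have g2 : bl T i * ((y - x) / tl T i) ≤ 5/4 * ρ i * (y - x) := by
    rw [← mul_div_assoc, div_le_iff₀ ht]
    nlinarith
  have g3 := mul_le_mul_of_nonneg_left h6.1 hbl.le
  have g4 := mul_le_mul_of_nonneg_left h6.2 hbl.le
  have g5 : 0 ≤ ρ i * (y - x) := mul_nonneg hp.le hq
  show ρ i / 2 * (y - x) ≤ _ ∧ _ ≤ 2 * ρ i * (y - x)
  constructor
  · nlinarith
  · nlinarith

end IEM

end Pool.Agent.H814R3
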