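import Mathlib
import Pool.Agent.H814R3.AffSeq
import Pool.Agent.H814R3.Plat

set_option autoImplicit false
set_option linter.unusedSectionVars false
set_option linter.unusedVariables false

/-!
Choice of the parameters.
-/

namespace Pool.Agent.H814R3

open Filter Topology Set

/-- The state of the recursion. -/
structure St where
  B : Bd
  R : Fin 4 → ℝ
  F : (Fin 4 → ℝ) → (Fin 4 → ℝ)
  q : ℝ
  p : ℝ
  n : ℕ

/-- Valid states. -/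
structure St.Valid (S : St) : Prop where
  ok : S.B.OK
  mid : ∀ i, S.B.lo i ≤ S.R i ∧ S.R i ≤ S.B.hi i
  cont : Continuous S.F
  cone : ∀ x : Fin 4 → ℝ, (∀ i, 0 ≤ x i) → (∀ i, 0 ≤ S.F x i) ∧ tot x ≤ tot (S.F x)
  hq : 0 < S.q
  hp : 0 < S.p

/-- The next state. -/
noncomputable def St.next (S : St) (M N : ℕ) : St :=
  ⟨renB M N S.B, nx S.R M N, fun x => S.F (Amap S.R M N x), S.B.lo 2 ^ (N+1),
    S.p * S.B.lo 2 ^ N, S.n + 1⟩

/-- The conditions on the chosen parameters. -/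
structure St.Good (S : St) (M N : ℕ) : Prop where
  par : Par S.B (S.B.hi 0 + 1) M N
  c6 : 1 ≤ S.B.lo 2 ^ (N+1) * S.B.lo 1 ^ M * S.q
  c7 : S.B.hi 2 ^ N * S.B.hi 0 * S.B.hi 3 ≤ (1/2) ^ S.n * S.p
  shr : ∀ x ∈ QQ S.R, ∀ y ∈ QQ S.R, x 0 ≤ 2 * S.R 2 ^ (N+1) → x 3 ≤ 2 * S.R 2 ^ (N+1) →
    y 0 ≤ 2 * S.R 2 ^ (N+1) → y 3 ≤ 2 * S.R 2 ^ (N+1) →
    dist (nrm (S.F x)) (nrm (S.F y)) ≤ (1/2) ^ S.n

/-- The limiting configuration. -/
noncomputable def pst (ρ : Fin 4 → ℝ) : Fin 4 → ℝ :=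
  ![0, (1 - ρ 2) / (ρ 1 - ρ 2), (ρ 1 - 1) / (ρ 1 - ρ 2), 0]

lemma pst_mem {ρ : Fin 4 → ℝ} (h1 : 2 ≤ ρ 1) (h2 : ρ 2 ≤ 1/2) : pst ρ ∈ QQ ρ := by
  have hd : 0 < ρ 1 - ρ 2 := by linarith
  refine ⟨?_, ?_, ?_⟩
  · intro i
    fin_cases i
    · exact le_rfl
    · exact div_nonneg (by linarith) hd.le
    · exact div_nonneg (by linarith) hd.le
    · exact le_rfl
  · show (0:ℝ) + (1 - ρ 2) / (ρ 1 - ρ 2) + (ρ 1 - 1) / (ρ 1 - ρ 2) + 0 = 1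
    field_simp
    ring
  · show (ρ 0 - 1) * (0:ℝ) + (ρ 1 - 1) * ((1 - ρ 2) / (ρ 1 - ρ 2)) +
      (ρ 2 - 1) * ((ρ 1 - 1) / (ρ 1 - ρ 2)) + (ρ 3 - 1) * 0 = 0
    field_simp
    ring

lemma dist_pst {ρ : Fin 4 → ℝ} (h0 : 2 ≤ ρ 0) (h1 : 2 ≤ ρ 1) (h2 : ρ 2 ≤ 1/2) (h2' : 0 < ρ 2)
    (h3 : ρ 3 ≤ 1/2) (h3' : 0 < ρ 3)
    {x : Fin 4 → ℝ} (hx : x ∈ QQ ρ) {δ : ℝ} (hδ : 0 ≤ δ) (hx0 : x 0 ≤ δ) (hx3 : x 3 ≤ δ) :
    dist x (pst ρ) ≤ (ρ 0 + 3) * δ := by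
  have hd : 0 < ρ 1 - ρ 2 := by linarith
  have hnn := hx.1
  have a0 := hnn 0
  have a3 := hnn 3
  have ht := hx.2.1
  have hb := hx.2.2
  unfold tot at ht
  unfold bal at hb
  have hx2 : x 2 = 1 - x 0 - x 1 - x 3 := by linarith
  have key : (ρ 1 - ρ 2) * (x 1 - (1 - ρ 2) / (ρ 1 - ρ 2)) = -(ρ 0 - ρ 2) * x 0 + (ρ 2 - ρ 3) * x 3 := by
    rw [mul_sub, mul_div_cancel₀ _ hd.ne']
    rw [hx2] at hb
    linear_combination hb
  have hk : |x 1 - (1 - ρ 2) / (ρ 1 - ρ 2)| ≤ (ρ 0 + 1) * δ := by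
    have e0 : (ρ 0 - ρ 2) * x 0 ≤ ρ 0 * δ := by
      calc (ρ 0 - ρ 2) * x 0 ≤ (ρ 0 - ρ 2) * δ := mul_le_mul_of_nonneg_left hx0 (by linarith)
        _ ≤ ρ 0 * δ := mul_le_mul_of_nonneg_right (by linarith) hδ
    have e0' : 0 ≤ (ρ 0 - ρ 2) * x 0 := mul_nonneg (by linarith) a0
    have e3 : |(ρ 2 - ρ 3) * x 3| ≤ δ := by
      rw [abs_mul, abs_of_nonneg a3]
      have : |ρ 2 - ρ 3| ≤ 1 := by rw [abs_le]; constructor <;> linarith
      calc |ρ 2 - ρ 3| * x 3 ≤ 1 * x 3 := mul_le_mul_of_nonneg_right this a3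
        _ ≤ δ := by linarith
    rw [abs_le] at e3
    have e4 : |(ρ 1 - ρ 2) * (x 1 - (1 - ρ 2) / (ρ 1 - ρ 2))| ≤ (ρ 0 + 1) * δ := by
      rw [key, abs_le]
      constructor <;> nlinarith [e3.1, e3.2]
    rw [abs_mul, abs_of_pos hd] at e4
    have e5 : |x 1 - (1 - ρ 2) / (ρ 1 - ρ 2)| ≤ (ρ 1 - ρ 2) * |x 1 - (1 - ρ 2) / (ρ 1 - ρ 2)| := by
      have := mul_le_mul_of_nonneg_right (show (1:ℝ) ≤ ρ 1 - ρ 2 by linarith)
        (abs_nonneg (x 1 - (1 - ρ 2) / (ρ 1 - ρ 2)))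
      linarith
    linarith
  have hkk := abs_le.mp hk
  have hC : 0 ≤ (ρ 0 + 3) * δ := mul_nonneg (by linarith) hδ
  rw [dist_pi_le_iff hC]
  intro i
  rw [Real.dist_eq, abs_le]
  have hrδ : 0 ≤ ρ 0 * δ := mul_nonneg (by linarith) hδ
  fin_cases i
  · show -((ρ 0 + 3) * δ) ≤ x 0 - 0 ∧ x 0 - 0 ≤ (ρ 0 + 3) * δ
    constructor <;> nlinarith
  · show -((ρ 0 + 3) * δ) ≤ x 1 - (1 - ρ 2) / (ρ 1 - ρ 2) ∧
      x 1 - (1 - ρ 2) / (ρ 1 - ρ 2) ≤ (ρ 0 + 3) * δ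
    constructor <;> nlinarith [hkk.1, hkk.2]
  · show -((ρ 0 + 3) * δ) ≤ x 2 - (ρ 1 - 1) / (ρ 1 - ρ 2) ∧
      x 2 - (ρ 1 - 1) / (ρ 1 - ρ 2) ≤ (ρ 0 + 3) * δ
    have e : (ρ 1 - 1) / (ρ 1 - ρ 2) = 1 - (1 - ρ 2) / (ρ 1 - ρ 2) := by
      field_simp
      ring
    rw [e, hx2]
    constructor <;> nlinarith [hkk.1, hkk.2]
  · show -((ρ 0 + 3) * δ) ≤ x 3 - 0 ∧ x 3 - 0 ≤ (ρ 0 + 3) * δ
    constructor <;> nlinarith

lemma continuousAt_nrm {x : Fin 4 → ℝ} (h : tot x ≠ 0) : ContinuousAt nrm x := by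
  unfold nrm
  exact (continuous_tot.continuousAt.inv₀ h).smul continuousAt_id

lemma renB_mid {B : Bd} {R : Fin 4 → ℝ} (hB : ∀ i, 0 < B.lo i)
    (h : ∀ i, B.lo i ≤ R i ∧ R i ≤ B.hi i) (M N : ℕ) (i : Fin 4) :
    (renB M N B).lo i ≤ nx R M N i ∧ nx R M N i ≤ (renB M N B).hi i := by
  have h0 := hB 0
  have h1 := hB 1
  have h2 := hB 2
  have h3 := hB 3
  have r0 : 0 < R 0 := h0.trans_le (h 0).1
  have r1 : 0 < R 1 := h1.trans_le (h 1).1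
  have r2 : 0 < R 2 := h2.trans_le (h 2).1
  have r3 : 0 < R 3 := h3.trans_le (h 3).1
  have s0 : 0 < B.hi 0 := r0.trans_le (h 0).2
  have s1 : 0 < B.hi 1 := r1.trans_le (h 1).2
  have s2 : 0 < B.hi 2 := r2.trans_le (h 2).2
  have s3 : 0 < B.hi 3 := r3.trans_le (h 3).2
  have p2 := fun n : ℕ => pow_le_pow_left₀ h2.le (h 2).1 n
  have p1 := fun n : ℕ => pow_le_pow_left₀ h1.le (h 1).1 n
  have p2' := fun n : ℕ => pow_le_pow_left₀ r2.le (h 2).2 n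
  have p1' := fun n : ℕ => pow_le_pow_left₀ r1.le (h 1).2 n
  fin_cases i
  · constructor
    · show B.lo 2 ^ (N+1) * B.lo 1 ^ M * B.lo 3 ≤ R 2 ^ (N+1) * R 1 ^ M * R 3
      exact mul_le_mul (mul_le_mul (p2 _) (p1 _) (by positivity) (by positivity)) (h 3).1 h3.le
        (by positivity)
    · show R 2 ^ (N+1) * R 1 ^ M * R 3 ≤ B.hi 2 ^ (N+1) * B.hi 1 ^ M * B.hi 3
      exact mul_le_mul (mul_le_mul (p2' _) (p1' _) (by positivity) (by positivity)) (h 3).2 r3.le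
        (by positivity)
  · constructor
    · show B.lo 2 ^ (N+1) * B.lo 1 ^ (M+1) * B.lo 3 ≤ R 2 ^ (N+1) * R 1 ^ (M+1) * R 3
      exact mul_le_mul (mul_le_mul (p2 _) (p1 _) (by positivity) (by positivity)) (h 3).1 h3.le
        (by positivity)
    · show R 2 ^ (N+1) * R 1 ^ (M+1) * R 3 ≤ B.hi 2 ^ (N+1) * B.hi 1 ^ (M+1) * B.hi 3
      exact mul_le_mul (mul_le_mul (p2' _) (p1' _) (by positivity) (by positivity)) (h 3).2 r3.le
        (by positivity)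
  · constructor
    · show B.lo 2 ^ N * B.lo 0 * B.lo 3 ≤ R 2 ^ N * R 0 * R 3
      exact mul_le_mul (mul_le_mul (p2 _) (h 0).1 (by positivity) (by positivity)) (h 3).1 h3.le
        (by positivity)
    · show R 2 ^ N * R 0 * R 3 ≤ B.hi 2 ^ N * B.hi 0 * B.hi 3
      exact mul_le_mul (mul_le_mul (p2' _) (h 0).2 (by positivity) (by positivity)) (h 3).2 r3.le
        (by positivity)
  · constructor
    · show B.lo 2 ^ (N+1) * B.lo 0 * B.lo 3 ≤ R 2 ^ (N+1) * R 0 * R 3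
      exact mul_le_mul (mul_le_mul (p2 _) (h 0).1 (by positivity) (by positivity)) (h 3).1 h3.le
        (by positivity)
    · show R 2 ^ (N+1) * R 0 * R 3 ≤ B.hi 2 ^ (N+1) * B.hi 0 * B.hi 3
      exact mul_le_mul (mul_le_mul (p2' _) (h 0).2 (by positivity) (by positivity)) (h 3).2 r3.le
        (by positivity)

lemma ev_small {r c e : ℝ} (hr0 : 0 ≤ r) (hr1 : r < 1) (he : 0 < e) :
    ∀ᶠ n : ℕ in atTop, r ^ n * c ≤ e := by
  have h := (tendsto_pow_atTop_nhds_zero_of_lt_one hr0 hr1).mul_const c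
  rw [zero_mul] at h
  exact (h.eventually_lt_const he).mono fun n hn => hn.le

lemma ev_large {r c e : ℝ} (hr : 1 < r) (hc : 0 < c) :
    ∀ᶠ n : ℕ in atTop, e ≤ c * r ^ n := by
  have h := (tendsto_pow_atTop_atTop_of_one_lt hr).const_mul_atTop hc
  exact h.eventually_ge_atTop e

theorem St.Valid.step {S : St} (h : S.Valid) : ∃ M N, S.Good M N ∧ (S.next M N).Valid := by
  have hB := h.ok
  have p0 := hB.pos 0
  have p1 := hB.pos 1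
  have p2 := hB.pos 2
  have p3 := hB.pos 3
  have q0 := p0.trans_le (hB.le 0)
  have q1 := p1.trans_le (hB.le 1)
  have q2 := p2.trans_le (hB.le 2)
  have q3 := p3.trans_le (hB.le 3)
  have hR0 : 2 ≤ S.R 0 := hB.e0.trans (h.mid 0).1
  have hR1 : 2 ≤ S.R 1 := hB.e1.trans (h.mid 1).1
  have hR2 : S.R 2 ≤ 1/2 := (h.mid 2).2.trans hB.k2
  have hR3 : S.R 3 ≤ 1/2 := (h.mid 3).2.trans hB.k3
  have hR2' : 0 < S.R 2 := p2.trans_le (h.mid 2).1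
  have hR3' : 0 < S.R 3 := p3.trans_le (h.mid 3).1
  have hRp : ∀ i, 0 < S.R i := fun i => (hB.pos i).trans_le (h.mid i).1
  set κ : ℝ := S.B.hi 0 + 1 with hκ
  -- shrinking
  have hpm := pst_mem hR1 hR2
  have htot : tot (S.F (pst S.R)) ≠ 0 := by
    have := (h.cone _ hpm.1).2
    rw [hpm.2.1] at this
    linarith
  have hc : ContinuousAt (fun x => nrm (S.F x)) (pst S.R) :=
    (continuousAt_nrm htot).comp h.cont.continuousAt
  have he : 0 < (1/2 : ℝ) ^ S.n / 2 := by positivity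
  obtain ⟨δ', hδ', hδc⟩ := Metric.continuousAt_iff.mp hc _ he
  set δ : ℝ := δ' / (2 * (S.R 0 + 3)) with hδ
  have hδ0 : 0 < δ := div_pos hδ' (by linarith)
  have hshr : ∀ x ∈ QQ S.R, x 0 ≤ δ → x 3 ≤ δ →
      dist (nrm (S.F x)) (nrm (S.F (pst S.R))) < (1/2) ^ S.n / 2 := by
    intro x hx h0 h3
    apply hδc
    have := dist_pst hR0 hR1 hR2 hR2' hR3 hR3' hx hδ0.le h0 h3
    have e : (S.R 0 + 3) * δ = δ' / 2 := by
      rw [hδ]; field_simp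
    rw [e] at this
    linarith
  have hp := h.hp
  -- the choice of N
  have hhi1 : S.B.hi 2 < 1 := by linarith [hB.k2]
  obtain ⟨N, hN2, hNa, hNb, hNc, hNd⟩ := ((eventually_ge_atTop 2).and
    ((ev_small (c := 2 * (1 + κ)) q2.le hhi1 one_pos).and
    ((ev_small (c := S.B.hi 0 * S.B.hi 3) (e := 1/2) q2.le hhi1 (by norm_num)).and
    ((ev_small (c := S.B.hi 0 * S.B.hi 3) (e := (1/2)^S.n * S.p) q2.le hhi1 (by positivity)).and
    (ev_small (r := S.R 2) (c := 2 * S.R 2) (e := δ) hR2'.le (by linarith) hδ0))))).exists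
  have hlo1 : 1 < S.B.lo 1 := by linarith [hB.e1]
  have hlN : 0 < S.B.lo 2 ^ (N+1) := pow_pos p2 _
  obtain ⟨M, hM2, hMa, hMb, hMc, hMd⟩ := ((eventually_ge_atTop 2).and
    ((ev_large (c := S.B.lo 3) (e := (κ + 1) * 4) hlo1 p3).and
    ((ev_large (c := S.B.lo 2 ^ (N+1) * S.B.lo 3) (e := 9) hlo1 (mul_pos hlN p3)).and
    ((ev_large (c := S.B.lo 2 ^ (N+1) * S.B.lo 3) (e := 2) hlo1 (mul_pos hlN p3)).and
    (ev_large (c := S.B.lo 2 ^ (N+1) * S.q) (e := 1) hlo1 (mul_pos hlN h.hq)))))).exists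
  have hmid' := renB_mid hB.pos h.mid M N
  have hok : (renB M N S.B).OK := by
    refine ⟨?_, fun i => (hmid' i).1.trans (hmid' i).2, ?_, ?_, ?_, ?_⟩
    · intro i
      fin_cases i
      · exact mul_pos (mul_pos (pow_pos p2 _) (pow_pos p1 _)) p3
      · exact mul_pos (mul_pos (pow_pos p2 _) (pow_pos p1 _)) p3
      · exact mul_pos (mul_pos (pow_pos p2 _) p0) p3
      · exact mul_pos (mul_pos (pow_pos p2 _) p0) p3
    · show 2 ≤ S.B.lo 2 ^ (N+1) * S.B.lo 1 ^ M * S.B.lo 3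
      linarith
    · show 2 ≤ S.B.lo 2 ^ (N+1) * S.B.lo 1 ^ (M+1) * S.B.lo 3
      have e : S.B.lo 2 ^ (N+1) * S.B.lo 1 ^ (M+1) * S.B.lo 3 =
        (S.B.lo 2 ^ (N+1) * S.B.lo 3 * S.B.lo 1 ^ M) * S.B.lo 1 := by ring
      rw [e]
      nlinarith [hB.e1]
    · show S.B.hi 2 ^ N * S.B.hi 0 * S.B.hi 3 ≤ 1/2
      linarith
    · show S.B.hi 2 ^ (N+1) * S.B.hi 0 * S.B.hi 3 ≤ 1/2
      have e : S.B.hi 2 ^ (N+1) * S.B.hi 0 * S.B.hi 3 =
        S.B.hi 2 * (S.B.hi 2 ^ N * (S.B.hi 0 * S.B.hi 3)) := by ring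
      rw [e]
      have h5 : 0 ≤ S.B.hi 2 ^ N * (S.B.hi 0 * S.B.hi 3) := by positivity
      nlinarith [hB.k2]
  refine ⟨M, N, ⟨⟨?_, hN2, hNa, hM2, hMa, ?_, hok⟩, ?_, ?_, ?_⟩, ?_⟩
  · linarith
  · linarith
  · linarith
  · linarith
  · intro x hx y hy hx0 hx3 hy0 hy3
    have e : 2 * S.R 2 ^ (N+1) = S.R 2 ^ N * (2 * S.R 2) := by ring
    rw [e] at hx0 hx3 hy0 hy3
    have h1 := hshr x hx (hx0.trans hNd) (hx3.trans hNd)
    have h2 := hshr y hy (hy0.trans hNd) (hy3.trans hNd)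
    have h3 := dist_triangle_right (nrm (S.F x)) (nrm (S.F y)) (nrm (S.F (pst S.R)))
    linarith
  · refine ⟨hok, hmid', ?_, ?_, hlN, mul_pos hp (pow_pos p2 _)⟩
    · exact h.cont.comp (continuous_A _ _ _)
    · intro x hx
      have h1 := A_nonneg hRp M N hx
      have h2 := h.cone _ h1
      exact ⟨h2.1, (A_tot hRp M N hx).trans h2.2⟩

/-- The composite maps. -/
noncomputable def Phi (R : ℕ → Fin 4 → ℝ) (M N : ℕ → ℕ) : ℕ → (Fin 4 → ℝ) → (Fin 4 → ℝ)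
  | 0 => fun x => x
  | k+1 => fun x => Phi R M N k (Amap (R k) (M k) (N k) x)

/-- The outcome of the choices. -/
structure Ch (B0 : Bd) (R0 : Fin 4 → ℝ) where
  q : Seqs
  R : ℕ → Fin 4 → ℝ
  hB0 : q.B 0 = B0
  hR0 : R 0 = R0
  mid : ∀ k i, (q.B k).lo i ≤ R k i ∧ R k i ≤ (q.B k).hi i
  Rs : ∀ k, R (k+1) = nx (R k) (q.M k) (q.N k)
  bs : Datum.BSeq q.M q.N q.B
  c7 : ∀ n, (q.B (2*n+1)).hi 2 ≤ (1/2)^n * ∏ j ∈ Finset.range (2*n), (q.B j).lo 2 ^ q.N j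
  shr : ∀ k, ∀ x ∈ QQ (R k), ∀ y ∈ QQ (R k), x 0 ≤ 2 * R k 2 ^ (q.N k+1) →
    x 3 ≤ 2 * R k 2 ^ (q.N k+1) → y 0 ≤ 2 * R k 2 ^ (q.N k+1) → y 3 ≤ 2 * R k 2 ^ (q.N k+1) →
    dist (nrm (Phi R q.M q.N k x)) (nrm (Phi R q.M q.N k y)) ≤ (1/2) ^ k

section build
variable (S0 : {S : St // S.Valid})

/-- The sequence of states. -/
noncomputable def stt : ℕ → {S : St // S.Valid}
  | 0 => S0
  | k+1 => ⟨(stt k).1.next (Classical.choose (stt k).2.step)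
      (Classical.choose (Classical.choose_spec (stt k).2.step)),
      (Classical.choose_spec (Classical.choose_spec (stt k).2.step)).2⟩

/-- The chosen M. -/
noncomputable def sM (k : ℕ) : ℕ := Classical.choose (stt S0 k).2.step
/-- The chosen N. -/
noncomputable def sN (k : ℕ) : ℕ := Classical.choose (Classical.choose_spec (stt S0 k).2.step)

lemma s_good (k : ℕ) : (stt S0 k).1.Good (sM S0 k) (sN S0 k) :=
  (Classical.choose_spec (Classical.choose_spec (stt S0 k).2.step)).1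

lemma stt_succ (k : ℕ) : (stt S0 (k+1)).1 = (stt S0 k).1.next (sM S0 k) (sN S0 k) := rfl

end build

theorem exists_Ch {B0 : Bd} {R0 : Fin 4 → ℝ} (hB : B0.OK) (hm : ∀ i, B0.lo i ≤ R0 i ∧ R0 i ≤ B0.hi i) :
    Nonempty (Ch B0 R0) := by
  let S0 : {S : St // S.Valid} := ⟨⟨B0, R0, fun x => x, 1, 1, 0⟩,
    ⟨hB, hm, continuous_id, fun x hx => ⟨hx, le_rfl⟩, one_pos, one_pos⟩⟩
  have hF : ∀ k, (stt S0 k).1.F = Phi (fun k => (stt S0 k).1.R) (sM S0) (sN S0) k := by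
    intro k
    induction k with
    | zero => rfl
    | succ k ih =>
      rw [stt_succ]
      show (fun x => (stt S0 k).1.F (Amap _ _ _ x)) = fun x => Phi _ _ _ k (Amap _ _ _ x)
      rw [ih]
  have hn : ∀ k, (stt S0 k).1.n = k := by
    intro k
    induction k with
    | zero => rfl
    | succ k ih => rw [stt_succ]; show (stt S0 k).1.n + 1 = k + 1; rw [ih]
  have hp : ∀ k, (stt S0 k).1.p = ∏ j ∈ Finset.range k, (stt S0 j).1.B.lo 2 ^ sN S0 j := by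
    intro k
    induction k with
    | zero => rfl
    | succ k ih =>
      rw [stt_succ, Finset.prod_range_succ, ← ih]
      rfl
  refine ⟨⟨⟨fun k => (stt S0 k).1.B.hi 0 + 1, sM S0, sN S0, fun k => (stt S0 k).1.B,
    fun k => (stt S0 k).2.ok, fun k => (s_good S0 k).par, fun k => rfl⟩,
    fun k => (stt S0 k).1.R, rfl, rfl, fun k => (stt S0 k).2.mid, fun k => rfl, ?_, ?_, ?_⟩⟩
  · refine ⟨fun k => (stt S0 k).2.ok, fun k => rfl, ?_⟩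
    intro k
    exact (s_good S0 (k+1)).c6
  · intro n
    have h1 := (s_good S0 (2*n)).c7
    rw [hn, hp] at h1
    have h2 : (stt S0 (2*n+1)).1.B.hi 2 =
      (stt S0 (2*n)).1.B.hi 2 ^ sN S0 (2*n) * (stt S0 (2*n)).1.B.hi 0 * (stt S0 (2*n)).1.B.hi 3 := rfl
    have hpp : 0 < ∏ j ∈ Finset.range (2*n), (stt S0 j).1.B.lo 2 ^ sN S0 j :=
      Finset.prod_pos fun j _ => pow_pos ((stt S0 j).2.ok.pos 2) _
    have h3 : ((1:ℝ)/2)^(2*n) ≤ (1/2)^n :=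
      pow_le_pow_of_le_one (by norm_num) (by norm_num) (by omega)
    show (stt S0 (2*n+1)).1.B.hi 2 ≤ _
    rw [h2]
    exact h1.trans (mul_le_mul_of_nonneg_right h3 hpp.le)
  · intro k x hx y hy h1 h2 h3 h4
    have := (s_good S0 k).shr x hx y hy h1 h2 h3 h4
    rw [hn, hF] at this
    exact this

section Ch
variable {B0 : Bd} {R0 : Fin 4 → ℝ} (C : Ch B0 R0)

lemma Ch.Rpos (k : ℕ) (i : Fin 4) : 0 < C.R k i := ((C.q.ok k).pos i).trans_le (C.mid k i).1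

lemma Ch.R0le (k : ℕ) : 2 ≤ C.R k 0 := (C.q.ok k).e0.trans (C.mid k 0).1
lemma Ch.R1le (k : ℕ) : 2 ≤ C.R k 1 := (C.q.ok k).e1.trans (C.mid k 1).1
lemma Ch.R2le (k : ℕ) : C.R k 2 ≤ 1/2 := (C.mid k 2).2.trans (C.q.ok k).k2
lemma Ch.R3le (k : ℕ) : C.R k 3 ≤ 1/2 := (C.mid k 3).2.trans (C.q.ok k).k3

/-- The composite maps of a choice. -/
noncomputable def Ch.Φ (k : ℕ) : (Fin 4 → ℝ) → (Fin 4 → ℝ) := Phi C.R C.q.M C.q.N k

/-- One map of a choice. -/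
noncomputable def Ch.A (k : ℕ) : (Fin 4 → ℝ) → (Fin 4 → ℝ) := Amap (C.R k) (C.q.M k) (C.q.N k)

lemma Ch.Φ_succ (k : ℕ) (x : Fin 4 → ℝ) : C.Φ (k+1) x = C.Φ k (C.A k x) := rfl

lemma Ch.Φ_smul (k : ℕ) (c : ℝ) (x : Fin 4 → ℝ) : C.Φ k (c • x) = c • C.Φ k x := by
  induction k generalizing x with
  | zero => rfl
  | succ k ih => rw [C.Φ_succ, C.Φ_succ, Ch.A, A_smul, ih]

lemma Ch.Φ_cont (k : ℕ) : Continuous (C.Φ k) := by
  induction k with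
  | zero => exact continuous_id
  | succ k ih => exact ih.comp (continuous_A _ _ _)

lemma Ch.Φ_cone (k : ℕ) {x : Fin 4 → ℝ} (hx : ∀ i, 0 ≤ x i) :
    (∀ i, 0 ≤ C.Φ k x i) ∧ tot x ≤ tot (C.Φ k x) := by
  induction k generalizing x with
  | zero => exact ⟨hx, le_rfl⟩
  | succ k ih =>
    have h1 := A_nonneg (C.Rpos k) (C.q.M k) (C.q.N k) hx
    have h2 := ih h1
    exact ⟨h2.1, (A_tot (C.Rpos k) _ _ hx).trans h2.2⟩

lemma Ch.Φ_bal (k : ℕ) (x : Fin 4 → ℝ) : bal (C.R 0) (C.Φ k x) = bal (C.R k) x := by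
  induction k generalizing x with
  | zero => rfl
  | succ k ih => rw [C.Φ_succ, ih, Ch.A, bal_A, ← C.Rs]

lemma Ch.small (k : ℕ) {x : Fin 4 → ℝ} (hx : x ∈ QQ (C.R (k+1))) :
    nrm (C.A k x) 0 ≤ 2 * C.R k 2 ^ (C.q.N k + 1) ∧ nrm (C.A k x) 3 ≤ 2 * C.R k 2 ^ (C.q.N k + 1) := by
  have hρ := C.Rpos k
  have hN : 1 ≤ C.q.N k := by linarith [(C.q.par k).hN]
  have h1 := A_nonneg hρ (C.q.M k) (C.q.N k) hx.1
  have hx0 := hx.1 0
  have hx1 := hx.1 1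
  have hx2 := hx.1 2
  have hx3 := hx.1 3
  have ht := hx.2.1
  have hb := hx.2.2
  unfold tot at ht
  unfold bal at hb
  have e0 : C.R (k+1) 0 = C.R k 2 ^ (C.q.N k+1) * C.R k 1 ^ (C.q.M k) * C.R k 3 := by rw [C.Rs]; rfl
  have e1 : C.R (k+1) 1 = C.R k 2 ^ (C.q.N k+1) * C.R k 1 ^ (C.q.M k+1) * C.R k 3 := by rw [C.Rs]; rfl
  have hee : C.R (k+1) 0 * x 0 + C.R (k+1) 1 * x 1 =
      C.R k 2 ^ (C.q.N k+1) * ee (C.R k) (C.q.M k) x := by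
    rw [e0, e1]; unfold ee; ring
  have r2 := C.R2le (k+1)
  have r3 := C.R3le (k+1)
  have hP : 0 < C.R k 2 ^ (C.q.N k+1) := pow_pos (hρ 2) _
  have hhalf : 1/2 ≤ C.R k 2 ^ (C.q.N k+1) * ee (C.R k) (C.q.M k) x := by
    rw [← hee]
    have m2 : (1/2) * x 2 ≤ (1 - C.R (k+1) 2) * x 2 := mul_le_mul_of_nonneg_right (by linarith) hx2
    have m3 : (1/2) * x 3 ≤ (1 - C.R (k+1) 3) * x 3 := mul_le_mul_of_nonneg_right (by linarith) hx3
    linarith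
  have heenn := ee_nonneg hρ (C.q.M k) hx.1
  have ht2 : ee (C.R k) (C.q.M k) x ≤ C.A k x 2 := by
    show _ ≤ Amap _ _ _ _ 2
    rw [A2]
    have g2 := gs_one_le (hρ 2).le hN
    have r0 := hρ 0
    have r3 := hρ 3
    have a1 : ee (C.R k) (C.q.M k) x ≤ gs (C.R k 2) (C.q.N k) * (ee (C.R k) (C.q.M k) x +
        C.R k 0 * (C.R k 3 * (x 2 + x 3))) := by
      have a2 : 0 ≤ C.R k 0 * (C.R k 3 * (x 2 + x 3)) := by positivity
      have := mul_le_mul_of_nonneg_right g2 (show 0 ≤ ee (C.R k) (C.q.M k) x +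
        C.R k 0 * (C.R k 3 * (x 2 + x 3)) by linarith)
      linarith
    have a3 : 0 ≤ C.R k 2 ^ C.q.N k * (ee (C.R k) (C.q.M k) x + C.R k 0 * C.R k 3 * x 3) := by
      have := hρ 2
      positivity
    linarith
  have e3 : C.A k x 3 = 1 := by
    show Amap _ _ _ _ 3 = 1
    rw [A3]; exact ht
  have htot : ee (C.R k) (C.q.M k) x ≤ tot (C.A k x) := by
    have b0 : 0 ≤ C.A k x 0 := h1 0
    have b1 : 0 ≤ C.A k x 1 := h1 1
    unfold tot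
    linarith
  have htpos : 0 < tot (C.A k x) := by
    have b0 : 0 ≤ C.A k x 0 := h1 0
    have b1 : 0 ≤ C.A k x 1 := h1 1
    have b2 : 0 ≤ C.A k x 2 := h1 2
    unfold tot
    linarith
  have hinv : (tot (C.A k x))⁻¹ ≤ 2 * C.R k 2 ^ (C.q.N k + 1) := by
    rw [inv_le_iff_one_le_mul₀ htpos]
    have := mul_le_mul_of_nonneg_left htot hP.le
    linarith
  have hA0 : C.A k x 0 ≤ 1 := by
    show Amap _ _ _ _ 0 ≤ 1
    rw [A0]
    have r3 := C.R3le k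
    have := mul_le_mul_of_nonneg_right r3 (show 0 ≤ x 2 + x 3 by linarith)
    linarith
  constructor
  · show (tot (C.A k x))⁻¹ * C.A k x 0 ≤ _
    have : (tot (C.A k x))⁻¹ * C.A k x 0 ≤ (tot (C.A k x))⁻¹ * 1 :=
      mul_le_mul_of_nonneg_left hA0 (inv_nonneg.mpr htpos.le)
    linarith
  · show (tot (C.A k x))⁻¹ * C.A k x 3 ≤ _
    rw [e3, mul_one]
    exact hinv

lemma Ch.shrink (k : ℕ) {x y : Fin 4 → ℝ} (hx : x ∈ QQ (C.R (k+1))) (hy : y ∈ QQ (C.R (k+1))) :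
    dist (nrm (C.Φ (k+1) x)) (nrm (C.Φ (k+1) y)) ≤ (1/2) ^ k := by
  obtain ⟨a1, a2⟩ := A_mem C.Rpos C.Rs k hx
  obtain ⟨b1, b2⟩ := A_mem C.Rpos C.Rs k hy
  obtain ⟨s1, s2⟩ := C.small k hx
  obtain ⟨t1, t2⟩ := C.small k hy
  have h := C.shr k _ a2 _ b2 s1 s2 t1 t2
  have ex : nrm (C.Φ k (nrm (C.A k x))) = nrm (C.Φ (k+1) x) := by
    rw [C.Φ_succ]
    conv_lhs => rw [nrm.eq_1 (C.A k x), C.Φ_smul]
    exact nrm_smul (inv_ne_zero (by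
      show tot (Amap _ _ _ x) ≠ 0
      linarith))
  have ey : nrm (C.Φ k (nrm (C.A k y))) = nrm (C.Φ (k+1) y) := by
    rw [C.Φ_succ]
    conv_lhs => rw [nrm.eq_1 (C.A k y), C.Φ_smul]
    exact nrm_smul (inv_ne_zero (by
      show tot (Amap _ _ _ y) ≠ 0
      linarith))
  rw [← ex, ← ey]
  exact h

/-- Lengths along the induction of affine data. -/
lemma Ch.len_it {D : Datum} (hD : Datum.Aff (C.R 0) D) (m : D.Match) (k : ℕ) {y : Fin 4 → ℝ}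
    (hl : D.len = C.Φ k y) : Datum.Aff (C.R k) (Datum.it C.q.M C.q.N k D) ∧
      (Datum.it C.q.M C.q.N k D).len = y := by
  induction k generalizing y with
  | zero => exact ⟨hD, hl⟩
  | succ k ih =>
    rw [C.Φ_succ] at hl
    obtain ⟨h1, h2⟩ := ih hl
    refine ⟨?_, ?_⟩
    · rw [Datum.it_succ, C.Rs]
      exact h1.ren _ _
    · rw [Datum.it_succ]
      exact Datum.len_ren (C.Rpos k) h1 (Datum.it_match m k) h2

end Ch

end Pool.Agent.H814R3
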