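import Mathlib
import Pool.Agent.H814R3.Choice

set_option autoImplicit false
set_option linter.unusedSectionVars false

/-!
The planar family at a given level and its essentiality.
-/

namespace Pool.Agent.H814R3

open Topology Set Filter

/-- The lengths with planar coordinate `z`. -/
noncomputable def Lp (κ : ℝ) (ρ : Fin 4 → ℝ) (z : ℂ) : Fin 4 → ℝ :=
  let P := ρ 0 + ρ 1 - 2
  let Q := (1 - ρ 2) * κ + (1 - ρ 3)
  let R₁ := 1 + z.re - z.im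
  let R₂ := -(ρ 0 - 1) * z.im - (1 - ρ 2) * z.re
  let a := (Q * R₁ + (κ + 1) * R₂) / (2 * Q + (κ + 1) * P)
  let b := (P * R₁ - 2 * R₂) / (2 * Q + (κ + 1) * P)
  ![a + z.im, a, κ * b - z.re, b]

section Lp
variable {κ : ℝ} {ρ : Fin 4 → ℝ} (hκ : 0 < κ) (h0 : 2 ≤ ρ 0) (h1 : 2 ≤ ρ 1) (h2 : ρ 2 ≤ 1/2)
  (h3 : ρ 3 ≤ 1/2)
include hκ h0 h1 h2 h3

lemma Lp_det : 0 < 2 * ((1 - ρ 2) * κ + (1 - ρ 3)) + (κ + 1) * (ρ 0 + ρ 1 - 2) := by
  have a1 : 0 < (1 - ρ 2) * κ := mul_pos (by linarith) hκ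
  have a2 : 0 < (κ + 1) * (ρ 0 + ρ 1 - 2) := mul_pos (by linarith) (by linarith)
  linarith

lemma Lp_tot (z : ℂ) : tot (Lp κ ρ z) = 1 := by
  have hd := (Lp_det hκ h0 h1 h2 h3).ne'
  unfold tot Lp
  simp only [Matrix.cons_val_zero, Matrix.cons_val_one, Matrix.cons_val]
  generalize ρ 0 = r0 at *
  generalize ρ 1 = r1 at *
  generalize ρ 2 = r2 at *
  generalize ρ 3 = r3 at *
  generalize z.re = x at *
  generalize z.im = y at *
  set Δ := 2 * ((1 - r2) * κ + (1 - r3)) + (κ + 1) * (r0 + r1 - 2) with hΔ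
  have hA := mul_div_cancel₀ (((1 - r2) * κ + (1 - r3)) * (1 + x - y) +
    (κ + 1) * (-(r0 - 1) * y - (1 - r2) * x)) hd
  have hB := mul_div_cancel₀ ((r0 + r1 - 2) * (1 + x - y) - 2 * (-(r0 - 1) * y - (1 - r2) * x)) hd
  generalize (((1 - r2) * κ + (1 - r3)) * (1 + x - y) +
    (κ + 1) * (-(r0 - 1) * y - (1 - r2) * x)) / Δ = a at *
  generalize ((r0 + r1 - 2) * (1 + x - y) - 2 * (-(r0 - 1) * y - (1 - r2) * x)) / Δ = b at *
  apply mul_left_cancel₀ hd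
  have e : Δ * (1 + x - y) = Δ * (2 * a + (κ + 1) * b) := by
    have : Δ * (2 * a + (κ + 1) * b) = 2 * (Δ * a) + (κ + 1) * (Δ * b) := by ring
    rw [this, hA, hB, hΔ]
    ring
  linear_combination -e

lemma Lp_bal (z : ℂ) : bal ρ (Lp κ ρ z) = 0 := by
  have hd := (Lp_det hκ h0 h1 h2 h3).ne'
  unfold bal Lp
  simp only [Matrix.cons_val_zero, Matrix.cons_val_one, Matrix.cons_val]
  generalize ρ 0 = r0 at *
  generalize ρ 1 = r1 at *
  generalize ρ 2 = r2 at *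
  generalize ρ 3 = r3 at *
  generalize z.re = x at *
  generalize z.im = y at *
  set Δ := 2 * ((1 - r2) * κ + (1 - r3)) + (κ + 1) * (r0 + r1 - 2) with hΔ
  have hA := mul_div_cancel₀ (((1 - r2) * κ + (1 - r3)) * (1 + x - y) +
    (κ + 1) * (-(r0 - 1) * y - (1 - r2) * x)) hd
  have hB := mul_div_cancel₀ ((r0 + r1 - 2) * (1 + x - y) - 2 * (-(r0 - 1) * y - (1 - r2) * x)) hd
  generalize (((1 - r2) * κ + (1 - r3)) * (1 + x - y) +
    (κ + 1) * (-(r0 - 1) * y - (1 - r2) * x)) / Δ = a at *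
  generalize ((r0 + r1 - 2) * (1 + x - y) - 2 * (-(r0 - 1) * y - (1 - r2) * x)) / Δ = b at *
  apply mul_left_cancel₀ hd
  have e : Δ * (-(r0 - 1) * y - (1 - r2) * x) =
      Δ * ((r0 + r1 - 2) * a - ((1 - r2) * κ + (1 - r3)) * b) := by
    have : Δ * ((r0 + r1 - 2) * a - ((1 - r2) * κ + (1 - r3)) * b) =
      (r0 + r1 - 2) * (Δ * a) - ((1 - r2) * κ + (1 - r3)) * (Δ * b) := by ring
    rw [this, hA, hB, hΔ]
    ring
  linear_combination -e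

omit hκ h0 h1 h2 h3 in
lemma Lp_re (z : ℂ) : κ * Lp κ ρ z 3 - Lp κ ρ z 2 = z.re := by
  unfold Lp
  simp only [Matrix.cons_val]
  ring

omit hκ h0 h1 h2 h3 in
lemma Lp_im (z : ℂ) : Lp κ ρ z 0 - Lp κ ρ z 1 = z.im := by
  unfold Lp
  simp only [Matrix.cons_val_zero, Matrix.cons_val_one]
  ring

omit hκ h0 h1 h2 h3 in
lemma Lp_cont : Continuous (Lp κ ρ) := by
  have hr := Complex.continuous_re
  have hi := Complex.continuous_im
  apply continuous_pi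
  intro i
  unfold Lp
  fin_cases i
  · simp only [Fin.zero_eta, Matrix.cons_val_zero]
    fun_prop
  · simp only [Fin.mk_one, Matrix.cons_val_one]
    fun_prop
  · simp only [Fin.reduceFinMk, Matrix.cons_val]
    fun_prop
  · simp only [Fin.reduceFinMk, Matrix.cons_val]
    fun_prop

lemma Lp_zero (i : Fin 4) : 0 < Lp κ ρ 0 i := by
  have hd := Lp_det hκ h0 h1 h2 h3
  have hQ : 0 < (1 - ρ 2) * κ + (1 - ρ 3) := by
    have a1 : 0 < (1 - ρ 2) * κ := mul_pos (by linarith) hκ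
    linarith
  have hP : 0 < ρ 0 + ρ 1 - 2 := by linarith
  have ha : 0 < (((1 - ρ 2) * κ + (1 - ρ 3)) * (1 + (0:ℝ) - 0) +
      (κ + 1) * (-(ρ 0 - 1) * 0 - (1 - ρ 2) * 0)) / (2 * ((1 - ρ 2) * κ + (1 - ρ 3)) + (κ + 1) * (ρ 0 + ρ 1 - 2)) := by
    apply div_pos _ hd
    linarith
  have hb : 0 < ((ρ 0 + ρ 1 - 2) * (1 + (0:ℝ) - 0) -
      2 * (-(ρ 0 - 1) * 0 - (1 - ρ 2) * 0)) / (2 * ((1 - ρ 2) * κ + (1 - ρ 3)) + (κ + 1) * (ρ 0 + ρ 1 - 2)) := by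
    apply div_pos _ hd
    linarith
  unfold Lp
  fin_cases i
  · simp only [Fin.zero_eta, Matrix.cons_val_zero, Complex.zero_re, Complex.zero_im]
    linarith
  · simp only [Fin.mk_one, Matrix.cons_val_one, Matrix.cons_val_zero, Complex.zero_re,
      Complex.zero_im]
    linarith
  · simp only [Fin.reduceFinMk, Matrix.cons_val, Complex.zero_re, Complex.zero_im]
    have := mul_pos hκ hb
    linarith
  · simp only [Fin.reduceFinMk, Matrix.cons_val, Complex.zero_re, Complex.zero_im]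
    linarith

lemma Lp_bdd {ε : ℝ} (hε1 : ε ≤ 1) {z : ℂ} (h : ∀ i, -ε ≤ Lp κ ρ z i) :
    ‖z‖ ≤ 4 * κ + 12 := by
  have ht := Lp_tot hκ h0 h1 h2 h3 z
  unfold tot at ht
  have a0 := h 0
  have a1 := h 1
  have a2 := h 2
  have a3 := h 3
  have e1 := Lp_re (κ := κ) (ρ := ρ) z
  have e2 := Lp_im (κ := κ) (ρ := ρ) z
  have b3 : Lp κ ρ z 3 ≤ 4 := by linarith
  have b2 : Lp κ ρ z 2 ≤ 4 := by linarith
  have b1 : Lp κ ρ z 1 ≤ 4 := by linarith
  have b0 : Lp κ ρ z 0 ≤ 4 := by linarith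
  have hre : |z.re| ≤ 4 * κ + 4 := by
    rw [← e1, abs_le]
    have m1 := mul_le_mul_of_nonneg_left b3 hκ.le
    have m2 := mul_le_mul_of_nonneg_left (show -1 ≤ Lp κ ρ z 3 by linarith) hκ.le
    constructor
    · linarith
    · linarith
  have him : |z.im| ≤ 5 := by
    rw [← e2, abs_le]
    constructor
    · linarith
    · linarith
  have := Complex.norm_le_abs_re_add_abs_im z
  linarith

end Lp

/-- The planar region. -/
def PP (κ : ℝ) (ρ : Fin 4 → ℝ) (ε : ℝ) : Set ℂ := {z | ∀ i, -ε ≤ Lp κ ρ z i}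

lemma PP_closed (κ : ℝ) (ρ : Fin 4 → ℝ) (ε : ℝ) : IsClosed (PP κ ρ ε) := by
  have : PP κ ρ ε = ⋂ i, {z | -ε ≤ Lp κ ρ z i} := by
    ext z; simp [PP]
  rw [this]
  exact isClosed_iInter fun i => isClosed_le continuous_const ((continuous_apply i).comp Lp_cont)

section PP
variable {κ : ℝ} {ρ : Fin 4 → ℝ} (hκ : 0 < κ) (h0 : 2 ≤ ρ 0) (h1 : 2 ≤ ρ 1) (h2 : ρ 2 ≤ 1/2)
  (h3 : ρ 3 ≤ 1/2)
include hκ h0 h1 h2 h3

lemma PP_compact {ε : ℝ} (hε1 : ε ≤ 1) : IsCompact (PP κ ρ ε) := by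
  apply IsCompact.of_isClosed_subset (isCompact_closedBall (0:ℂ) (4 * κ + 12)) (PP_closed κ ρ ε)
  intro z hz
  rw [mem_closedBall_zero_iff]
  exact Lp_bdd hκ h0 h1 h2 h3 hε1 hz

/-- A neighbourhood of the region with `ε = 0` contains a region with `ε > 0`. -/
lemma exists_eps {O : Set ℂ} (hO : IsOpen O) (h : PP κ ρ 0 ⊆ O) :
    ∃ ε, 0 < ε ∧ ε ≤ 1 ∧ PP κ ρ ε ⊆ O := by
  by_contra hcon
  push Not at hcon
  have hne : ∀ n : ℕ, (PP κ ρ (1 / ((n:ℝ) + 1)) ∩ Oᶜ).Nonempty := by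
    intro n
    have hn : (0:ℝ) < 1 / ((n:ℝ) + 1) := by positivity
    have hn1 : 1 / ((n:ℝ) + 1) ≤ 1 := by
      rw [div_le_one (by positivity)]
      have : (0:ℝ) ≤ n := Nat.cast_nonneg n
      linarith
    have := hcon _ hn hn1
    rw [Set.not_subset] at this
    obtain ⟨z, hz1, hz2⟩ := this
    exact ⟨z, hz1, hz2⟩
  have hanti : ∀ n : ℕ, PP κ ρ (1 / (((n+1 : ℕ):ℝ) + 1)) ∩ Oᶜ ⊆ PP κ ρ (1 / ((n:ℝ) + 1)) ∩ Oᶜ := by
    intro n z hz
    refine ⟨fun i => ?_, hz.2⟩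
    have := hz.1 i
    have h4 : 1 / (((n+1 : ℕ):ℝ) + 1) ≤ 1 / ((n:ℝ) + 1) := by
      apply one_div_le_one_div_of_le (by positivity)
      push_cast
      linarith
    linarith
  obtain ⟨z, hz⟩ := IsCompact.nonempty_iInter_of_sequence_nonempty_isCompact_isClosed
    (fun n : ℕ => PP κ ρ (1 / ((n:ℝ) + 1)) ∩ Oᶜ) hanti hne
    ((PP_compact hκ h0 h1 h2 h3 (by simp)).inter_right hO.isClosed_compl)
    (fun n => (PP_closed _ _ _).inter hO.isClosed_compl)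
  rw [Set.mem_iInter] at hz
  apply (hz 0).2
  apply h
  intro i
  rw [neg_zero]
  have h4 : ∀ n : ℕ, -(1 / ((n:ℝ) + 1)) ≤ Lp κ ρ z i := fun n => (hz n).1 i
  have h5 := tendsto_one_div_add_atTop_nhds_zero_nat (𝕜 := ℝ)
  have h6 := h5.neg
  rw [neg_zero] at h6
  exact le_of_tendsto' h6 h4

end PP

end Pool.Agent.H814R3
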