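import Mathlib
import Pool.Agent.H814R3.Base

set_option autoImplicit false
set_option linter.unusedSectionVars false

/-!
Essentiality of the planar family, and existence of infinitely renormalizable members.
-/

namespace Pool.Agent.H814R3

open Topology Set Filter

lemma slit_div {v t : ℂ} (ht : t ≠ 0) (h : v * (starRingEnd ℂ) t ∈ Complex.slitPlane) :
    v / t ∈ Complex.slitPlane := by
  have hn : 0 < Complex.normSq t := Complex.normSq_pos.mpr ht
  have e : v / t = ((Complex.normSq t)⁻¹ : ℝ) * (v * (starRingEnd ℂ) t) := by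
    rw [div_eq_mul_inv, Complex.inv_def]
    push_cast
    ring
  rw [e]
  have hi : 0 < (Complex.normSq t)⁻¹ := inv_pos.mpr hn
  rw [Complex.mem_slitPlane_iff] at h ⊢
  rcases h with h | h
  · left
    rw [Complex.re_ofReal_mul]
    exact mul_pos hi h
  · right
    rw [Complex.im_ofReal_mul]
    exact mul_ne_zero hi.ne' h

theorem exists_tower {B0 : Bd} {R0 : Fin 4 → ℝ} (C : Ch B0 R0) (K' : ℕ) {κ : ℝ} {ρ : Fin 4 → ℝ}
    (eκ : κ = C.q.κ (K'+1)) (eρ : ρ = C.R (K'+1)) {ε : ℝ} (hε : 0 < ε)
    (hε1 : ε ≤ 1) {D : PP κ ρ ε → Datum} (hc : Datum.CF D)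
    (hm : ∀ t, (D t).Match) (hB : ∀ t, (D t).HasBd (C.q.B 0))
    (hS : ∀ t, ∀ j, j ≤ K' → (Datum.it C.q.M C.q.N j (D t)).SOrd)
    (hF : ∀ t : PP κ ρ ε, (∃ i, Lp κ ρ (t : ℂ) i = -ε) →
      (∃ i, (Datum.it C.q.M C.q.N (K'+1) (D t)).len i < 0) ∧
      Datum.V κ (Datum.it C.q.M C.q.N (K'+1) (D t)) * (starRingEnd ℂ) (t : ℂ) ∈
        Complex.slitPlane) :
    ∃ t, ∀ k, (Datum.it C.q.M C.q.N k (D t)).SOrd := by
  have hκ : 0 < κ := by
    rw [eκ]
    have h4 := (C.q.par (K'+1)).hκ
    have h5 := (C.q.ok (K'+1)).pos 0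
    have h6 := (C.q.ok (K'+1)).le 0
    linarith
  have h0 := C.R0le (K'+1)
  have h1 := C.R1le (K'+1)
  have h2 := C.R2le (K'+1)
  have h3 := C.R3le (K'+1)
  rw [← eρ] at h0 h1 h2 h3
  have : CompactSpace (PP κ ρ ε) :=
    isCompact_iff_compactSpace.mp (PP_compact hκ h0 h1 h2 h3 hε1)
  set E : PP κ ρ ε → Datum := fun t => Datum.it C.q.M C.q.N (K'+1) (D t) with hE
  have hEc : Datum.CF E := hc.it _ _ _
  have hord : ∀ t, (Datum.it C.q.M C.q.N K' (D t)).Ord := by
    intro t
    have := hS t K' le_rfl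
    exact ⟨this.h0.le, this.h1.le, this.h2.le, this.h3.le,
      this.h0.trans (this.h1.trans (this.h2.trans this.h3))⟩
  have hbd : ∀ t, (Datum.it C.q.M C.q.N K' (D t)).HasBd (C.q.B K') := fun t =>
    Datum.it_hasBd C.q (hB t) K'
  have hmt : ∀ t, (Datum.it C.q.M C.q.N K' (D t)).Match := fun t => Datum.it_match (hm t) K'
  have hEr : ∀ t, E t = Datum.ren (C.q.M K') (C.q.N K') (Datum.it C.q.M C.q.N K' (D t)) :=
    fun t => rfl
  set W : PP κ ρ ε → ℂ := fun t => Datum.V κ (E t) with hW
  have hWc : Continuous W := hEc.V κ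
  have hW0 : ∀ t, (∃ i, (E t).len i ≤ 0) → W t ≠ 0 := by
    intro t ht
    exact Datum.V_ren_ne (C.q.ok K') (hbd t) (hmt t) (hord t) (C.q.par K') hκ ht
  set K : Set (PP κ ρ ε) := {t | ∀ i, 0 ≤ (E t).len i} with hK
  have hKc : IsClosed K := by
    have : K = ⋂ i, {t | 0 ≤ (E t).len i} := by ext t; simp [hK]
    rw [this]
    exact isClosed_iInter fun i => isClosed_le continuous_const (hEc.len i)
  have hKo : ∀ t ∈ K, (E t).Ord := fun t ht =>
    Datum.ord_ren (C.q.ok K') (C.q.par K') (hbd t) (hmt t) (hord t) ht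
  have hEss : Datum.Ess κ E K := by
    rintro ⟨g, hg, hg0, hgV⟩
    classical
    set S : Set (PP κ ρ ε) := {t | ∃ i, (E t).len i ≤ 0} with hSdef
    have hSc : IsClosed S := by
      have : S = ⋃ i, {t | (E t).len i ≤ 0} := by ext t; simp [hSdef]
      rw [this]
      exact isClosed_iUnion_of_finite fun i => isClosed_le (hEc.len i) continuous_const
    have hcover : K ∪ S = univ := by
      ext t
      simp only [hK, hSdef, mem_union, mem_ofPred_eq, mem_univ, iff_true]
      by_cases h : ∀ i, 0 ≤ (E t).len i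
      · exact Or.inl h
      · push Not at h
        obtain ⟨i, hi⟩ := h
        exact Or.inr ⟨i, hi.le⟩
    set G₀ : PP κ ρ ε → ℂ := fun t => if t ∈ K then g t else W t with hG₀
    have hGS : ∀ t ∈ S, G₀ t = W t := by
      intro t ht
      by_cases h : t ∈ K
      · have : ∃ i, (E t).len i = 0 := by
          obtain ⟨i, hi⟩ := ht
          exact ⟨i, le_antisymm hi (h i)⟩
        simp only [hG₀, h, if_true]
        exact hgV t h this
      · simp only [hG₀, h, if_false]
    have hGK : ∀ t ∈ K, G₀ t = g t := fun t ht => by simp only [hG₀, ht, if_true]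
    have hG₀c : Continuous G₀ := by
      rw [← continuousOn_univ, ← hcover]
      exact ContinuousOn.union_of_isClosed (hg.congr hGK) (hWc.continuousOn.congr hGS) hKc hSc
    have hG₀0 : ∀ t, G₀ t ≠ 0 := by
      intro t
      by_cases h : t ∈ K
      · rw [hGK t h]; exact hg0 t h
      · have : t ∈ S := by
          have : t ∈ K ∪ S := by rw [hcover]; trivial
          exact this.resolve_left h
        rw [hGS t this]
        exact hW0 t this
    -- the frontier
    set Fr : Set (PP κ ρ ε) := {t | ∃ i, Lp κ ρ (t : ℂ) i = -ε} with hFr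
    have hFrc : IsClosed Fr := by
      have : Fr = ⋃ i, {t : PP κ ρ ε | Lp κ ρ (t : ℂ) i = -ε} := by ext t; simp [hFr]
      rw [this]
      exact isClosed_iUnion_of_finite fun i =>
        isClosed_eq ((continuous_apply i).comp (Lp_cont.comp continuous_subtype_val)) continuous_const
    have hFr0 : ∀ t ∈ Fr, (t : ℂ) ≠ 0 := by
      rintro t ⟨i, hi⟩ h
      rw [h] at hi
      have := Lp_zero hκ h0 h1 h2 h3 i
      linarith
    have hFrW : ∀ t ∈ Fr, G₀ t = W t ∧ W t ≠ 0 := by
      intro t ht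
      obtain ⟨i, hi⟩ := (hF t ht).1
      exact ⟨hGS t ⟨i, hi.le⟩, hW0 t ⟨i, hi.le⟩⟩
    have hlc : ContinuousOn (fun t : PP κ ρ ε => Complex.log (W t / (t : ℂ))) Fr := by
      apply ContinuousOn.clog
      · exact hWc.continuousOn.div continuous_subtype_val.continuousOn hFr0
      · intro t ht
        exact slit_div (hFr0 t ht) (hF t ht).2
    obtain ⟨L, hL⟩ := ContinuousMap.exists_restrict_eq hFrc
      (⟨Fr.domRestrict fun t => Complex.log (W t / (t : ℂ)), hlc.domRestrict⟩ : C(Fr, ℂ))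
    have hL' : ∀ t ∈ Fr, L t = Complex.log (W t / (t : ℂ)) := by
      intro t ht
      exact congrArg (fun φ : C(Fr, ℂ) => φ ⟨t, ht⟩) hL
    set G : ℂ → ℂ := fun z => if h : z ∈ PP κ ρ ε then G₀ ⟨z, h⟩ * Complex.exp (-(L ⟨z, h⟩)) else z
      with hG
    have hGP : ∀ t : PP κ ρ ε, G t = G₀ t * Complex.exp (-(L t)) := by
      intro t
      simp only [hG, t.2, dif_pos]
    set Out : Set ℂ := {z | ∃ i, Lp κ ρ z i ≤ -ε} with hOut
    have hOutc : IsClosed Out := by
      have : Out = ⋃ i, {z | Lp κ ρ z i ≤ -ε} := by ext t; simp [hOut]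
      rw [this]
      exact isClosed_iUnion_of_finite fun i =>
        isClosed_le ((continuous_apply i).comp Lp_cont) continuous_const
    have hGout : ∀ z ∈ Out, G z = z := by
      intro z hz
      by_cases h : z ∈ PP κ ρ ε
      · have hFrz : (⟨z, h⟩ : PP κ ρ ε) ∈ Fr := by
          obtain ⟨i, hi⟩ := hz
          exact ⟨i, le_antisymm hi (h i)⟩
        have e := hGP ⟨z, h⟩
        rw [hL' _ hFrz, (hFrW _ hFrz).1, Complex.exp_neg,
          Complex.exp_log (div_ne_zero (hFrW _ hFrz).2 (hFr0 _ hFrz)), inv_div,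
          mul_div_assoc', mul_comm, mul_div_assoc, div_self (hFrW _ hFrz).2, mul_one] at e
        exact e
      · simp only [hG, h, dif_neg, not_false_eq_true]
    have hcov2 : PP κ ρ ε ∪ Out = univ := by
      ext z
      simp only [PP, hOut, mem_union, mem_ofPred_eq, mem_univ, iff_true]
      by_cases h : ∀ i, -ε ≤ Lp κ ρ z i
      · exact Or.inl h
      · push Not at h
        obtain ⟨i, hi⟩ := h
        exact Or.inr ⟨i, hi.le⟩
    have hGc : Continuous G := by
      rw [← continuousOn_univ, ← hcov2]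
      refine ContinuousOn.union_of_isClosed ?_ (continuousOn_id.congr hGout) (PP_closed _ _ _) hOutc
      rw [continuousOn_iff_continuous_domRestrict]
      have : (PP κ ρ ε).domRestrict G = fun t => G₀ t * Complex.exp (-(L t)) := by
        funext t
        exact hGP t
      rw [this]
      exact hG₀c.mul (Complex.continuous_exp.comp L.continuous.neg)
    obtain ⟨z, hz⟩ := no_nonvanishing G hGc (4 * κ + 13) (by
      intro z hz
      have : z ∉ PP κ ρ ε := by
        intro h
        have := Lp_bdd hκ h0 h1 h2 h3 hε1 h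
        linarith
      simp only [hG, this, dif_neg, not_false_eq_true])
    by_cases h : z ∈ PP κ ρ ε
    · have e := hGP ⟨z, h⟩
      have e' : G z = G₀ ⟨z, h⟩ * Complex.exp (-(L ⟨z, h⟩)) := e
      rw [hz] at e'
      exact mul_ne_zero (hG₀0 _) (Complex.exp_ne_zero _) e'.symm
    · have e : G z = z := by simp only [hG, h, dif_neg, not_false_eq_true]
      rw [hz] at e
      apply h
      rw [← e]
      intro i
      have := Lp_zero hκ h0 h1 h2 h3 i
      linarith
  have hEss' : Datum.Ess (C.q.κ (K'+1)) E K :=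
    Eq.mp (congrArg (fun a => Datum.Ess a E K) eκ) hEss
  obtain ⟨t, ht, htk⟩ := Datum.crossing C.q hc hm (K'+1) hKc (fun t _ => hB t) hKo hEss'
  refine ⟨t, fun k => ?_⟩
  rcases le_or_gt k K' with h | h
  · exact hS t k h
  · exact htk k h

end Pool.Agent.H814R3
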