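import Mathlib

set_option autoImplicit false

/-!
Pushing a planar family off a set which is locally a topological submanifold of codimension three.
-/

namespace Pool.Agent.H814R3

open Topology Set Module

theorem exists_avoiding {X : Type*} [TopologicalSpace X] {S : Set X} {E : Type*}
    [NormedAddCommGroup E] [NormedSpace ℝ E] {U : Set X} {φ : U → E × (Fin 3 → ℝ)}
    (hφ : IsOpenEmbedding φ)
    (hS : φ '' {u | (u : X) ∈ S} = range φ ∩ {p | p.2 = 0}) {P : Set ℂ} (hP : IsCompact P)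
    {g : P → X} (hg : Continuous g) (hgU : ∀ t, g t ∈ U) {O : Set (P × X)} (hO : IsOpen O)
    (hgO : ∀ t, (t, g t) ∈ O) :
    ∃ g' : P → X, Continuous g' ∧ (∀ t, (t, g' t) ∈ O) ∧ ∀ t, g' t ∉ S := by
  haveI : CompactSpace P := isCompact_iff_compactSpace.mp hP
  let ψ : U ≃ₜ range φ := hφ.isEmbedding.toHomeomorph
  have hψ : ∀ y : range φ, φ (ψ.symm y) = y := fun y => congrArg Subtype.val (ψ.apply_symm_apply y)
  have hψ' : ∀ (u : U) (h : φ u ∈ range φ), ψ.symm ⟨φ u, h⟩ = u := by
    intro u h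
    exact ψ.symm_apply_apply u
  let g₀ : P → U := fun t => ⟨g t, hgU t⟩
  have hg₀ : Continuous g₀ := hg.subtype_mk _
  let a : P × (Fin 3 → ℝ) → E × (Fin 3 → ℝ) := fun p => φ (g₀ p.1) + (0, p.2)
  have ha : Continuous a := by
    refine ((hφ.continuous.comp (hg₀.comp continuous_fst))).add ?_
    exact continuous_const.prodMk continuous_snd
  let W : Set (P × (Fin 3 → ℝ)) := a ⁻¹' range φ
  have hW : IsOpen W := hφ.isOpen_range.preimage ha
  let F : W → P × X := fun p => (p.1.1, ((ψ.symm ⟨a p.1, p.2⟩ : U) : X))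
  have hF : Continuous F := by
    refine (continuous_fst.comp continuous_subtype_val).prodMk ?_
    refine continuous_subtype_val.comp (ψ.symm.continuous.comp ?_)
    exact (ha.comp continuous_subtype_val).subtype_mk _
  let n : Set (P × (Fin 3 → ℝ)) := Subtype.val '' (F ⁻¹' O)
  have hn : IsOpen n := hW.isOpenMap_subtype_val _ (hO.preimage hF)
  have ha0 : ∀ t, a (t, 0) = φ (g₀ t) := by
    intro t
    show φ (g₀ t) + (0, 0) = _
    simp
  have h0 : (univ : Set P) ×ˢ {(0 : Fin 3 → ℝ)} ⊆ n := by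
    rintro ⟨t, v⟩ ⟨_, hv⟩
    have hv' : v = 0 := hv
    subst hv'
    have hm : (t, (0 : Fin 3 → ℝ)) ∈ W := by
      show a (t, 0) ∈ range φ
      rw [ha0]; exact mem_range_self _
    refine ⟨⟨(t, 0), hm⟩, ?_, rfl⟩
    show (t, ((ψ.symm ⟨a (t, 0), hm⟩ : U) : X)) ∈ O
    have e : (ψ.symm ⟨a (t, 0), hm⟩ : U) = g₀ t := by
      have : (⟨a (t, 0), hm⟩ : range φ) = ⟨φ (g₀ t), mem_range_self _⟩ := Subtype.ext (ha0 t)
      rw [this]
      exact hψ' _ _
    rw [e]
    exact hgO t
  obtain ⟨u, v, hu, hv, hsu, htv, huv⟩ := generalized_tube_lemma isCompact_univ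
    isCompact_singleton hn h0
  obtain ⟨δ, hδ, hδv⟩ := Metric.isOpen_iff.mp hv 0 (htv rfl)
  -- approximation
  let w : C(P, Fin 3 → ℝ) := ⟨fun t => (φ (g₀ t)).2, continuous_snd.comp (hφ.continuous.comp hg₀)⟩
  obtain ⟨w', hw'⟩ := ContinuousMap.exists_restrict_eq hP.isClosed w
  have hw'' : ∀ t : P, w' t = w t := fun t => congrArg (fun f : C(P, Fin 3 → ℝ) => f t) hw'
  obtain ⟨f, hf, hfw, -⟩ := w'.continuous.exists_contDiff_approx (ε := fun _ => δ/2) 1
    continuous_const (fun _ => by linarith)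
  have hdense : Dense (range f)ᶜ := by
    apply ContDiff.dense_compl_range_of_finrank_lt_finrank hf
    rw [Complex.finrank_real_complex]
    simp
  obtain ⟨q, hq, hqf⟩ := hdense.exists_mem_open (Metric.isOpen_ball (x := (0 : Fin 3 → ℝ)) (ε := δ/2))
    ⟨0, Metric.mem_ball_self (by linarith)⟩
  let vv : P → (Fin 3 → ℝ) := fun t => f t - q - w t
  have hvv : Continuous vv := by
    exact ((hf.continuous.comp continuous_subtype_val).sub continuous_const).sub w.continuous
  have hvn : ∀ t, (t, vv t) ∈ n := by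
    intro t
    apply huv
    refine ⟨hsu (mem_univ _), hδv ?_⟩
    rw [mem_ball_zero_iff]
    have h1 := hfw t
    rw [dist_eq_norm, hw''] at h1
    have h2 : ‖q‖ < δ/2 := by
      have : q ∈ Metric.ball (0 : Fin 3 → ℝ) (δ/2) := by
        first
          | exact hqf
          | exact hq
      rwa [mem_ball_zero_iff] at this
    calc ‖vv t‖ = ‖(f t - w t) - q‖ := by
          show ‖f t - q - w t‖ = _
          congr 1; abel
      _ ≤ ‖f t - w t‖ + ‖q‖ := norm_sub_le _ _
      _ < δ := by linarith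
  have hvW : ∀ t, (t, vv t) ∈ W := by
    intro t
    obtain ⟨p, _, hp⟩ := hvn t
    rw [← hp]; exact p.2
  refine ⟨fun t => (F ⟨(t, vv t), hvW t⟩).2, ?_, ?_, ?_⟩
  · exact continuous_snd.comp (hF.comp ((continuous_id.prodMk hvv).subtype_mk _))
  · intro t
    obtain ⟨p, hp1, hp⟩ := hvn t
    have : p = ⟨(t, vv t), hvW t⟩ := Subtype.ext hp
    rw [this] at hp1
    exact hp1
  · intro t ht
    have h1 : φ (ψ.symm ⟨a (t, vv t), hvW t⟩) ∈ range φ ∩ {p | p.2 = 0} := by
      rw [← hS]
      exact ⟨_, ht, rfl⟩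
    rw [hψ] at h1
    have h2 : (a (t, vv t)).2 = 0 := h1.2
    have h3 : (a (t, vv t)).2 = w t + vv t := rfl
    rw [h3] at h2
    have h4 : f t = q := by
      have : w t + (f t - q - w t) = 0 := h2
      have h5 : f t - q = 0 := by
        rw [← this]; abel
      exact sub_eq_zero.mp h5
    have h6 : q ∈ (range f)ᶜ := by
      first
        | exact hq
        | exact hqf
    exact h6 ⟨t, h4⟩

end Pool.Agent.H814R3
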