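import Mathlib
import Pool.Agent.H814R3.Ess
import Pool.Agent.H814R3.AffG
import Pool.Agent.H814R3.Perturb

set_option autoImplicit false
set_option linter.unusedSectionVars false

/-!
The counterexample.
-/

namespace Pool.Agent.H814R3

open Topology Set Filter

lemma isOpen_sord {P : Type*} [TopologicalSpace P] {D : P → Datum} (h : Datum.CF D) :
    IsOpen {t | (D t).SOrd} := by
  have : {t | (D t).SOrd} = {t | (D t).c 0 < (D t).c 1} ∩ ({t | (D t).c 1 < (D t).c 2} ∩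
      ({t | (D t).c 2 < (D t).c 3} ∩ {t | (D t).c 3 < (D t).c 4})) := by
    ext t
    constructor
    · intro h
      exact ⟨h.h0, h.h1, h.h2, h.h3⟩
    · rintro ⟨a, b, c, d⟩
      exact ⟨a, b, c, d⟩
  rw [this]
  exact (isOpen_lt (h.1 0) (h.1 1)).inter ((isOpen_lt (h.1 1) (h.1 2)).inter
    ((isOpen_lt (h.1 2) (h.1 3)).inter (isOpen_lt (h.1 3) (h.1 4))))

lemma sord_of_len {D : Datum} (h : ∀ i, 0 < D.len i) : D.SOrd := by
  have h0 := h 0
  have h1 := h 1
  have h2 := h 2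
  have h3 := h 3
  rw [Datum.len0] at h0
  rw [Datum.len1] at h1
  rw [Datum.len2] at h2
  rw [Datum.len3] at h3
  exact ⟨by linarith, by linarith, by linarith, by linarith⟩

section Ch
variable {B0 : Bd} {R0 : Fin 4 → ℝ} (C : Ch B0 R0)

lemma Ch.hM (k : ℕ) : 1 ≤ C.q.M k := by linarith [(C.q.par k).hM]
lemma Ch.hN (k : ℕ) : 1 ≤ C.q.N k := by linarith [(C.q.par k).hN]

/-- Halves of balanced lengths are positive. -/
lemma Ch.halves (k : ℕ) {x : Fin 4 → ℝ} (hx : x ∈ QQ (C.R k)) : 0 < x 0 + x 1 ∧ 0 < x 2 + x 3 := by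
  have x0 := hx.1 0
  have x1 := hx.1 1
  have x2 := hx.1 2
  have x3 := hx.1 3
  have ht := hx.2.1
  have hb := hx.2.2
  unfold tot at ht
  unfold bal at hb
  have r0 := C.R0le k
  have r1 := C.R1le k
  have r2 := C.R2le k
  have r3 := C.R3le k
  have p2 := C.Rpos k 2
  have p3 := C.Rpos k 3
  have m0 := mul_le_mul_of_nonneg_right (show 1 ≤ C.R k 0 - 1 by linarith) x0
  have m1 := mul_le_mul_of_nonneg_right (show 1 ≤ C.R k 1 - 1 by linarith) x1
  have m2 := mul_le_mul_of_nonneg_right (show 1/2 ≤ 1 - C.R k 2 by linarith) x2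
  have m3 := mul_le_mul_of_nonneg_right (show 1/2 ≤ 1 - C.R k 3 by linarith) x3
  have n2 := mul_le_mul_of_nonneg_right (show 1 - C.R k 2 ≤ 1 by linarith) x2
  have n3 := mul_le_mul_of_nonneg_right (show 1 - C.R k 3 ≤ 1 by linarith) x3
  constructor
  · by_contra hcon
    have a0 : x 0 = 0 := by linarith
    have a1 : x 1 = 0 := by linarith
    rw [a0, a1] at hb
    linarith
  · by_contra hcon
    have a2 : x 2 = 0 := by linarith
    have a3 : x 3 = 0 := by linarith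
    rw [a2, a3] at hb
    linarith

lemma Ch.A_pos (k : ℕ) {x : Fin 4 → ℝ} (hx : ∀ i, 0 < x i) (i : Fin 4) : 0 < C.A k x i :=
  A_pos' (C.Rpos k) _ _ (C.hM k) (C.hN k) (fun i => (hx i).le) (add_pos (hx 0) (hx 1))
    (add_pos (hx 2) (hx 3)) i

lemma Ch.Φ_pos (k : ℕ) {x : Fin 4 → ℝ} (hx : ∀ i, 0 < x i) : ∀ i, 0 < C.Φ k x i := by
  induction k generalizing x with
  | zero => exact hx
  | succ k ih => exact ih (C.A_pos k hx)

lemma Ch.Φ_down (k : ℕ) {x : Fin 4 → ℝ} (hx : ∀ i, 0 < x i) :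
    ∀ j, j ≤ k → ∃ w : Fin 4 → ℝ, (∀ i, 0 < w i) ∧ C.Φ k x = C.Φ j w := by
  induction k generalizing x with
  | zero =>
    intro j hj
    have : j = 0 := by omega
    subst this
    exact ⟨x, hx, rfl⟩
  | succ k ih =>
    intro j hj
    rcases Nat.lt_or_ge j (k+1) with h | h
    · obtain ⟨w, hw, e⟩ := ih (C.A_pos k hx) j (by omega)
      exact ⟨w, hw, e⟩
    · have : j = k + 1 := by omega
      subst this
      exact ⟨x, hx, rfl⟩

lemma Ch.Φ_seq {y : ℕ → Fin 4 → ℝ} (hy : ∀ k, y k = Amap (C.R k) (C.q.M k) (C.q.N k) (y (k+1)))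
    (k : ℕ) : C.Φ k (y k) = y 0 := by
  induction k with
  | zero => rfl
  | succ k ih =>
    rw [C.Φ_succ, ← ih]
    congr 1
    exact (hy k).symm

end Ch

namespace IEM

/-- The initial slopes. -/
noncomputable def ρi : Fin 4 → ℝ := ![4, 4, 1/4, 1/4]

lemma ρi_pos : ∀ i, 0 < ρi i := by
  intro i
  fin_cases i
  · show (0:ℝ) < 4
    norm_num
  · show (0:ℝ) < 4
    norm_num
  · show (0:ℝ) < 1/4
    norm_num
  · show (0:ℝ) < 1/4
    norm_num

lemma Bini_ok : (Bini ρi).OK := by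
  refine ⟨fun i => ?_, fun i => ?_, ?_, ?_, ?_, ?_⟩
  · show 0 < ρi i / 2
    linarith [ρi_pos i]
  · show ρi i / 2 ≤ 2 * ρi i
    linarith [ρi_pos i]
  · show (2:ℝ) ≤ 4 / 2
    norm_num
  · show (2:ℝ) ≤ 4 / 2
    norm_num
  · show 2 * (1/4 : ℝ) ≤ 1/2
    norm_num
  · show 2 * (1/4 : ℝ) ≤ 1/2
    norm_num

section main
variable {r : ℕ} (hr : 1 ≤ r) (C : Ch (Bini ρi) ρi)

/-- Maps with slopes close to the initial ones and an infinite induction are semiconjugate to the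
standard map with the same induction. -/
lemma semi_of_tower {l : ℕ → Fin 4 → ℝ} (hl : Datum.Lens C.q.M C.q.N l) {T₀ : X r}
    (ha : Datum.Aff one4 (dat T₀)) (hlen : (dat T₀).len = l 0) {T : X r}
    (hT : T ∈ OB r hr (C.R 0)) (hS : ∀ k, (Datum.it C.q.M C.q.N k (dat T)).SOrd) :
    T.SemiConj T₀ := by
  have hB : (dat T).HasBd (C.q.B 0) := by
    have := hasBd_of_OB hr (C.Rpos 0) hT
    rw [C.hB0, ← C.hR0]
    exact this
  have t : Datum.Tower C.q.M C.q.N (fun k => Datum.it C.q.M C.q.N k (dat T)) :=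
    ⟨C.hM, C.hN, fun k => rfl, fun k => Datum.it_match (dat_match T) k, hS⟩
  obtain ⟨h, H⟩ := t.exists_inv hl
  exact semiConj_of (A := ⟨t, C.bs, fun k => Datum.it_hasBd C.q hB k, hl, H⟩) rfl C.c7 ha hlen

include hr C in
theorem main : ∃ T₀ : X r, T₀.IsStandard ∧ T₀.NoConnections ∧ ∃ T₁ ∈ T₀.SemiClass,
    ∀ S : Set (X r), T₀.SemiClass ⊆ S → ¬ IsCodimAt S 3 T₁ := by
  obtain ⟨l, hl, hl1, hlA⟩ := exists_Lens C.q.M C.q.N C.hM C.hN
  have hlb : bal one4 (l 0) = 0 := by unfold bal one4; ring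
  set T₀ : X r := affG r (ρ := one4) (fun _ => one_pos) ⟨l 0, hl.pos 0, hl1, hlb⟩ with hT₀
  have ha : Datum.Aff one4 (dat T₀) := affG_aff _ _
  have hlen : (dat T₀).len = l 0 := affG_len _ _
  refine ⟨T₀, ?_, ?_, ?_⟩
  · intro a
    refine ⟨(dat T₀).f a 0, fun x hx => ?_⟩
    rw [map_eq T₀ hx]
    have := ha a 0 x
    have e : one4 a = 1 := rfl
    rw [e] at this
    linarith
  · have := aff_tower (ρ := fun _ => one4) (M := C.q.M) (N := C.q.N) (fun _ _ => one_pos)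
      (fun k => (nx_one _ _).symm) hlA hl.pos C.hM C.hN ha (dat_match T₀) hlen
    exact noConnections_of this.2.2 rfl
  -- the affine map
  obtain ⟨y, hy0, hyA, hy1, hyb⟩ := exists_lens (ρ := C.R) (M := C.q.M) (N := C.q.N) C.Rpos C.Rs
    C.hM C.hN (fun k => ⟨_, pst_mem (C.R1le k) (C.R2le k)⟩)
  set T₁ : X r := affG r (C.Rpos 0) ⟨y 0, hy0 0, hy1, hyb 0⟩ with hT₁
  have hT₁S : T₁.SemiConj T₀ := by
    have := aff_tower (ρ := C.R) (M := C.q.M) (N := C.q.N) C.Rpos C.Rs hyA hy0 C.hM C.hN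
      (affG_aff (r := r) (C.Rpos 0) ⟨y 0, hy0 0, hy1, hyb 0⟩) (dat_match _) (affG_len _ _)
    exact semi_of_tower hr C hl ha hlen (affG_mem_OB hr _ _) this.2.2.o
  refine ⟨T₁, hT₁S, ?_⟩
  rintro S hS ⟨E, _, _, _, U, φ, hU, hTU, hφ, hφS⟩
  -- a neighbourhood in the space of lengths
  have hpre : IsOpen ((affG r (C.Rpos 0)) ⁻¹' U) := hU.preimage (affG_cont (C.Rpos 0))
  obtain ⟨η, hη, hηU⟩ := Metric.isOpen_iff.mp hpre ⟨y 0, hy0 0, hy1, hyb 0⟩ hTU
  obtain ⟨K', hK'⟩ := exists_pow_lt_of_lt_one hη (show (1/2 : ℝ) < 1 by norm_num)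
  obtain ⟨κ, hκe⟩ : ∃ κ, κ = C.q.κ (K'+1) := ⟨_, rfl⟩
  obtain ⟨ρ, hρe⟩ : ∃ ρ, ρ = C.R (K'+1) := ⟨_, rfl⟩
  have hκ : 0 < κ := by
    rw [hκe]
    have h4 := (C.q.par (K'+1)).hκ
    have h5 := (C.q.ok (K'+1)).pos 0
    have h6 := (C.q.ok (K'+1)).le 0
    linarith
  have h0 := C.R0le (K'+1)
  have h1 := C.R1le (K'+1)
  have h2 := C.R2le (K'+1)
  have h3 := C.R3le (K'+1)
  rw [← hρe] at h0 h1 h2 h3
  -- the open set of good parameters
  set W : Set ℂ := {z | ∀ i, 0 < C.A K' (Lp κ ρ z) i} with hW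
  have hAc : Continuous fun z => C.A K' (Lp κ ρ z) := (continuous_A _ _ _).comp Lp_cont
  have hWo : IsOpen W := by
    have : W = ⋂ i, {z | 0 < C.A K' (Lp κ ρ z) i} := by ext z; simp [hW]
    rw [this]
    exact isOpen_iInter_of_finite fun i => isOpen_lt continuous_const ((continuous_apply i).comp hAc)
  have hpos : ∀ z ∈ W, ∀ i, 0 < C.Φ (K'+1) (Lp κ ρ z) i := by
    intro z hz
    exact C.Φ_pos K' hz
  have htotpos : ∀ z ∈ W, 0 < tot (C.Φ (K'+1) (Lp κ ρ z)) := by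
    intro z hz
    have := hpos z hz
    unfold tot
    linarith [this 0, this 1, this 2, this 3]
  have hnc : ContinuousOn (fun z => nrm (C.Φ (K'+1) (Lp κ ρ z))) W := by
    intro z hz
    apply ContinuousAt.continuousWithinAt
    exact ContinuousAt.comp (g := nrm) (f := fun z => C.Φ (K'+1) (Lp κ ρ z))
      (continuousAt_nrm (htotpos z hz).ne') ((C.Φ_cont (K'+1)).comp Lp_cont).continuousAt
  set O : Set ℂ := W ∩ (fun z => nrm (C.Φ (K'+1) (Lp κ ρ z))) ⁻¹' Metric.ball (y 0) η with hO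
  have hOo : IsOpen O := hnc.isOpen_inter_preimage hWo Metric.isOpen_ball
  have hyn : nrm (y (K'+1)) ∈ QQ (C.R (K'+1)) := by
    have ht : 0 < tot (y (K'+1)) := by
      have := hy0 (K'+1)
      unfold tot
      linarith [this 0, this 1, this 2, this 3]
    refine ⟨fun i => ?_, tot_nrm ht.ne', ?_⟩
    · exact mul_nonneg (inv_nonneg.mpr ht.le) (hy0 _ i).le
    · rw [nrm, bal_smul, hyb, mul_zero]
  have hyn2 : nrm (C.Φ (K'+1) (nrm (y (K'+1)))) = y 0 := by
    have ht : 0 < tot (y (K'+1)) := by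
      have := hy0 (K'+1)
      unfold tot
      linarith [this 0, this 1, this 2, this 3]
    conv_lhs => rw [nrm.eq_1 (y (K'+1)), C.Φ_smul, C.Φ_seq hyA]
    rw [nrm_smul (inv_ne_zero ht.ne'), nrm_of_tot hy1]
  have hsub : PP κ ρ 0 ⊆ O := by
    intro z hz
    have hzQ : Lp κ ρ z ∈ QQ (C.R (K'+1)) := by
      refine ⟨fun i => ?_, Lp_tot hκ h0 h1 h2 h3 z, ?_⟩
      · have := hz i
        linarith
      · rw [← hρe]
        exact Lp_bal hκ h0 h1 h2 h3 z
    constructor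
    · intro i
      have hh := C.halves (K'+1) hzQ
      exact A_pos' (C.Rpos K') _ _ (C.hM K') (C.hN K') hzQ.1 hh.1 hh.2 i
    · show dist _ _ < η
      have := C.shrink K' hzQ hyn
      rw [hyn2] at this
      linarith
  obtain ⟨ε, hε, hε1, hεO⟩ := exists_eps hκ h0 h1 h2 h3 hOo hsub
  -- the family
  have hLam : ∀ t : PP κ ρ ε, nrm (C.Φ (K'+1) (Lp κ ρ t)) ∈ Lam (C.R 0) := by
    intro t
    have ht := htotpos t (hεO t.2).1
    refine ⟨fun i => ?_, tot_nrm ht.ne', ?_⟩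
    · exact mul_pos (inv_pos.mpr ht) (hpos t (hεO t.2).1 i)
    · rw [nrm, bal_smul, C.Φ_bal, ← hρe, Lp_bal hκ h0 h1 h2 h3, mul_zero]
  set g : PP κ ρ ε → X r := fun t => affG r (C.Rpos 0) ⟨nrm (C.Φ (K'+1) (Lp κ ρ t)), hLam t⟩
    with hg
  have hgc : Continuous g := by
    apply (affG_cont (C.Rpos 0)).comp
    apply Continuous.subtype_mk
    rw [continuous_iff_continuousAt]
    intro t
    have := (hnc.continuousAt (hWo.mem_nhds (hεO t.2).1))
    exact ContinuousAt.comp (g := fun z : ℂ => nrm (C.Φ (K'+1) (Lp κ ρ z))) this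
      continuous_subtype_val.continuousAt
  have hgU : ∀ t, g t ∈ U := by
    intro t
    apply hηU
    show dist (nrm (C.Φ (K'+1) (Lp κ ρ t))) (y 0) < η
    exact (hεO t.2).2
  -- lengths of the induced data
  have hlenK : ∀ t : PP κ ρ ε, (Datum.it C.q.M C.q.N (K'+1) (dat (g t))).len =
      (tot (C.Φ (K'+1) (Lp κ ρ t)))⁻¹ • Lp κ ρ t := by
    intro t
    refine (C.len_it (affG_aff _ _) (dat_match _) (K'+1) ?_).2
    rw [affG_len, C.Φ_smul]
    rfl
  have hSord : ∀ t : PP κ ρ ε, ∀ j, j ≤ K' → (Datum.it C.q.M C.q.N j (dat (g t))).SOrd := by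
    intro t j hj
    have hst := inv_pos.mpr (htotpos t (hεO t.2).1)
    have hw : ∀ i, 0 < C.A K' ((tot (C.Φ (K'+1) (Lp κ ρ t)))⁻¹ • Lp κ ρ t) i := by
      intro i
      rw [Ch.A, A_smul]
      exact mul_pos hst ((hεO t.2).1 i)
    obtain ⟨w, hw1, hw2⟩ := C.Φ_down K' hw j hj
    apply sord_of_len
    have : (Datum.it C.q.M C.q.N j (dat (g t))).len = w := by
      refine (C.len_it (affG_aff _ _) (dat_match _) j ?_).2
      rw [affG_len, ← hw2, ← C.Φ_succ, C.Φ_smul]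
      rfl
    rw [this]
    exact hw1
  -- the open conditions
  set Q : Set (PP κ ρ ε × X r) := {p | p.2 ∈ OB r hr (C.R 0) ∧
    (∀ j : Fin (K'+1), (Datum.it C.q.M C.q.N j (dat p.2)).SOrd) ∧
    ((∃ i, Lp κ ρ (p.1 : ℂ) i = -ε) →
      (∃ i, (Datum.it C.q.M C.q.N (K'+1) (dat p.2)).len i < 0) ∧
      Datum.V κ (Datum.it C.q.M C.q.N (K'+1) (dat p.2)) * (starRingEnd ℂ) (p.1 : ℂ) ∈
        Complex.slitPlane)} with hQ
  have hCF : Datum.CF (fun p : PP κ ρ ε × X r => dat p.2) := CF_comp CF_dat continuous_snd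
  have hQo : IsOpen Q := by
    have hFr : IsClosed {p : PP κ ρ ε × X r | ∃ i, Lp κ ρ (p.1 : ℂ) i = -ε} := by
      have : {p : PP κ ρ ε × X r | ∃ i, Lp κ ρ (p.1 : ℂ) i = -ε} =
          ⋃ i, {p : PP κ ρ ε × X r | Lp κ ρ (p.1 : ℂ) i = -ε} := by ext t; simp
      rw [this]
      exact isClosed_iUnion_of_finite fun i => isClosed_eq
        ((continuous_apply i).comp (Lp_cont.comp (continuous_subtype_val.comp continuous_fst)))
        continuous_const
    have e : Q = (Prod.snd ⁻¹' OB r hr (C.R 0)) ∩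
        ((⋂ j : Fin (K'+1), {p : PP κ ρ ε × X r | (Datum.it C.q.M C.q.N j (dat p.2)).SOrd}) ∩
        ({p : PP κ ρ ε × X r | ∃ i, Lp κ ρ (p.1 : ℂ) i = -ε}ᶜ ∪
          ((⋃ i, {p : PP κ ρ ε × X r | (Datum.it C.q.M C.q.N (K'+1) (dat p.2)).len i < 0}) ∩
            {p : PP κ ρ ε × X r | Datum.V κ (Datum.it C.q.M C.q.N (K'+1) (dat p.2)) * (starRingEnd ℂ) (p.1 : ℂ) ∈
              Complex.slitPlane}))) := by
      ext p
      simp only [hQ, mem_ofPred_eq, mem_inter_iff, mem_preimage, mem_iInter, mem_union,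
        mem_compl_iff, mem_iUnion, imp_iff_not_or]
    rw [e]
    refine ((OB_open hr _).preimage continuous_snd).inter
      ((isOpen_iInter_of_finite fun j => isOpen_sord (hCF.it _ _ _)).inter
      (hFr.isOpen_compl.union ((isOpen_iUnion fun i => ?_).inter ?_)))
    · exact isOpen_lt ((hCF.it _ _ _).len i) continuous_const
    · exact Complex.isOpen_slitPlane.preimage (((hCF.it _ _ _).V κ).mul
        (Complex.continuous_conj.comp (continuous_subtype_val.comp continuous_fst)))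
  have hgQ : ∀ t, (t, g t) ∈ Q := by
    intro t
    refine ⟨affG_mem_OB hr (C.Rpos 0) _, fun j => hSord t j (by omega), ?_⟩
    rintro ⟨i, hi⟩
    have hst := inv_pos.mpr (htotpos t (hεO t.2).1)
    have hL := hlenK t
    constructor
    · refine ⟨i, ?_⟩
      show (Datum.it C.q.M C.q.N (K'+1) (dat (g t))).len i < 0
      rw [hL]
      show _ * Lp κ ρ t i < 0
      rw [hi]
      have := mul_pos hst hε
      linarith
    · have ht0 : (t : ℂ) ≠ 0 := by
        intro h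
        rw [h] at hi
        have := Lp_zero hκ h0 h1 h2 h3 i
        linarith
      set s := (tot (C.Φ (K'+1) (Lp κ ρ t)))⁻¹ with hs
      have hV : Datum.V κ (Datum.it C.q.M C.q.N (K'+1) (dat (g t))) = (s : ℂ) * t := by
        have e1 := Lp_re (κ := κ) (ρ := ρ) t
        have e2 := Lp_im (κ := κ) (ρ := ρ) t
        apply Complex.ext
        · rw [Complex.re_ofReal_mul, ← e1]
          show κ * (Datum.it C.q.M C.q.N (K'+1) (dat (g t))).len 3 -
            (Datum.it C.q.M C.q.N (K'+1) (dat (g t))).len 2 = _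
          rw [hL]
          show κ * (s * Lp κ ρ t 3) - s * Lp κ ρ t 2 = _
          ring
        · rw [Complex.im_ofReal_mul, ← e2]
          show (Datum.it C.q.M C.q.N (K'+1) (dat (g t))).len 0 -
            (Datum.it C.q.M C.q.N (K'+1) (dat (g t))).len 1 = _
          rw [hL]
          show s * Lp κ ρ t 0 - s * Lp κ ρ t 1 = _
          ring
      show Datum.V κ (Datum.it C.q.M C.q.N (K'+1) (dat (g t))) * (starRingEnd ℂ) (t : ℂ) ∈ _
      rw [hV, mul_assoc, Complex.mul_conj, ← Complex.ofReal_mul]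
      exact Complex.ofReal_mem_slitPlane.mpr (mul_pos hst (Complex.normSq_pos.mpr ht0))
  obtain ⟨g', hg'c, hg'Q, hg'S⟩ := exists_avoiding hφ hφS (PP_compact hκ h0 h1 h2 h3 hε1) hgc hgU
    hQo hgQ
  have hbd : ∀ t, (dat (g' t)).HasBd (C.q.B 0) := by
    intro t
    have := hasBd_of_OB hr (C.Rpos 0) (hg'Q t).1
    rw [C.hB0, ← C.hR0]
    exact this
  obtain ⟨t, ht⟩ := exists_tower C K' hκe hρe hε hε1 (D := fun t => dat (g' t))
    (CF_comp CF_dat hg'c) (fun t => dat_match _) hbd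
    (fun t j hj => (hg'Q t).2.1 ⟨j, by omega⟩) (fun t => (hg'Q t).2.2)
  exact hg'S t (hS (semi_of_tower hr C hl ha hlen (hg'Q t).1 ht))

end main

end IEM

end Pool.Agent.H814R3
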